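import Pool.Agent.Lib_helper19.EXB.EPT

/-! EXC, part B: the sum for one centre, small `v`. -/

set_option autoImplicit false

namespace Pool.Agent.EXB

open Pool.Agent.LSPD (tau gs IK ph Ts ts_card)
open Pool.Agent.LSPO (hyp hyp_nonneg hyp_le_one)
open Finset

noncomputable section

theorem eps_cop {D v b₁ d : ℕ} (hv : v.primeFactors ⊆ D.primeFactors) (hv1 : 1 ≤ v) (hD : 1 ≤ D) :
    (Nat.Coprime d D ∧ Nat.Coprime d b₁) ↔ Nat.Coprime d (b₁ * Nat.lcm v D) := by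
  have h1 : Nat.Coprime d D → Nat.Coprime d v := by
    intro h
    rw [Nat.coprime_iff_gcd_eq_one]
    by_contra hne
    obtain ⟨p, hp, hpd⟩ := Nat.exists_prime_and_dvd hne
    have h2 : p ∣ v := hpd.trans (Nat.gcd_dvd_right d v)
    have h3 : p ∈ D.primeFactors := hv (Nat.mem_primeFactors.2 ⟨hp, h2, by omega⟩)
    have h4 := Nat.dvd_gcd (hpd.trans (Nat.gcd_dvd_left d v)) (Nat.dvd_of_mem_primeFactors h3)
    rw [Nat.coprime_iff_gcd_eq_one.1 h] at h4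
    exact hp.one_lt.ne' (Nat.dvd_one.1 h4)
  constructor
  · rintro ⟨h2, h3⟩
    refine Nat.Coprime.mul_right h3 ?_
    exact Nat.Coprime.coprime_dvd_right (Nat.lcm_dvd_mul v D) (Nat.Coprime.mul_right (h1 h2) h2)
  · intro h
    exact ⟨Nat.Coprime.coprime_dvd_right ((Nat.dvd_lcm_right v D).trans (Dvd.intro_left _ rfl)) h,
      Nat.Coprime.coprime_dvd_right (Dvd.intro _ rfl) h⟩

theorem eps_pr {D v : ℕ} (hv : v.primeFactors ⊆ D.primeFactors) (hv1 : 1 ≤ v) (hD : 1 ≤ D)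
    (p : ℕ) (hp : p.Prime) (h : p ∣ Nat.lcm v D) : p ∣ v ∨ p ∣ D := by
  have h1 : p ∣ v * D := h.trans (Nat.lcm_dvd_mul v D)
  exact (Nat.Prime.dvd_mul hp).1 h1

/-- small `v`: the main term and the incomplete Kloosterman sums -/
theorem eps_small {D : ℕ} [NeZero D] {χ : DirichletCharacter ℂ D} (hχ : χ.IsPrimitive) {L : ℝ}
    (hL : 0 < L) {k b₁ v : ℕ} (hk : 1 ≤ k) (hv : 1 ≤ v) (hvD : v.primeFactors ⊆ D.primeFactors)
    (hbv : Nat.Coprime v b₁) (r₁ t : ℤ) (K : ℕ) (w : ℕ → ℝ) {B : ℝ}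
    (hB : ∀ α : ℕ, |∑ d ∈ (Icc 1 K).filter (fun d => Nat.Coprime d (b₁ * Nat.lcm v D)),
      w d * Eg L b₁ (Nat.lcm v D) (r₁ - b₁ * t) (α - t) d| ≤ B) :
    ‖∑ d ∈ Ks D b₁ K, (w d : ℂ) * At χ L (k * b₁) (k * r₁) t (k * (v * d)) -
      (L : ℂ) * (if D ∣ v then ∑ d ∈ Ks D b₁ K, χ (r₁ : ZMod D) * (starRingEnd ℂ) (χ (b₁ : ZMod D)) *
        ((w d / ((v * d : ℕ) : ℝ) : ℝ) : ℂ) else 0)‖ ≤ (Nat.lcm v D : ℕ) * B := by
  have hD : 1 ≤ D := Nat.one_le_iff_ne_zero.2 (NeZero.ne D)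
  set M : ℕ := Nat.lcm v D with hM
  have hM1 : 1 ≤ M := Nat.lcm_pos hv hD
  have hvM : v ∣ M := Nat.dvd_lcm_left v D
  have hDM : D ∣ M := Nat.dvd_lcm_right v D
  set S := (range M).filter (fun α : ℕ => (v : ℤ) ∣ b₁ * α - r₁) with hS
  have hKs : Ks D b₁ K = (Icc 1 K).filter (fun d => Nat.Coprime d (b₁ * M)) := by
    unfold Ks
    refine Finset.filter_congr fun d _ => ?_
    exact eps_cop hvD hv hD
  have h1 : ∑ d ∈ Ks D b₁ K, (w d : ℂ) * At χ L (k * b₁) (k * r₁) t (k * (v * d)) =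
      ∑ α ∈ S, χ (α : ZMod D) * ((∑ d ∈ Ks D b₁ K, w d * Eg L b₁ M (r₁ - b₁ * t) (α - t) d : ℝ) : ℂ) +
      (∑ α ∈ S, χ (α : ZMod D)) * ((∑ d ∈ Ks D b₁ K, w d * (L / ((d * M : ℕ) : ℝ)) : ℝ) : ℂ) := by
    have h2 : ∀ d ∈ Ks D b₁ K, (w d : ℂ) * At χ L (k * b₁) (k * r₁) t (k * (v * d)) =
        ∑ α ∈ S, χ (α : ZMod D) * ((w d * Eg L b₁ M (r₁ - b₁ * t) (α - t) d : ℝ) : ℂ) +
        ∑ α ∈ S, χ (α : ZMod D) * ((w d * (L / ((d * M : ℕ) : ℝ)) : ℝ) : ℂ) := by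
      intro d hd
      have hd' := Finset.mem_filter.1 hd
      have hvd : Nat.Coprime v d := by
        have := (eps_cop (b₁ := b₁) hvD hv hD).1 hd'.2
        exact (Nat.Coprime.coprime_dvd_right (hvM.trans (Dvd.intro_left _ rfl)) this).symm
      rw [dec_one χ hL hk hM1 hDM hvM hvd r₁ t, Finset.mul_sum, ← Finset.sum_add_distrib]
      refine Finset.sum_congr rfl fun α _ => ?_
      unfold Eg
      push_cast
      ring
    rw [Finset.sum_congr rfl h2, Finset.sum_add_distrib, Finset.sum_comm,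
      Finset.sum_comm (s := Ks D b₁ K) (t := S)]
    congr 1
    · refine Finset.sum_congr rfl fun α _ => ?_
      rw [← Finset.mul_sum]
      push_cast
      rfl
    · rw [Finset.sum_mul]
      refine Finset.sum_congr rfl fun α _ => ?_
      rw [← Finset.mul_sum]
      push_cast
      rfl
  have h3 : (∑ α ∈ S, χ (α : ZMod D)) * ((∑ d ∈ Ks D b₁ K, w d * (L / ((d * M : ℕ) : ℝ)) : ℝ) : ℂ) =
      (L : ℂ) * (if D ∣ v then ∑ d ∈ Ks D b₁ K, χ (r₁ : ZMod D) * (starRingEnd ℂ) (χ (b₁ : ZMod D)) *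
        ((w d / ((v * d : ℕ) : ℝ) : ℝ) : ℂ) else 0) := by
    by_cases hDv : D ∣ v
    · rw [if_pos hDv]
      have hMv : M = v := Nat.dvd_antisymm (Nat.lcm_dvd (dvd_refl v) hDv) hvM
      have h4 : ∑ α ∈ S, χ (α : ZMod D) = χ (r₁ : ZMod D) * (starRingEnd ℂ) (χ (b₁ : ZMod D)) := by
        rw [hS, hMv]
        exact prm_one χ hv hDv hbv.symm r₁
      rw [h4, hMv, Finset.mul_sum, Complex.ofReal_sum, Finset.mul_sum]
      refine Finset.sum_congr rfl fun d _ => ?_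
      push_cast
      ring
    · rw [if_neg hDv]
      have h4 : ∑ α ∈ S, χ (α : ZMod D) = 0 :=
        prm_zero hχ hM1 hvM hDM (eps_pr hvD hv hD) hDv (b₁ : ℤ) r₁
      rw [h4, zero_mul, mul_zero]
  rw [h1, h3, add_sub_cancel_right]
  have hB' : ∀ α ∈ S, ‖χ (α : ZMod D) * ((∑ d ∈ Ks D b₁ K, w d * Eg L b₁ M (r₁ - b₁ * t) (α - t) d : ℝ) : ℂ)‖ ≤ B := by
    intro α _
    rw [norm_mul, Complex.norm_real, Real.norm_eq_abs]
    have h5 := hB α
    rw [← hKs] at h5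
    have h6 := DirichletCharacter.norm_le_one χ (α : ZMod D)
    calc ‖χ (α : ZMod D)‖ * |∑ d ∈ Ks D b₁ K, w d * Eg L b₁ M (r₁ - b₁ * t) (α - t) d| ≤
        1 * |∑ d ∈ Ks D b₁ K, w d * Eg L b₁ M (r₁ - b₁ * t) (α - t) d| :=
          mul_le_mul_of_nonneg_right h6 (abs_nonneg _)
      _ ≤ B := by rw [one_mul]; exact h5
  have hB0 : 0 ≤ B := le_trans (abs_nonneg _) (hB 0)
  refine (norm_sum_le_of_le S hB').trans ?_
  rw [Finset.sum_const, nsmul_eq_mul]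
  refine mul_le_mul_of_nonneg_right ?_ hB0
  have : S.card ≤ M := by
    have := Finset.card_filter_le (range M) (fun α : ℕ => (v : ℤ) ∣ b₁ * α - r₁)
    rwa [Finset.card_range] at this
  exact_mod_cast this

theorem eps_zero {D : ℕ} (χ : DirichletCharacter ℂ D) (L : ℝ) {b k : ℕ} (hk : k ∣ b) {r : ℤ}
    (hr : ¬ (k : ℤ) ∣ r) (t : ℤ) (m : ℕ) : At χ L b r t (k * m) = 0 := by
  unfold At
  have h0 : ∀ a : ℤ, (if ((k * m : ℕ) : ℤ) ∣ b * a - r then ((gs L (a - t) : ℝ) : ℂ) * χ (a : ZMod D)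
      else 0) = 0 := by
    intro a
    rw [if_neg]
    intro h
    apply hr
    have h1 : (k : ℤ) ∣ b * a - r := by
      refine dvd_trans ?_ h
      push_cast; exact Dvd.intro _ rfl
    have h2 : (k : ℤ) ∣ b * a := Dvd.dvd.mul_right (Int.natCast_dvd_natCast.2 hk) a
    have := dvd_sub h2 h1
    have e1 : (b : ℤ) * a - (b * a - r) = r := by ring
    rwa [e1] at this
  rw [tsum_congr h0, tsum_zero]

theorem eps_harm (K : ℕ) : ∑ d ∈ Icc 1 K, 1 / (d : ℝ) ≤ 1 + Real.log (1 + K) := by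
  rcases Nat.eq_zero_or_pos K with h | h
  · subst h; simp
  · have h1 := harmonic_le_one_add_log K
    have h2 : ((harmonic K : ℚ) : ℝ) = ∑ d ∈ Icc 1 K, 1 / (d : ℝ) := by
      rw [harmonic_eq_sum_Icc]
      push_cast
      refine Finset.sum_congr rfl fun d _ => by rw [one_div]
    rw [← h2]
    refine h1.trans ?_
    have h3 : Real.log K ≤ Real.log (1 + K) := by
      apply Real.log_le_log
      · exact_mod_cast h
      · linarith
    linarith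

theorem eps_w (n : ℕ) (y : ℝ) : 0 ≤ 2 * hyp (Real.log (n : ℝ) - y) ∧
    2 * hyp (Real.log (n : ℝ) - y) ≤ 2 := by
  have h1 := hyp_nonneg (Real.log (n : ℝ) - y)
  have h2 := hyp_le_one (Real.log (n : ℝ) - y)
  constructor <;> linarith

/-- the main term for one `v` -/
theorem eps_main {D : ℕ} [NeZero D] (χ : DirichletCharacter ℂ D) {L : ℝ} (hL : 0 ≤ L)
    (k b₁ v : ℕ) (hv : 1 ≤ v) (r₁ : ℤ) (K : ℕ) (y : ℝ) :
    ‖(L : ℂ) * (if D ∣ v then ∑ d ∈ Ks D b₁ K, χ (r₁ : ZMod D) * (starRingEnd ℂ) (χ (b₁ : ZMod D)) *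
        ((2 * hyp (Real.log ((k * (v * d) : ℕ) : ℝ) - y) / ((v * d : ℕ) : ℝ) : ℝ) : ℂ) else 0)‖ ≤
      2 * (L / v) * (1 + Real.log (1 + K)) := by
  have hvr : (1 : ℝ) ≤ v := by exact_mod_cast hv
  have hlog : 0 ≤ Real.log (1 + K) := Real.log_nonneg (by linarith [(Nat.cast_nonneg K : (0:ℝ) ≤ K)])
  rw [norm_mul, Complex.norm_real, Real.norm_of_nonneg hL]
  split_ifs
  · have h1 : ∀ d ∈ Ks D b₁ K, ‖χ (r₁ : ZMod D) * (starRingEnd ℂ) (χ (b₁ : ZMod D)) *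
        ((2 * hyp (Real.log ((k * (v * d) : ℕ) : ℝ) - y) / ((v * d : ℕ) : ℝ) : ℝ) : ℂ)‖ ≤
        2 / v * (1 / (d : ℝ)) := by
      intro d hd
      have hd1 : 1 ≤ d := (Finset.mem_Icc.1 (Finset.mem_filter.1 hd).1).1
      have hdr : (1 : ℝ) ≤ d := by exact_mod_cast hd1
      obtain ⟨w1, w2⟩ := eps_w (k * (v * d)) y
      rw [norm_mul, norm_mul, RCLike.norm_conj, Complex.norm_real, Real.norm_of_nonneg
        (div_nonneg w1 (Nat.cast_nonneg _))]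
      have h3 := DirichletCharacter.norm_le_one χ (r₁ : ZMod D)
      have h4 := DirichletCharacter.norm_le_one χ (b₁ : ZMod D)
      have h5 : ‖χ (r₁ : ZMod D)‖ * ‖χ (b₁ : ZMod D)‖ ≤ 1 := by
        have := mul_le_mul h3 h4 (norm_nonneg _) zero_le_one
        linarith
      calc ‖χ (r₁ : ZMod D)‖ * ‖χ (b₁ : ZMod D)‖ *
            (2 * hyp (Real.log ((k * (v * d) : ℕ) : ℝ) - y) / ((v * d : ℕ) : ℝ)) ≤
          1 * (2 / ((v * d : ℕ) : ℝ)) := by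
            refine mul_le_mul h5 ?_ (div_nonneg w1 (Nat.cast_nonneg _)) zero_le_one
            exact div_le_div_of_nonneg_right w2 (Nat.cast_nonneg _)
        _ = 2 / v * (1 / (d : ℝ)) := by push_cast; field_simp
    have h2 : ‖∑ d ∈ Ks D b₁ K, χ (r₁ : ZMod D) * (starRingEnd ℂ) (χ (b₁ : ZMod D)) *
        ((2 * hyp (Real.log ((k * (v * d) : ℕ) : ℝ) - y) / ((v * d : ℕ) : ℝ) : ℝ) : ℂ)‖ ≤
        2 / v * (1 + Real.log (1 + K)) := by
      refine (norm_sum_le_of_le _ h1).trans ?_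
      rw [← Finset.mul_sum]
      refine mul_le_mul_of_nonneg_left ?_ (by positivity)
      refine le_trans (Finset.sum_le_sum_of_subset_of_nonneg (Finset.filter_subset _ _) ?_)
        (eps_harm K)
      intro d _ _
      positivity
    calc L * ‖∑ d ∈ Ks D b₁ K, χ (r₁ : ZMod D) * (starRingEnd ℂ) (χ (b₁ : ZMod D)) *
        ((2 * hyp (Real.log ((k * (v * d) : ℕ) : ℝ) - y) / ((v * d : ℕ) : ℝ) : ℝ) : ℂ)‖ ≤
        L * (2 / v * (1 + Real.log (1 + K))) := mul_le_mul_of_nonneg_left h2 hL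
      _ = _ := by ring
  · rw [norm_zero, mul_zero]
    positivity

/-- the sum for one centre -/
theorem per_t {ε : ℝ} (hε : 0 < ε) (hε1 : ε ≤ 1) : ∃ C : ℝ, 1 ≤ C ∧ ∀ {D : ℕ} [NeZero D]
    {χ : DirichletCharacter ℂ D}, χ.IsPrimitive → ∀ {L : ℝ}, 1 ≤ L → ∀ {b Dl V₀ : ℕ}, 1 ≤ b →
    1 ≤ Dl → 1 ≤ V₀ → ∀ r t : ℤ, ¬ (b : ℤ) ∣ r → ∀ y : ℝ,
    ‖Sd χ L b r t Dl y - (L : ℂ) * Md χ b r Dl y‖ ≤
      C * (2 * (b : ℝ) * D * Dl * V₀ * |((r - b * t : ℤ) : ℝ)| * (1 + L)) ^ ε *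
        ((1 + |((r - b * t : ℤ) : ℝ)| / (b * L)) * ((V₀ : ℝ) * D) *
          ((Dl : ℝ) * (Int.gcd r b : ℝ) / b + ((b : ℝ) * (V₀ * D)) ^ (3 / 4 : ℝ)) + (1 + L / V₀)) := by
  set δ : ℝ := ε / 4 with hδd
  have hδ : 0 < δ := by positivity
  have hδ1 : δ ≤ 1 := by linarith
  obtain ⟨C₁, hC₁, hdiv⟩ := Pool.Agent.FG61.divisor_bound hδ
  obtain ⟨C₂, hC₂, hts⟩ := ts_card hδ
  obtain ⟨C₃, hC₃, hcore⟩ := core hδ
  set F : ℝ := 3 + 2 / δ with hF
  have hF1 : 1 ≤ F := by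
    have : 0 < 2 / δ := by positivity
    linarith
  refine ⟨max 1 (C₁ * C₂ * (2 * C₃ + 12 * C₁ + 2 * F)), le_max_left _ _, ?_⟩
  intro D _ χ hχ L hL b Dl V₀ hb hDl hV r t hbr y
  have hD : 1 ≤ D := Nat.one_le_iff_ne_zero.2 (NeZero.ne D)
  have hL0 : 0 < L := by linarith
  have hbR : (1 : ℝ) ≤ b := by exact_mod_cast hb
  have hDR : (1 : ℝ) ≤ D := by exact_mod_cast hD
  have hDlR : (1 : ℝ) ≤ Dl := by exact_mod_cast hDl
  have hVR : (1 : ℝ) ≤ V₀ := by exact_mod_cast hV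
  set ρ : ℝ := |((r - b * t : ℤ) : ℝ)| with hρ
  have hρ1 : 1 ≤ ρ := by
    have h1 : r - b * t ≠ 0 := by
      intro h
      exact hbr ⟨t, by linarith⟩
    have : (1 : ℤ) ≤ |r - b * t| := Int.one_le_abs h1
    rw [hρ]
    exact_mod_cast this
  set Z : ℝ := 2 * (b : ℝ) * D * Dl * V₀ * ρ * (1 + L) with hZ
  set G : ℝ := (Int.gcd r b : ℝ) with hG
  have hG0 : 0 ≤ G := by rw [hG]; positivity
  set Q : ℝ := (Dl : ℝ) * G / b + ((b : ℝ) * (V₀ * D)) ^ (3 / 4 : ℝ) with hQ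
  have hQ0 : 0 ≤ Q := by rw [hQ]; positivity
  have hpr : ∀ x y : ℝ, 1 ≤ x → 1 ≤ y → 1 ≤ x * y := fun x y hx hy => by nlinarith
  have hbD : (1 : ℝ) ≤ b * D := hpr _ _ hbR hDR
  have hbDDl : (1 : ℝ) ≤ b * D * Dl := hpr _ _ hbD hDlR
  have hbDV : (1 : ℝ) ≤ b * D * Dl * V₀ := hpr _ _ hbDDl hVR
  have hbDVρ : (1 : ℝ) ≤ b * D * Dl * V₀ * ρ := hpr _ _ hbDV hρ1
  have hZ1 : 1 ≤ Z := by
    rw [hZ]
    have := hpr _ _ hbDVρ (by linarith : (1 : ℝ) ≤ 1 + L)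
    nlinarith
  have hZδ1 : 1 ≤ Z ^ δ := Real.one_le_rpow hZ1 hδ.le
  have hZmono : ∀ x : ℝ, 0 ≤ x → x ≤ Z → x ^ δ ≤ Z ^ δ := fun x h0 h1 =>
    Real.rpow_le_rpow h0 h1 hδ.le
  -- majorants by Z
  have hZ_b : (b : ℝ) ≤ Z := by
    rw [hZ]
    calc (b : ℝ) = b * 1 * 1 * 1 * 1 * 1 := by ring
      _ ≤ (2 * b) * D * Dl * V₀ * ρ * (1 + L) := by
          gcongr <;> linarith
      _ = _ := by ring
  have hZ_DDl : (D : ℝ) * Dl ≤ Z := by
    rw [hZ]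
    calc (D : ℝ) * Dl = 1 * D * Dl * 1 * 1 * 1 := by ring
      _ ≤ (2 * b) * D * Dl * V₀ * ρ * (1 + L) := by
          gcongr <;> linarith
      _ = _ := by ring
  have hZ_c : 2 * (b : ℝ) * (V₀ * D) * Dl ≤ Z := by
    rw [hZ]
    calc 2 * (b : ℝ) * (V₀ * D) * Dl = (2 * b * D * Dl * V₀) * 1 * 1 := by ring
      _ ≤ (2 * b * D * Dl * V₀) * ρ * (1 + L) := by
          gcongr; linarith
      _ = _ := by ring
  have hZ_Y : (b : ℝ) * ρ * (1 + L) ≤ Z := by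
    rw [hZ]
    calc (b : ℝ) * ρ * (1 + L) = (1 * b) * 1 * 1 * 1 * ρ * (1 + L) := by ring
      _ ≤ (2 * b) * D * Dl * V₀ * ρ * (1 + L) := by
          gcongr <;> linarith
      _ = _ := by ring
  have hZ_Dl : 1 + (Dl : ℝ) ≤ Z := by
    rw [hZ]
    calc 1 + (Dl : ℝ) ≤ 2 * 1 * 1 * Dl * 1 * 1 * 1 := by linarith
      _ ≤ 2 * b * D * Dl * V₀ * ρ * (1 + L) := by
          gcongr; linarith
      _ = _ := by ring
  -- the bound for one (k, v)
  set B1 : ℝ := (V₀ * D : ℝ) * (2 * (C₃ * Z ^ δ * (1 + ρ / (b * L)) * Q)) with hB1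
  set B2 : ℝ := (12 * C₁ + 2 * F) * Z ^ δ * (1 + L / V₀) with hB2
  have hB10 : 0 ≤ B1 := by rw [hB1]; positivity
  have hB20 : 0 ≤ B2 := by rw [hB2]; positivity
  have hone : ∀ k ∈ b.divisors.filter (fun k : ℕ => (k : ℤ) ∣ r), ∀ v ∈ Vs D (b / k) (Dl / k),
      ‖∑ d ∈ Ks D (b / k) (Dl / k / v),
        ((2 * hyp (Real.log ((k * (v * d) : ℕ) : ℝ) - y) : ℝ) : ℂ) * At χ L b r t (k * (v * d)) -
        (L : ℂ) * (if D ∣ v then ∑ d ∈ Ks D (b / k) (Dl / k / v),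
        χ ((r / k : ℤ) : ZMod D) * (starRingEnd ℂ) (χ ((b / k : ℕ) : ZMod D)) *
        ((2 * hyp (Real.log ((k * (v * d) : ℕ) : ℝ) - y) / ((v * d : ℕ) : ℝ) : ℝ) : ℂ) else 0)‖ ≤
      B1 + B2 := by
    intro k hk v hv
    obtain ⟨hk1, hk2⟩ := Finset.mem_filter.1 hk
    obtain ⟨b₁, hb₁⟩ := Nat.dvd_of_mem_divisors hk1
    obtain ⟨r₁, hr₁⟩ := hk2
    have hk0 : 0 < k := Nat.pos_of_mem_divisors hk1
    have hkz : (k : ℤ) ≠ 0 := by exact_mod_cast hk0.ne'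
    have hkR : (1 : ℝ) ≤ k := by exact_mod_cast hk0
    have hb10 : 0 < b₁ := Nat.pos_of_ne_zero (fun h => by subst h; simp at hb₁; omega)
    have hb1R : (1 : ℝ) ≤ b₁ := by exact_mod_cast hb10
    have e1 : b / k = b₁ := by rw [hb₁, Nat.mul_div_cancel_left _ hk0]
    have e2 : r / (k : ℤ) = r₁ := by rw [hr₁, Int.mul_ediv_cancel_left _ hkz]
    rw [e1, e2]
    rw [e1] at hv
    obtain ⟨hv1, hv2, hv3⟩ := Finset.mem_filter.1 hv
    obtain ⟨hv4, hv5⟩ := Finset.mem_Icc.1 hv1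
    have hvR : (1 : ℝ) ≤ v := by exact_mod_cast hv4
    set K : ℕ := Dl / k / v with hK
    have hKDl : (K : ℝ) ≤ Dl := by
      have : K ≤ Dl := (Nat.div_le_self _ _).trans (Nat.div_le_self _ _)
      exact_mod_cast this
    have hKk : (K : ℝ) * k ≤ Dl := by
      have h1 : K * k ≤ Dl := by
        calc K * k ≤ (Dl / k) * k := Nat.mul_le_mul_right k (Nat.div_le_self _ _)
          _ ≤ Dl := Nat.div_mul_le_self _ _
      exact_mod_cast h1
    have hbk : (b : ℝ) = k * b₁ := by rw [hb₁]; push_cast; rfl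
    have hrk : (r : ℤ) - b * t = k * (r₁ - b₁ * t) := by rw [hr₁, hb₁]; push_cast; ring
    have hρk : ρ = k * |((r₁ - b₁ * t : ℤ) : ℝ)| := by
      rw [hρ, hrk]
      push_cast
      rw [abs_mul, abs_of_pos (by linarith : (0 : ℝ) < k)]
    have hb1b : (b₁ : ℝ) ≤ b := by rw [hbk]; exact le_mul_of_one_le_left (by positivity) hkR
    have hρ1le : |((r₁ - b₁ * t : ℤ) : ℝ)| ≤ ρ := by
      rw [hρk]; exact le_mul_of_one_le_left (abs_nonneg _) hkR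
    rcases le_or_gt v V₀ with hvV | hvV
    · -- small v
      have hM1 : 1 ≤ Nat.lcm v D := Nat.lcm_pos hv4 hD
      have hMle : ((Nat.lcm v D : ℕ) : ℝ) ≤ V₀ * D := by
        have h1 : Nat.lcm v D ≤ v * D := Nat.le_of_dvd (Nat.mul_pos hv4 hD) (Nat.lcm_dvd_mul v D)
        have h2 : v * D ≤ V₀ * D := Nat.mul_le_mul_right D hvV
        exact_mod_cast h1.trans h2
      have hMR : (1 : ℝ) ≤ ((Nat.lcm v D : ℕ) : ℝ) := by exact_mod_cast hM1
      have hsm := eps_small hχ hL0 (k := k) (b₁ := b₁) (v := v) hk0 hv4 hv2 hv3 r₁ t K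
        (fun d => 2 * hyp (Real.log ((k * (v * d) : ℕ) : ℝ) - y))
        (B := 2 * (C₃ * Z ^ δ * (1 + ρ / (b * L)) * Q)) ?_
      · rw [← hb₁, ← hr₁] at hsm
        refine hsm.trans ?_
        calc ((Nat.lcm v D : ℕ) : ℝ) * (2 * (C₃ * Z ^ δ * (1 + ρ / (b * L)) * Q)) ≤ B1 := by
              rw [hB1]
              exact mul_le_mul_of_nonneg_right hMle (by positivity)
          _ ≤ B1 + B2 := by linarith
      · intro α
        have h3 := ept_class (C := C₃) (ε := δ) hL hC₃ hδ hcore (b₁ := b₁) (M := Nat.lcm v D)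
          (K := K) hb10 hM1 (r₁ - b₁ * t) (α - t) (c := k * v) (Nat.mul_pos hk0 hv4) y
        have e3 : ∀ d : ℕ, k * (v * d) = k * v * d := fun d => by ring
        simp only [e3]
        refine h3.trans ?_
        refine mul_le_mul_of_nonneg_left ?_ (by norm_num)
        have h4 : (2 * (b₁ : ℝ) * ((Nat.lcm v D : ℕ) : ℝ) * K) ^ δ ≤ Z ^ δ := by
          refine hZmono _ (by positivity) (le_trans ?_ hZ_c)
          gcongr
        have h5 : |((r₁ - b₁ * t : ℤ) : ℝ)| / ((b₁ : ℝ) * L) = ρ / (b * L) := by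
          rw [hρk, hbk]
          field_simp
        have h6 : (K : ℝ) * (Int.gcd ((b₁ : ℤ) * (α - t) - (r₁ - b₁ * t)) ((b₁ * Nat.lcm v D : ℕ) : ℤ) : ℝ) /
            ((b₁ : ℝ) * ((Nat.lcm v D : ℕ) : ℝ)) ≤ (Dl : ℝ) * G / b := by
          have h7 := ept_gcd hb (Dvd.intro b₁ hb₁.symm) (Dvd.intro r₁ hr₁.symm) hM1 (α : ℤ) t
          rw [e1, e2] at h7
          calc (K : ℝ) * (Int.gcd ((b₁ : ℤ) * (α - t) - (r₁ - b₁ * t)) ((b₁ * Nat.lcm v D : ℕ) : ℤ) : ℝ) /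
                ((b₁ : ℝ) * ((Nat.lcm v D : ℕ) : ℝ)) ≤
              (K : ℝ) * ((Int.gcd r b : ℝ) * ((Nat.lcm v D : ℕ) : ℝ)) /
                ((b₁ : ℝ) * ((Nat.lcm v D : ℕ) : ℝ)) := by
                gcongr
            _ = ((K : ℝ) * k) * G / ((k : ℝ) * b₁) := by
                rw [hG]; field_simp
            _ ≤ (Dl : ℝ) * G / ((k : ℝ) * b₁) := by
                gcongr
            _ = (Dl : ℝ) * G / b := by rw [hbk]
        have h8 : ((b₁ : ℝ) * ((Nat.lcm v D : ℕ) : ℝ)) ^ (3 / 4 : ℝ) ≤ ((b : ℝ) * (V₀ * D)) ^ (3 / 4 : ℝ) := by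
          apply Real.rpow_le_rpow (by positivity) _ (by norm_num)
          gcongr
        rw [h5]
        have h9 : (K : ℝ) * (Int.gcd ((b₁ : ℤ) * (α - t) - (r₁ - b₁ * t)) ((b₁ * Nat.lcm v D : ℕ) : ℤ) : ℝ) /
            ((b₁ : ℝ) * ((Nat.lcm v D : ℕ) : ℝ)) + ((b₁ : ℝ) * ((Nat.lcm v D : ℕ) : ℝ)) ^ (3 / 4 : ℝ) ≤ Q := by
          rw [hQ]; exact add_le_add h6 h8
        have hCZ : C₃ * (2 * (b₁ : ℝ) * ((Nat.lcm v D : ℕ) : ℝ) * K) ^ δ * (1 + ρ / (b * L)) ≤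
            C₃ * Z ^ δ * (1 + ρ / (b * L)) := by gcongr
        exact mul_le_mul hCZ h9 (by positivity) (by positivity)
    · -- large v
      have hVv : (V₀ : ℝ) ≤ v := by exact_mod_cast hvV.le
      have hr1 : ¬ (b₁ : ℤ) ∣ r₁ := by
        intro h
        apply hbr
        rw [hr₁, hb₁]
        push_cast
        exact mul_dvd_mul_left _ h
      have hY : (b₁ : ℝ) * |((r₁ - b₁ * t : ℤ) : ℝ)| * (1 + L) ≤ (b : ℝ) * ρ * (1 + L) := by
        gcongr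
      have h3 := ept_big hδ hδ1 (by linarith : 0 < C₁) (fun n hn => hdiv n hn) χ hL hk0 hb10 hv4 hv3
        hr1 K hY
      rw [← hb₁, ← hr₁] at h3
      have h4 : ‖∑ d ∈ Ks D b₁ K, ((2 * hyp (Real.log ((k * (v * d) : ℕ) : ℝ) - y) : ℝ) : ℂ) *
          At χ L b r t (k * (v * d))‖ ≤ 2 * ∑ d ∈ Icc 1 K, ‖At χ L b r t (k * (v * d))‖ := by
        refine (norm_sum_le _ _).trans ?_
        rw [Finset.mul_sum]
        refine le_trans (Finset.sum_le_sum_of_subset_of_nonneg (Finset.filter_subset _ _)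
          (fun _ _ _ => norm_nonneg _)) ?_
        refine Finset.sum_le_sum fun d _ => ?_
        obtain ⟨w1, w2⟩ := eps_w (k * (v * d)) y
        rw [norm_mul, Complex.norm_real, Real.norm_of_nonneg w1]
        exact mul_le_mul_of_nonneg_right w2 (norm_nonneg _)
      have h5 := eps_main χ hL0.le k b₁ v hv4 r₁ K y
      have hLv : L / v ≤ L / V₀ := by gcongr
      have hlogK : 1 + Real.log (1 + K) ≤ F * Z ^ δ := by
        apply Pool.Agent.LSPD.tqq_log hδ hZ1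
        have h6 : Real.log (1 + K) ≤ Real.log Z := by
          apply Real.log_le_log (by positivity)
          linarith
        have := Real.log_nonneg hZ1
        linarith
      have hYδ : ((b : ℝ) * ρ * (1 + L)) ^ δ ≤ Z ^ δ := hZmono _ (by positivity) hZ_Y
      have hLV0 : 0 ≤ L / V₀ := by positivity
      have hLv0 : 0 ≤ L / v := by positivity
      have hlogK0 : 0 ≤ 1 + Real.log (1 + K) := by
        have := Real.log_nonneg (by linarith [(Nat.cast_nonneg K : (0:ℝ) ≤ K)] : (1:ℝ) ≤ 1 + K)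
        linarith
      refine (norm_sub_le _ _).trans ?_
      calc _ ≤ 2 * (6 * C₁ * ((b : ℝ) * ρ * (1 + L)) ^ δ * (1 + L / v)) +
            2 * (L / v) * (1 + Real.log (1 + K)) := add_le_add (h4.trans (by linarith)) h5
        _ ≤ 2 * (6 * C₁ * Z ^ δ * (1 + L / V₀)) + 2 * (1 + L / V₀) * (F * Z ^ δ) := by
            refine add_le_add ?_ ?_
            · gcongr
            · refine mul_le_mul ?_ hlogK hlogK0 (by positivity)
              linarith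
        _ = B2 := by rw [hB2]; ring
        _ ≤ B1 + B2 := by linarith
  -- assembly
  have hS : Sd χ L b r t Dl y = ∑ k ∈ b.divisors.filter (fun k : ℕ => (k : ℤ) ∣ r),
      ∑ v ∈ Vs D (b / k) (Dl / k), ∑ d ∈ Ks D (b / k) (Dl / k / v),
        ((2 * hyp (Real.log ((k * (v * d) : ℕ) : ℝ) - y) : ℝ) : ℂ) * At χ L b r t (k * (v * d)) := by
    unfold Sd
    rw [dec_split hb hD Dl (fun d => ((2 * hyp (Real.log (d : ℝ) - y) : ℝ) : ℂ) * At χ L b r t d)]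
    rw [Finset.sum_filter]
    refine Finset.sum_congr rfl fun k hk => ?_
    split_ifs with hkr
    · rfl
    · refine Finset.sum_eq_zero fun v _ => Finset.sum_eq_zero fun d _ => ?_
      rw [eps_zero χ L (Nat.dvd_of_mem_divisors hk) hkr, mul_zero]
  have hM : (L : ℂ) * Md χ b r Dl y = ∑ k ∈ b.divisors.filter (fun k : ℕ => (k : ℤ) ∣ r),
      ∑ v ∈ Vs D (b / k) (Dl / k), (L : ℂ) * (if D ∣ v then ∑ d ∈ Ks D (b / k) (Dl / k / v),
        χ ((r / k : ℤ) : ZMod D) * (starRingEnd ℂ) (χ ((b / k : ℕ) : ZMod D)) *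
        ((2 * hyp (Real.log ((k * (v * d) : ℕ) : ℝ) - y) / ((v * d : ℕ) : ℝ) : ℝ) : ℂ) else 0) := by
    unfold Md
    rw [Finset.mul_sum]
    refine Finset.sum_congr rfl fun k _ => ?_
    rw [← Finset.mul_sum, Finset.sum_filter]
  rw [hS, hM, ← Finset.sum_sub_distrib]
  have hk_bd : ∀ k ∈ b.divisors.filter (fun k : ℕ => (k : ℤ) ∣ r),
      ‖∑ v ∈ Vs D (b / k) (Dl / k), ∑ d ∈ Ks D (b / k) (Dl / k / v),
        ((2 * hyp (Real.log ((k * (v * d) : ℕ) : ℝ) - y) : ℝ) : ℂ) * At χ L b r t (k * (v * d)) -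
      ∑ v ∈ Vs D (b / k) (Dl / k), (L : ℂ) * (if D ∣ v then ∑ d ∈ Ks D (b / k) (Dl / k / v),
        χ ((r / k : ℤ) : ZMod D) * (starRingEnd ℂ) (χ ((b / k : ℕ) : ZMod D)) *
        ((2 * hyp (Real.log ((k * (v * d) : ℕ) : ℝ) - y) / ((v * d : ℕ) : ℝ) : ℝ) : ℂ) else 0)‖ ≤
      C₂ * Z ^ δ * (B1 + B2) := by
    intro k hk
    rw [← Finset.sum_sub_distrib]
    refine (norm_sum_le_of_le _ (hone k hk)).trans ?_
    rw [Finset.sum_const, nsmul_eq_mul]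
    refine mul_le_mul_of_nonneg_right ?_ (by linarith)
    have h1 : (Vs D (b / k) (Dl / k)).card ≤ (Ts D Dl).card := by
      apply Finset.card_le_card
      intro v hv
      obtain ⟨hv1, hv2⟩ := Finset.mem_filter.1 hv
      obtain ⟨hv3, hv4⟩ := Finset.mem_Icc.1 hv1
      exact Finset.mem_filter.2 ⟨Finset.mem_Icc.2 ⟨hv3, hv4.trans (Nat.div_le_self _ _)⟩, hv2.1⟩
    calc ((Vs D (b / k) (Dl / k)).card : ℝ) ≤ ((Ts D Dl).card : ℝ) := by exact_mod_cast h1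
      _ ≤ C₂ * ((D : ℝ) * Dl) ^ δ := hts D Dl hD hDl
      _ ≤ C₂ * Z ^ δ := by
          refine mul_le_mul_of_nonneg_left (hZmono _ (by positivity) hZ_DDl) (by linarith)
  refine (norm_sum_le_of_le _ hk_bd).trans ?_
  rw [Finset.sum_const, nsmul_eq_mul]
  have hcard : ((b.divisors.filter (fun k : ℕ => (k : ℤ) ∣ r)).card : ℝ) ≤ C₁ * Z ^ δ := by
    have h1 : (b.divisors.filter (fun k : ℕ => (k : ℤ) ∣ r)).card ≤ b.divisors.card :=
      Finset.card_filter_le _ _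
    calc ((b.divisors.filter (fun k : ℕ => (k : ℤ) ∣ r)).card : ℝ) ≤ (b.divisors.card : ℝ) := by
          exact_mod_cast h1
      _ ≤ C₁ * (b : ℝ) ^ δ := hdiv b hb
      _ ≤ C₁ * Z ^ δ := by
          refine mul_le_mul_of_nonneg_left (hZmono _ (by positivity) hZ_b) (by linarith)
  have hZpow : Z ^ δ * Z ^ δ * Z ^ δ ≤ Z ^ ε := by
    have hZ0 : 0 < Z := by linarith
    rw [← Real.rpow_add hZ0, ← Real.rpow_add hZ0]
    apply Real.rpow_le_rpow_of_exponent_le hZ1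
    rw [hδd]; linarith
  have hC₁0 : 0 ≤ C₁ := by linarith
  have hC₂0 : 0 ≤ C₂ := by linarith
  have hLV : 0 ≤ L / V₀ := by positivity
  have hX0 : 0 ≤ (1 + ρ / (b * L)) * ((V₀ : ℝ) * D) * Q := by positivity
  calc ((b.divisors.filter (fun k : ℕ => (k : ℤ) ∣ r)).card : ℝ) * (C₂ * Z ^ δ * (B1 + B2)) ≤
      (C₁ * Z ^ δ) * (C₂ * Z ^ δ * (B1 + B2)) := by
        refine mul_le_mul_of_nonneg_right hcard (by positivity)
    _ = C₁ * C₂ * (Z ^ δ * Z ^ δ * Z ^ δ) * (2 * C₃ * ((1 + ρ / (b * L)) * ((V₀ : ℝ) * D) * Q) +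
          (12 * C₁ + 2 * F) * (1 + L / V₀)) := by
        rw [hB1, hB2]; ring
    _ ≤ C₁ * C₂ * Z ^ ε * ((2 * C₃ + 12 * C₁ + 2 * F) * ((1 + ρ / (b * L)) * ((V₀ : ℝ) * D) * Q) +
          (2 * C₃ + 12 * C₁ + 2 * F) * (1 + L / V₀)) := by
        gcongr
        · linarith
        · linarith
    _ = (C₁ * C₂ * (2 * C₃ + 12 * C₁ + 2 * F)) * Z ^ ε * ((1 + ρ / (b * L)) * ((V₀ : ℝ) * D) * Q +
          (1 + L / V₀)) := by ring
    _ ≤ _ := by
        gcongr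
        exact le_max_right _ _

end

end Pool.Agent.EXB
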