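import Pool.Agent.Lib_helper19.EXB.EPT

/-!
# EXC, part B: freezing the smooth weights
-/

set_option autoImplicit false

namespace Pool.Agent.EXB

open Pool.Agent.LSPD (tau gs big_summable big_class big_gs_summable big_gauss)
open Pool.Agent.LSPO (hyp hyp_nonneg hyp_le_one)
open Finset

noncomputable section

/-- the divisor sum at `a` with the hyperbola at `y` -/
def Tt (b Dl : ℕ) (r a : ℤ) (y : ℝ) : ℝ :=
  ∑ d ∈ Icc 1 Dl, if (d : ℤ) ∣ b * a - r then 2 * hyp (Real.log d - y) else 0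

theorem frz_nonneg (b Dl : ℕ) (r a : ℤ) (y : ℝ) : 0 ≤ Tt b Dl r a y := by
  unfold Tt
  refine Finset.sum_nonneg fun d _ => ?_
  split_ifs
  · have := hyp_nonneg (Real.log d - y)
    linarith
  · exact le_rfl

theorem frz_le {b : ℕ} (Dl : ℕ) {r a : ℤ} (h : (b : ℤ) * a - r ≠ 0) (y : ℝ) :
    Tt b Dl r a y ≤ 2 * tau ((b : ℤ) * a - r).natAbs := by
  unfold Tt tau
  rw [← Finset.sum_filter]
  calc ∑ d ∈ (Icc 1 Dl).filter (fun d : ℕ => (d : ℤ) ∣ b * a - r), 2 * hyp (Real.log d - y) ≤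
      ∑ d ∈ (Icc 1 Dl).filter (fun d : ℕ => (d : ℤ) ∣ b * a - r), (2 : ℝ) := by
        refine Finset.sum_le_sum fun d _ => ?_
        have := hyp_le_one (Real.log d - y)
        linarith
    _ = (((Icc 1 Dl).filter (fun d : ℕ => (d : ℤ) ∣ b * a - r)).card : ℝ) * 2 := by
        rw [Finset.sum_const, nsmul_eq_mul]
    _ ≤ (((b : ℤ) * a - r).natAbs.divisors.card : ℝ) * 2 := by
        refine mul_le_mul_of_nonneg_right ?_ (by norm_num)
        have : ((Icc 1 Dl).filter (fun d : ℕ => (d : ℤ) ∣ b * a - r)).card ≤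
            ((b : ℤ) * a - r).natAbs.divisors.card := by
          apply Finset.card_le_card
          intro d hd
          rw [Nat.mem_divisors]
          exact ⟨Int.natCast_dvd.1 (Finset.mem_filter.1 hd).2, Int.natAbs_ne_zero.2 h⟩
        exact_mod_cast this
    _ = _ := by ring

theorem frz_tau {b : ℕ} {Dl : ℕ} {r a t : ℤ} (ha : (b : ℤ) * a - r ≠ 0)
    (ht : (b : ℤ) * t - r ≠ 0) {X : ℝ} (hX : |(((b : ℤ) * t - r : ℤ) : ℝ)| ≤ X)
    (hDl : Real.exp (1 / 2) * Real.sqrt (3 / 2 * X) ≤ Dl) :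
    |tau ((b : ℤ) * a - r).natAbs - Tt b Dl r a (Real.log |(((b : ℤ) * t - r : ℤ) : ℝ)| / 2)| ≤
      2 * tau ((b : ℤ) * a - r).natAbs *
        ((b : ℝ) * |((a - t : ℤ) : ℝ)| / |(((b : ℤ) * t - r : ℤ) : ℝ)|) := by
  set y : ℝ := Real.log |(((b : ℤ) * t - r : ℤ) : ℝ)| / 2 with hy
  set nt : ℝ := |(((b : ℤ) * t - r : ℤ) : ℝ)| with hnt
  set na : ℕ := ((b : ℤ) * a - r).natAbs with hna
  have hτ : 0 ≤ tau na := by unfold tau; positivity
  have hnt1 : 1 ≤ nt := by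
    rw [hnt]
    have : (1 : ℤ) ≤ |(b : ℤ) * t - r| := Int.one_le_abs ht
    exact_mod_cast this
  have hna1 : 1 ≤ na := Int.natAbs_pos.2 ha
  have h0 := frz_nonneg b Dl r a y
  have h1 := frz_le (b := b) Dl ha y
  rw [← hna] at h1
  set η : ℝ := (b : ℝ) * |((a - t : ℤ) : ℝ)| / nt with hη
  have hη0 : 0 ≤ η := by positivity
  rcases lt_or_ge (1 / 2 : ℝ) η with h | h
  · have h2 : |tau na - Tt b Dl r a y| ≤ tau na := by
      rw [abs_le]; constructor <;> linarith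
    nlinarith
  · -- close centre
    have hnaR : (na : ℝ) = |(((b : ℤ) * a - r : ℤ) : ℝ)| := by
      rw [hna, Nat.cast_natAbs, Int.cast_abs]
    have hna0 : (0 : ℝ) < na := by exact_mod_cast hna1
    have hdiff : |(na : ℝ) - nt| ≤ η * nt := by
      rw [hnaR, hnt]
      refine (abs_abs_sub_abs_le_abs_sub _ _).trans (le_of_eq ?_)
      rw [hη, div_mul_cancel₀ _ (by linarith : nt ≠ 0)]
      have e1 : ((((b : ℤ) * a - r : ℤ) : ℝ) - (((b : ℤ) * t - r : ℤ) : ℝ)) =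
          (b : ℝ) * ((a - t : ℤ) : ℝ) := by push_cast; ring
      rw [e1, abs_mul, abs_of_nonneg (by positivity : (0 : ℝ) ≤ (b : ℝ))]
    obtain ⟨hd1, hd2⟩ := abs_le.1 hdiff
    have hq1 : (na : ℝ) / nt ≤ 1 + η := by
      rw [div_le_iff₀ (by linarith)]; nlinarith
    have hq2 : 1 - η ≤ (na : ℝ) / nt := by
      rw [le_div_iff₀ (by linarith)]; nlinarith
    have hlog : |Real.log na - Real.log nt| ≤ 2 * η := by
      rw [← Real.log_div hna0.ne' (by linarith)]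
      have hq0 : 0 < (na : ℝ) / nt := by positivity
      rw [abs_le]
      constructor
      · have h3 := Real.one_sub_inv_le_log_of_pos hq0
        have h4 : ((na : ℝ) / nt)⁻¹ ≤ 1 + 2 * η := by
          rw [inv_le_comm₀ hq0 (by positivity)]
          refine le_trans ?_ hq2
          rw [inv_le_iff_one_le_mul₀ (by positivity)]
          nlinarith
        linarith
      · have h3 := Real.log_le_sub_one_of_pos hq0
        linarith
    have hnaX : (na : ℝ) ≤ 3 / 2 * X := by nlinarith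
    -- the divisors beyond `Dl` do not contribute
    have e2 : tau na = ∑ d ∈ (Icc 1 Dl).filter (fun d : ℕ => (d : ℤ) ∣ b * a - r),
        2 * hyp (Real.log d - Real.log na / 2) := by
      have h5 := Pool.Agent.LSPO.tau_hyp hna1
      have h6 : tau na = Pool.Agent.LSPO.tau na := rfl
      rw [h6, h5, Finset.mul_sum]
      symm
      apply Finset.sum_subset
      · intro d hd
        rw [Nat.mem_divisors]
        exact ⟨Int.natCast_dvd.1 (Finset.mem_filter.1 hd).2, by omega⟩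
      · intro d hd hd'
        have hd1 : 0 < d := Nat.pos_of_mem_divisors hd
        have hdd : d ∣ na := (Nat.mem_divisors.1 hd).1
        have hDd : Dl < d := by
          by_contra hcon
          apply hd'
          rw [Finset.mem_filter, Finset.mem_Icc]
          exact ⟨⟨hd1, by omega⟩, Int.natCast_dvd.2 hdd⟩
        rw [Pool.Agent.LSPO.hyp_eq_zero, mul_zero]
        have h7 : Real.exp (1 / 2) * Real.sqrt na ≤ d := by
          calc Real.exp (1 / 2) * Real.sqrt na ≤ Real.exp (1 / 2) * Real.sqrt (3 / 2 * X) :=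
                mul_le_mul_of_nonneg_left (Real.sqrt_le_sqrt hnaX) (Real.exp_pos _).le
            _ ≤ Dl := hDl
            _ ≤ d := by exact_mod_cast hDd.le
        have hs0 : 0 < Real.sqrt na := Real.sqrt_pos.2 hna0
        have h8 := Real.log_le_log (by positivity) h7
        rw [Real.log_mul (Real.exp_pos _).ne' hs0.ne', Real.log_exp, Real.log_sqrt hna0.le] at h8
        linarith
    have e3 : Tt b Dl r a y = ∑ d ∈ (Icc 1 Dl).filter (fun d : ℕ => (d : ℤ) ∣ b * a - r),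
        2 * hyp (Real.log d - y) := by
      unfold Tt
      rw [Finset.sum_filter]
    rw [e3]
    nth_rewrite 1 [e2]
    rw [← Finset.sum_sub_distrib]
    have h9 : ∀ d ∈ (Icc 1 Dl).filter (fun d : ℕ => (d : ℤ) ∣ b * a - r),
        |2 * hyp (Real.log d - Real.log na / 2) - 2 * hyp (Real.log d - y)| ≤ 2 * η := by
      intro d _
      have h10 := Pool.Agent.LSPO.hyp_lip (Real.log d - Real.log na / 2) (Real.log d - y)
      rw [← mul_sub, abs_mul, abs_of_pos (by norm_num : (0 : ℝ) < 2)]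
      have e4 : Real.log d - Real.log na / 2 - (Real.log d - y) = -((Real.log na - Real.log nt) / 2) := by
        rw [hy]; ring
      rw [e4, abs_neg, abs_div, abs_of_pos (by norm_num : (0 : ℝ) < 2)] at h10
      linarith
    refine (Finset.abs_sum_le_sum_abs _ _).trans ((Finset.sum_le_sum h9).trans ?_)
    rw [Finset.sum_const, nsmul_eq_mul]
    have h11 : (((Icc 1 Dl).filter (fun d : ℕ => (d : ℤ) ∣ b * a - r)).card : ℝ) ≤ tau na := by
      unfold tau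
      have : ((Icc 1 Dl).filter (fun d : ℕ => (d : ℤ) ∣ b * a - r)).card ≤ na.divisors.card := by
        apply Finset.card_le_card
        intro d hd
        rw [Nat.mem_divisors]
        exact ⟨Int.natCast_dvd.1 (Finset.mem_filter.1 hd).2, by omega⟩
      exact_mod_cast this
    calc (((Icc 1 Dl).filter (fun d : ℕ => (d : ℤ) ∣ b * a - r)).card : ℝ) * (2 * η) ≤
        tau na * (2 * η) := mul_le_mul_of_nonneg_right h11 (by positivity)
      _ = _ := by ring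

/-- the sum over the divisors, as a sum over the shifts -/
theorem frz_sd {D : ℕ} (χ : DirichletCharacter ℂ D) {L : ℝ} (hL : 0 < L) (b Dl : ℕ) (r t : ℤ) (y : ℝ) :
    HasSum (fun m : ℤ => ((gs L m : ℝ) : ℂ) * (χ ((t + m : ℤ) : ZMod D) *
      ((Tt b Dl r (t + m) y : ℝ) : ℂ))) (Sd χ L b r t Dl y) := by
  unfold Sd
  have h1 : ∀ d ∈ Icc 1 Dl, HasSum (fun m : ℤ =>
      ((2 * hyp (Real.log d - y) : ℝ) : ℂ) * (if (d : ℤ) ∣ b * (t + m) - r then
        ((gs L m : ℝ) : ℂ) * χ ((t + m : ℤ) : ZMod D) else 0))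
      (((2 * hyp (Real.log d - y) : ℝ) : ℂ) * At χ L b r t d) := by
    intro d _
    apply HasSum.mul_left
    have h2 := (dec_summable χ hL t (fun a => (d : ℤ) ∣ b * a - r)).hasSum
    have h3 := (Equiv.addLeft t).hasSum_iff.2 h2
    have h4 : ((fun a : ℤ => if (d : ℤ) ∣ b * a - r then ((gs L (a - t) : ℝ) : ℂ) * χ (a : ZMod D)
        else 0) ∘ (Equiv.addLeft t)) = fun m : ℤ => (if (d : ℤ) ∣ b * (t + m) - r then
        ((gs L m : ℝ) : ℂ) * χ ((t + m : ℤ) : ZMod D) else 0) := by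
      funext m
      simp only [Function.comp, Equiv.coe_addLeft, add_sub_cancel_left]
    rw [h4] at h3
    exact h3
  have h5 := hasSum_sum h1
  have h6 : (fun m : ℤ => ((gs L m : ℝ) : ℂ) * (χ ((t + m : ℤ) : ZMod D) *
      ((Tt b Dl r (t + m) y : ℝ) : ℂ))) = fun m : ℤ => ∑ d ∈ Icc 1 Dl,
      ((2 * hyp (Real.log d - y) : ℝ) : ℂ) * (if (d : ℤ) ∣ b * (t + m) - r then
        ((gs L m : ℝ) : ℂ) * χ ((t + m : ℤ) : ZMod D) else 0) := by
    funext m
    unfold Tt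
    rw [Complex.ofReal_sum, Finset.mul_sum, Finset.mul_sum]
    refine Finset.sum_congr rfl fun d _ => ?_
    split_ifs
    · ring
    · simp
  rw [h6]
  exact h5

/-- the difference for one shift -/
theorem frz_one {δ C₁ : ℝ} (hδ : 0 < δ) (hδ1 : δ ≤ 1) (hC : 0 < C₁)
    (hd : ∀ n : ℕ, 0 < n → (n.divisors.card : ℝ) ≤ C₁ * (n : ℝ) ^ δ) {D : ℕ}
    (χ : DirichletCharacter ℂ D) {L : ℝ} (hL : 1 ≤ L) {b Dl T : ℕ} (hb : 1 ≤ b) {r : ℤ}
    (hbr : ¬ (b : ℤ) ∣ r) {X : ℝ} (hX : ∀ t ∈ Icc (1 : ℤ) T, |(((b : ℤ) * t - r : ℤ) : ℝ)| ≤ X)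
    (hDl : Real.exp (1 / 2) * Real.sqrt (3 / 2 * X) ≤ Dl) {f : ℤ → ℝ} {A Λ : ℝ}
    (hA0 : 0 ≤ A) (hΛ0 : 0 ≤ Λ)
    (hf0 : ∀ t, f t ≠ 0 → t ∈ Icc (1 : ℤ) T) (hA : ∀ t, |f t| ≤ A)
    (hΛ : ∀ s t : ℤ, |f s - f t| ≤ Λ * |((s - t : ℤ) : ℝ)|) {m₀ : ℝ} (hm₀ : 0 < m₀) {Y : ℝ}
    (hY1 : X ≤ Y) (hY2 : b * L ≤ Y) (m : ℤ) :
    ‖∑ a ∈ Icc (1 : ℤ) T, χ (a : ZMod D) * ((f a * tau ((b : ℤ) * a - r).natAbs : ℝ) : ℂ) -
      ∑ t ∈ Icc (1 : ℤ) T, ((f t : ℝ) : ℂ) * (χ ((t + m : ℤ) : ZMod D) *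
        ((Tt b Dl r (t + m) (Real.log |(((b : ℤ) * t - r : ℤ) : ℝ)| / 2) : ℝ) : ℂ))‖ ≤
      C₁ * Y ^ δ * (1 + |(m : ℝ) / L|) * (2 * T * (Λ * |(m : ℝ)|) +
        A * (T * (2 * (b * |(m : ℝ)| / m₀)) +
          ((Icc (1 : ℤ) T).filter (fun t => |(((b : ℤ) * t - r : ℤ) : ℝ)| < m₀)).card)) := by
  classical
  have hL0 : 0 < L := by linarith
  have hbR : (1 : ℝ) ≤ b := by exact_mod_cast hb
  have hY0 : 0 < Y := by
    have : 0 < (b : ℝ) * L := by positivity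
    linarith
  have hne : ∀ a : ℤ, (b : ℤ) * a - r ≠ 0 := by
    intro a h
    exact hbr ⟨a, by linarith⟩
  set W : ℝ := C₁ * Y ^ δ * (1 + |(m : ℝ) / L|) with hW
  have hW0 : 0 ≤ W := by positivity
  set U : Finset ℤ := Icc (1 : ℤ) T ∪ Icc (1 - m) (T - m) with hU
  set g : ℤ → ℂ := fun a => χ (a : ZMod D) * ((f a * tau ((b : ℤ) * a - r).natAbs : ℝ) : ℂ) with hg
  have hg0 : ∀ a : ℤ, a ∉ Icc (1 : ℤ) T → g a = 0 := by
    intro a ha
    have : f a = 0 := by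
      by_contra hcon
      exact ha (hf0 a hcon)
    simp [hg, this]
  have e1 : ∑ a ∈ Icc (1 : ℤ) T, g a = ∑ t ∈ U, g (t + m) := by
    have h1 : ∑ a ∈ Icc (1 : ℤ) T, g a = ∑ t ∈ Icc (1 - m) (T - m), g (t + m) := by
      symm
      refine Finset.sum_bij (fun t _ => t + m) ?_ ?_ ?_ ?_
      · intro t ht
        rw [Finset.mem_Icc] at ht ⊢
        omega
      · intro a _ c _ h
        exact add_right_cancel h
      · intro a ha
        rw [Finset.mem_Icc] at ha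
        exact ⟨a - m, Finset.mem_Icc.2 ⟨by omega, by omega⟩, by ring⟩
      · intro t _
        rfl
    rw [h1]
    apply Finset.sum_subset Finset.subset_union_right
    intro t _ ht
    apply hg0
    intro h
    apply ht
    rw [Finset.mem_Icc] at h ⊢
    omega
  set G : ℤ → ℂ := fun t => ((f t : ℝ) : ℂ) * (χ ((t + m : ℤ) : ZMod D) *
        ((Tt b Dl r (t + m) (Real.log |(((b : ℤ) * t - r : ℤ) : ℝ)| / 2) : ℝ) : ℂ)) with hG
  have e2 : ∑ t ∈ Icc (1 : ℤ) T, G t = ∑ t ∈ U, G t := by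
    apply Finset.sum_subset Finset.subset_union_left
    intro t _ ht
    have : f t = 0 := by
      by_contra hcon
      exact ht (hf0 t hcon)
    simp [hG, this]
  rw [e1, e2, ← Finset.sum_sub_distrib]
  -- the size of the divisor function
  have hτ : ∀ t ∈ U, tau ((b : ℤ) * (t + m) - r).natAbs ≤ W := by
    intro t ht
    have h1 := hd ((b : ℤ) * (t + m) - r).natAbs (Int.natAbs_pos.2 (hne _))
    have h2 : ((((b : ℤ) * (t + m) - r).natAbs : ℕ) : ℝ) = |(((b : ℤ) * (t + m) - r : ℤ) : ℝ)| := by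
      rw [Nat.cast_natAbs, Int.cast_abs]
    have h3 : |(((b : ℤ) * (t + m) - r : ℤ) : ℝ)| ≤ Y * (1 + |(m : ℝ) / L|) := by
      have h4 : |(m : ℝ) / L| = |(m : ℝ)| / L := by rw [abs_div, abs_of_pos hL0]
      have h5 : (b : ℝ) * |(m : ℝ)| ≤ Y * |(m : ℝ) / L| := by
        rw [h4, mul_div_assoc', le_div_iff₀ hL0]
        nlinarith [abs_nonneg (m : ℝ)]
      rcases Finset.mem_union.1 ht with h | h
      · have h6 := hX t h
        have e3 : (((b : ℤ) * (t + m) - r : ℤ) : ℝ) = (((b : ℤ) * t - r : ℤ) : ℝ) + b * m := by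
          push_cast; ring
        rw [e3]
        refine (abs_add_le _ _).trans ?_
        rw [abs_mul, abs_of_nonneg (by positivity : (0 : ℝ) ≤ (b : ℝ))]
        linarith
      · have h7 : t + m ∈ Icc (1 : ℤ) T := by
          rw [Finset.mem_Icc] at h ⊢; omega
        have h6 := hX _ h7
        have h8 : 0 ≤ Y * |(m : ℝ) / L| := by positivity
        linarith
    unfold tau
    refine h1.trans ?_
    rw [h2, hW, mul_assoc]
    refine mul_le_mul_of_nonneg_left ?_ hC.le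
    calc |(((b : ℤ) * (t + m) - r : ℤ) : ℝ)| ^ δ ≤ (Y * (1 + |(m : ℝ) / L|)) ^ δ :=
          Real.rpow_le_rpow (abs_nonneg _) h3 hδ.le
      _ = Y ^ δ * (1 + |(m : ℝ) / L|) ^ δ := Real.mul_rpow hY0.le (by positivity)
      _ ≤ Y ^ δ * (1 + |(m : ℝ) / L|) := by
          refine mul_le_mul_of_nonneg_left ?_ (by positivity)
          have h9 : (1 : ℝ) ≤ 1 + |(m : ℝ) / L| := by linarith [abs_nonneg ((m : ℝ) / L)]
          calc (1 + |(m : ℝ) / L|) ^ δ ≤ (1 + |(m : ℝ) / L|) ^ (1 : ℝ) :=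
                Real.rpow_le_rpow_of_exponent_le h9 hδ1
            _ = _ := Real.rpow_one _
  set V : ℤ → ℝ := fun t => if t ∈ Icc (1 : ℤ) T then
      (2 * (b * |(m : ℝ)| / m₀) + if |(((b : ℤ) * t - r : ℤ) : ℝ)| < m₀ then 1 else 0) else 0 with hV
  have hterm : ∀ t ∈ U, ‖g (t + m) - G t‖ ≤ W * (Λ * |(m : ℝ)|) + A * (W * V t) := by
    intro t ht
    have hτt := hτ t ht
    have hτ0 : 0 ≤ tau ((b : ℤ) * (t + m) - r).natAbs := by unfold tau; positivity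
    set τa : ℝ := tau ((b : ℤ) * (t + m) - r).natAbs with hτa
    set Ta : ℝ := Tt b Dl r (t + m) (Real.log |(((b : ℤ) * t - r : ℤ) : ℝ)| / 2) with hTa
    have e3 : g (t + m) - G t = χ ((t + m : ℤ) : ZMod D) * ((f (t + m) * τa - f t * Ta : ℝ) : ℂ) := by
      have e31 : g (t + m) = χ ((t + m : ℤ) : ZMod D) * ((f (t + m) * τa : ℝ) : ℂ) := rfl
      have e32 : G t = ((f t : ℝ) : ℂ) * (χ ((t + m : ℤ) : ZMod D) * ((Ta : ℝ) : ℂ)) := rfl
      rw [e31, e32, Complex.ofReal_sub, Complex.ofReal_mul (f t)]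
      ring
    rw [e3, norm_mul, Complex.norm_real, Real.norm_eq_abs]
    refine (mul_le_of_le_one_left (abs_nonneg _) (DirichletCharacter.norm_le_one χ _)).trans ?_
    have e4 : f (t + m) * τa - f t * Ta = (f (t + m) - f t) * τa + f t * (τa - Ta) := by ring
    rw [e4]
    refine (abs_add_le _ _).trans ?_
    rw [abs_mul, abs_mul, abs_of_nonneg hτ0]
    have h1 : |f (t + m) - f t| * τa ≤ W * (Λ * |(m : ℝ)|) := by
      have h2 := hΛ (t + m) t
      have e5 : t + m - t = m := by ring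
      rw [e5] at h2
      calc |f (t + m) - f t| * τa ≤ (Λ * |(m : ℝ)|) * W :=
            mul_le_mul h2 hτt hτ0 (by positivity)
        _ = _ := by ring
    have h3 : |f t| * |τa - Ta| ≤ A * (W * V t) := by
      by_cases htT : t ∈ Icc (1 : ℤ) T
      · refine mul_le_mul (hA t) ?_ (abs_nonneg _) hA0
        simp only [hV, if_pos htT]
        have h4 := frz_tau (b := b) (Dl := Dl) (a := t + m) (hne _) (hne t) (hX t htT) hDl
        rw [← hτa, ← hTa] at h4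
        have e5 : t + m - t = m := by ring
        rw [e5] at h4
        have h0 : 0 ≤ Ta := frz_nonneg _ _ _ _ _
        have h5 : Ta ≤ 2 * τa := frz_le Dl (hne _) _
        have h6 : 0 ≤ (b : ℝ) * |(m : ℝ)| / m₀ := by positivity
        split_ifs with hs
        · have h7 : |τa - Ta| ≤ τa := by
            rw [abs_le]; constructor <;> linarith
          nlinarith
        · push Not at hs
          have h8 : (b : ℝ) * |(m : ℝ)| / |(((b : ℤ) * t - r : ℤ) : ℝ)| ≤ (b : ℝ) * |(m : ℝ)| / m₀ := by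
            apply div_le_div_of_nonneg_left (by positivity) hm₀ hs
          calc |τa - Ta| ≤ 2 * τa * ((b : ℝ) * |(m : ℝ)| / |(((b : ℤ) * t - r : ℤ) : ℝ)|) := h4
            _ ≤ 2 * W * ((b : ℝ) * |(m : ℝ)| / m₀) := by gcongr
            _ = _ := by ring
      · have : f t = 0 := by
          by_contra hcon
          exact htT (hf0 t hcon)
        rw [this, abs_zero, zero_mul]
        simp only [hV, if_neg htT, mul_zero, le_refl]
    linarith
  refine (norm_sum_le_of_le _ hterm).trans ?_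
  rw [Finset.sum_add_distrib, Finset.sum_const, nsmul_eq_mul, ← Finset.mul_sum, ← Finset.mul_sum]
  have hcard : (U.card : ℝ) ≤ 2 * T := by
    have h1 : U.card ≤ (Icc (1 : ℤ) T).card + (Icc (1 - m) ((T : ℤ) - m)).card :=
      Finset.card_union_le _ _
    rw [Int.card_Icc, Int.card_Icc] at h1
    have h2 : U.card ≤ 2 * T := by omega
    exact_mod_cast h2
  have hVs : ∑ t ∈ U, V t = T * (2 * (b * |(m : ℝ)| / m₀)) +
      ((Icc (1 : ℤ) T).filter (fun t => |(((b : ℤ) * t - r : ℤ) : ℝ)| < m₀)).card := by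
    have h1 : ∑ t ∈ U, V t = ∑ t ∈ Icc (1 : ℤ) T, V t := by
      symm
      apply Finset.sum_subset Finset.subset_union_left
      intro t _ ht
      simp only [hV, if_neg ht]
    rw [h1]
    have h2 : ∀ t ∈ Icc (1 : ℤ) T, V t = 2 * (b * |(m : ℝ)| / m₀) +
        if |(((b : ℤ) * t - r : ℤ) : ℝ)| < m₀ then 1 else 0 := by
      intro t ht
      simp only [hV, if_pos ht]
    rw [Finset.sum_congr rfl h2, Finset.sum_add_distrib, Finset.sum_const, nsmul_eq_mul]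
    have h3 : (Icc (1 : ℤ) T).card = T := by rw [Int.card_Icc]; omega
    rw [h3, ← Finset.sum_filter, Finset.sum_const, nsmul_eq_mul, mul_one]
  rw [hVs]
  have h4 : (U.card : ℝ) * (W * (Λ * |(m : ℝ)|)) ≤ 2 * T * (W * (Λ * |(m : ℝ)|)) :=
    mul_le_mul_of_nonneg_right hcard (by positivity)
  calc (U.card : ℝ) * (W * (Λ * |(m : ℝ)|)) + A * (W * (T * (2 * (b * |(m : ℝ)| / m₀)) +
      ((Icc (1 : ℤ) T).filter (fun t => |(((b : ℤ) * t - r : ℤ) : ℝ)| < m₀)).card)) ≤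
      2 * T * (W * (Λ * |(m : ℝ)|)) + A * (W * (T * (2 * (b * |(m : ℝ)| / m₀)) +
      ((Icc (1 : ℤ) T).filter (fun t => |(((b : ℤ) * t - r : ℤ) : ℝ)| < m₀)).card)) := by linarith
    _ = _ := by ring

/-- freezing -/
theorem frz {δ C₁ : ℝ} (hδ : 0 < δ) (hδ1 : δ ≤ 1) (hC : 0 < C₁)
    (hd : ∀ n : ℕ, 0 < n → (n.divisors.card : ℝ) ≤ C₁ * (n : ℝ) ^ δ) {D : ℕ}
    (χ : DirichletCharacter ℂ D) {L : ℝ} (hL : 1 ≤ L) {b Dl T : ℕ} (hb : 1 ≤ b) {r : ℤ}
    (hbr : ¬ (b : ℤ) ∣ r) {X : ℝ} (hX : ∀ t ∈ Icc (1 : ℤ) T, |(((b : ℤ) * t - r : ℤ) : ℝ)| ≤ X)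
    (hDl : Real.exp (1 / 2) * Real.sqrt (3 / 2 * X) ≤ Dl) {f : ℤ → ℝ} {A Λ : ℝ}
    (hA0 : 0 ≤ A) (hΛ0 : 0 ≤ Λ)
    (hf0 : ∀ t, f t ≠ 0 → t ∈ Icc (1 : ℤ) T) (hA : ∀ t, |f t| ≤ A)
    (hΛ : ∀ s t : ℤ, |f s - f t| ≤ Λ * |((s - t : ℤ) : ℝ)|) {m₀ : ℝ} (hm₀ : 0 < m₀) {Y : ℝ}
    (hY1 : X ≤ Y) (hY2 : b * L ≤ Y) :
    ‖((∑' m : ℤ, gs L m : ℝ) : ℂ) *
        ∑ a ∈ Icc (1 : ℤ) T, χ (a : ZMod D) * ((f a * tau ((b : ℤ) * a - r).natAbs : ℝ) : ℂ) -
      ∑ t ∈ Icc (1 : ℤ) T, ((f t : ℝ) : ℂ) *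
        Sd χ L b r t Dl (Real.log |(((b : ℤ) * t - r : ℤ) : ℝ)| / 2)‖ ≤
      12 * C₁ * Y ^ δ * L * (L * (2 * T * Λ + 2 * A * T * b / m₀) +
        A * ((Icc (1 : ℤ) T).filter (fun t => |(((b : ℤ) * t - r : ℤ) : ℝ)| < m₀)).card) := by
  have hL0 : 0 < L := by linarith
  have hY0 : 0 < Y := by
    have hbR : (1 : ℝ) ≤ b := by exact_mod_cast hb
    have : 0 < (b : ℝ) * L := by positivity
    linarith
  set S0 : ℂ := ∑ a ∈ Icc (1 : ℤ) T, χ (a : ZMod D) * ((f a * tau ((b : ℤ) * a - r).natAbs : ℝ) : ℂ)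
    with hS0
  set G2 : ℤ → ℂ := fun m => ∑ t ∈ Icc (1 : ℤ) T, ((f t : ℝ) : ℂ) * (χ ((t + m : ℤ) : ZMod D) *
        ((Tt b Dl r (t + m) (Real.log |(((b : ℤ) * t - r : ℤ) : ℝ)| / 2) : ℝ) : ℂ)) with hG2
  have h1 : HasSum (fun m : ℤ => ((gs L m : ℝ) : ℂ) * S0) (((∑' m : ℤ, gs L m : ℝ) : ℂ) * S0) :=
    (Complex.hasSum_ofReal.2 (big_gs_summable hL0).hasSum).mul_right S0
  have h2 : HasSum (fun m : ℤ => ((gs L m : ℝ) : ℂ) * G2 m) (∑ t ∈ Icc (1 : ℤ) T, ((f t : ℝ) : ℂ) *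
        Sd χ L b r t Dl (Real.log |(((b : ℤ) * t - r : ℤ) : ℝ)| / 2)) := by
    have h3 := hasSum_sum (s := Icc (1 : ℤ) T) (fun t _ =>
      (frz_sd χ hL0 b Dl r t (Real.log |(((b : ℤ) * t - r : ℤ) : ℝ)| / 2)).mul_left ((f t : ℝ) : ℂ))
    have h4 : (fun m : ℤ => ((gs L m : ℝ) : ℂ) * G2 m) = fun m : ℤ => ∑ t ∈ Icc (1 : ℤ) T,
        ((f t : ℝ) : ℂ) * (((gs L m : ℝ) : ℂ) * (χ ((t + m : ℤ) : ZMod D) *
        ((Tt b Dl r (t + m) (Real.log |(((b : ℤ) * t - r : ℤ) : ℝ)| / 2) : ℝ) : ℂ))) := by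
      funext m
      simp only [hG2]
      rw [Finset.mul_sum]
      refine Finset.sum_congr rfl fun t _ => ?_
      ring
    rw [h4]
    exact h3
  have h5 := h1.sub h2
  rw [← h5.tsum_eq]
  set B : ℝ := ((((Icc (1 : ℤ) T).filter (fun t => |(((b : ℤ) * t - r : ℤ) : ℝ)| < m₀)).card : ℕ) : ℝ)
    with hB
  have hB0 : 0 ≤ B := by rw [hB]; positivity
  set K : ℝ := C₁ * Y ^ δ * (3 * (L * (2 * T * Λ + 2 * A * T * b / m₀) + A * B)) with hK
  have hK0 : 0 ≤ K := by positivity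
  have hbd : ∀ m : ℤ, ‖((gs L m : ℝ) : ℂ) * S0 - ((gs L m : ℝ) : ℂ) * G2 m‖ ≤
      K * Real.exp (-|(m : ℝ) / L|) := by
    intro m
    have hg0 : 0 ≤ gs L m := (Real.exp_pos _).le
    rw [← mul_sub, norm_mul, Complex.norm_real, Real.norm_of_nonneg hg0]
    have h6 := frz_one hδ hδ1 hC hd χ hL hb hbr hX hDl hA0 hΛ0 hf0 hA hΛ hm₀ hY1 hY2 m
    rw [← hS0, ← hB] at h6
    have hgg : gs L m * (1 + |(m : ℝ) / L|) ^ 2 ≤ 3 * Real.exp (-|(m : ℝ) / L|) := ept_gs L m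
    have h7 : |(m : ℝ)| ≤ L * (1 + |(m : ℝ) / L|) := by
      have : |(m : ℝ) / L| = |(m : ℝ)| / L := by rw [abs_div, abs_of_pos hL0]
      rw [this, mul_add, mul_div_cancel₀ _ hL0.ne']
      linarith
    have h8 : (1 : ℝ) ≤ 1 + |(m : ℝ) / L| := by linarith [abs_nonneg ((m : ℝ) / L)]
    have h9 : 2 * T * (Λ * |(m : ℝ)|) + A * (T * (2 * (b * |(m : ℝ)| / m₀)) + B) ≤
        (1 + |(m : ℝ) / L|) * (L * (2 * T * Λ + 2 * A * T * b / m₀) + A * B) := by
      have h10 : 2 * T * (Λ * |(m : ℝ)|) + A * (T * (2 * (b * |(m : ℝ)| / m₀)) + B) =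
          |(m : ℝ)| * (2 * T * Λ + 2 * A * T * b / m₀) + A * B := by
        field_simp
        ring
      rw [h10]
      have h11 : |(m : ℝ)| * (2 * T * Λ + 2 * A * T * b / m₀) ≤
          L * (1 + |(m : ℝ) / L|) * (2 * T * Λ + 2 * A * T * b / m₀) :=
        mul_le_mul_of_nonneg_right h7 (by positivity)
      have h12 : A * B ≤ (1 + |(m : ℝ) / L|) * (A * B) := le_mul_of_one_le_left (by positivity) h8
      linarith
    calc gs L m * ‖S0 - G2 m‖ ≤ gs L m * (C₁ * Y ^ δ * (1 + |(m : ℝ) / L|) *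
        (2 * T * (Λ * |(m : ℝ)|) + A * (T * (2 * (b * |(m : ℝ)| / m₀)) + B))) :=
          mul_le_mul_of_nonneg_left h6 hg0
      _ ≤ gs L m * (C₁ * Y ^ δ * (1 + |(m : ℝ) / L|) *
          ((1 + |(m : ℝ) / L|) * (L * (2 * T * Λ + 2 * A * T * b / m₀) + A * B))) := by gcongr
      _ = (gs L m * (1 + |(m : ℝ) / L|) ^ 2) *
          (C₁ * Y ^ δ * (L * (2 * T * Λ + 2 * A * T * b / m₀) + A * B)) := by ring
      _ ≤ (3 * Real.exp (-|(m : ℝ) / L|)) *
          (C₁ * Y ^ δ * (L * (2 * T * Λ + 2 * A * T * b / m₀) + A * B)) := by gcongr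
      _ = _ := by rw [hK]; ring
  have h13 := big_class hL0 (t := 1) le_rfl (fun _ => True) (fun _ _ _ _ => by simp)
  simp only [if_true, Nat.cast_one, div_one] at h13
  have h14 : HasSum (fun m : ℤ => K * Real.exp (-|(m : ℝ) / L|))
      (K * ∑' m : ℤ, Real.exp (-|(m : ℝ) / L|)) := (big_summable hL0).hasSum.mul_left K
  refine (tsum_of_norm_bounded h14 hbd).trans ?_
  calc K * ∑' m : ℤ, Real.exp (-|(m : ℝ) / L|) ≤ K * (2 * (1 + L)) :=
        mul_le_mul_of_nonneg_left h13 hK0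
    _ ≤ K * (4 * L) := by
        refine mul_le_mul_of_nonneg_left ?_ hK0
        linarith
    _ = _ := by rw [hK]; ring

end

end Pool.Agent.EXB
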