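import Mathlib

/-!
# EXC, part B: sums and integrals with a logarithm
-/

set_option autoImplicit false

namespace Pool.Agent.EXB

open Finset MeasureTheory

noncomputable section

theorem sum_range (T : ℕ) (g : ℝ → ℝ) :
    ∑ t ∈ Icc (1 : ℤ) T, g t = ∑ k ∈ Finset.range T, g ((k : ℝ) + 1) := by
  symm
  refine Finset.sum_bij (fun k _ => (k : ℤ) + 1) ?_ ?_ ?_ ?_
  · intro k hk
    rw [Finset.mem_range] at hk
    rw [Finset.mem_Icc]
    omega
  · intro a _ c _ h
    omega
  · intro a ha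
    rw [Finset.mem_Icc] at ha
    refine ⟨(a - 1).toNat, ?_, ?_⟩
    · rw [Finset.mem_range]; omega
    · omega
  · intro k _
    push_cast
    rfl

/-- sums and integrals of a Lipschitz function -/
theorem sum_lip {g : ℝ → ℝ} {K : ℝ} (T : ℕ) (hg : ∀ x ∈ Set.Icc (1 : ℝ) (T + 1),
    ∀ y ∈ Set.Icc (1 : ℝ) (T + 1), |g x - g y| ≤ K * |x - y|) (hK : 0 ≤ K) (hc : Continuous g) :
    |∑ t ∈ Icc (1 : ℤ) T, g t - ∫ x in (1 : ℝ)..(T + 1), g x| ≤ T * K := by
  have h1 : ∫ x in (1 : ℝ)..(T + 1), g x =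
      ∑ k ∈ Finset.range T, ∫ x in ((k : ℝ) + 1)..((k : ℝ) + 1 + 1), g x := by
    have h2 := intervalIntegral.sum_integral_adjacent_intervals (f := g) (μ := volume)
      (a := fun k : ℕ => (k : ℝ) + 1) (n := T) (fun k _ => hc.intervalIntegrable _ _)
    simp only [Nat.cast_add, Nat.cast_one, Nat.cast_zero, zero_add] at h2
    exact h2.symm
  rw [sum_range, h1, ← Finset.sum_sub_distrib]
  have h3 : ∀ k ∈ Finset.range T, |g ((k : ℝ) + 1) - ∫ x in ((k : ℝ) + 1)..((k : ℝ) + 1 + 1), g x| ≤ K := by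
    intro k hk
    have hkT : (k : ℝ) + 1 ≤ T := by exact_mod_cast Finset.mem_range.1 hk
    have hk0 : (0 : ℝ) ≤ k := by positivity
    have h4 : g ((k : ℝ) + 1) = ∫ _x in ((k : ℝ) + 1)..((k : ℝ) + 1 + 1), g ((k : ℝ) + 1) := by
      rw [intervalIntegral.integral_const]
      simp
    rw [h4, ← intervalIntegral.integral_sub (by simp) (hc.intervalIntegrable _ _)]
    have h5 := intervalIntegral.norm_integral_le_of_norm_le_const (a := (k : ℝ) + 1)
      (b := (k : ℝ) + 1 + 1) (C := K) (f := fun x => g ((k : ℝ) + 1) - g x) (by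
        intro x hx
        rw [Set.uIoc_of_le (by linarith)] at hx
        rw [Real.norm_eq_abs]
        refine (hg _ ⟨by linarith, by linarith⟩ _ ⟨by linarith [hx.1], by linarith [hx.2]⟩).trans ?_
        have : |(k : ℝ) + 1 - x| ≤ 1 := by
          rw [abs_le]; constructor <;> linarith [hx.1, hx.2]
        calc K * |(k : ℝ) + 1 - x| ≤ K * 1 := mul_le_mul_of_nonneg_left this hK
          _ = K := mul_one K)
    rw [Real.norm_eq_abs] at h5
    simpa using h5
  refine (Finset.abs_sum_le_sum_abs _ _).trans ((Finset.sum_le_sum h3).trans ?_)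
  rw [Finset.sum_const, nsmul_eq_mul, Finset.card_range]

theorem sum_logint {b : ℝ} (hb : 0 < b) (c u v : ℝ) :
    IntervalIntegrable (fun x => Real.log (b * x - c)) volume u v := by
  have h1 : IntervalIntegrable Real.log volume (b * u - c) (b * v - c) :=
    intervalIntegral.intervalIntegrable_log'
  have h2 := h1.comp_sub_right c
  have h3 := h2.comp_mul_left (c := b)
  have e1 : (b * u - c + c) / b = u := by field_simp; ring
  have e2 : (b * v - c + c) / b = v := by field_simp; ring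
  rw [e1, e2] at h3
  exact h3

/-- the cut logarithm -/
def lgm (m₀ x : ℝ) : ℝ := Real.log (max |x| m₀)

theorem lgm_sub {m₀ : ℝ} (hm : 1 ≤ m₀) (x y : ℝ) : |lgm m₀ x - lgm m₀ y| ≤ |x - y| / m₀ := by
  have key : ∀ p q : ℝ, m₀ ≤ p → m₀ ≤ q → Real.log p - Real.log q ≤ |p - q| / m₀ := by
    intro p q hp hq
    have hp0 : 0 < p := by linarith
    have hq0 : 0 < q := by linarith
    rw [← Real.log_div hp0.ne' hq0.ne']
    have h1 := Real.log_le_sub_one_of_pos (show 0 < p / q by positivity)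
    have h2 : p / q - 1 = (p - q) / q := by field_simp
    rw [h2] at h1
    refine h1.trans ?_
    calc (p - q) / q ≤ |p - q| / q := by gcongr; exact le_abs_self _
      _ ≤ |p - q| / m₀ := by apply div_le_div_of_nonneg_left (abs_nonneg _) (by linarith) hq
  have h3 : |max |x| m₀ - max |y| m₀| ≤ |x - y| := by
    refine (abs_max_sub_max_le_abs _ _ _).trans ?_
    exact abs_abs_sub_abs_le_abs_sub x y
  unfold lgm
  have h4 := key _ _ (le_max_right |x| m₀) (le_max_right |y| m₀)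
  have h5 := key _ _ (le_max_right |y| m₀) (le_max_right |x| m₀)
  rw [abs_sub_comm (max |y| m₀)] at h5
  have h6 : |max |x| m₀ - max |y| m₀| / m₀ ≤ |x - y| / m₀ := by gcongr
  rw [abs_le]
  constructor <;> linarith

theorem lgm_cont {m₀ : ℝ} (hm : 1 ≤ m₀) : Continuous (lgm m₀) := by
  unfold lgm
  refine Continuous.log (by fun_prop) ?_
  intro x
  have := le_max_right |x| m₀
  linarith

theorem lgm_nonneg {m₀ : ℝ} (hm : 1 ≤ m₀) (x : ℝ) : 0 ≤ lgm m₀ x :=
  Real.log_nonneg (hm.trans (le_max_right _ _))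

theorem lgm_le {m₀ X : ℝ} (hm : 1 ≤ m₀) {x : ℝ} (h : |x| ≤ X) (hX : m₀ ≤ X) :
    lgm m₀ x ≤ Real.log X :=
  Real.log_le_log (by linarith [le_max_right |x| m₀]) (max_le h hX)

theorem lgm_ge {m₀ : ℝ} (hm : 1 ≤ m₀) (x : ℝ) : 0 ≤ lgm m₀ x - Real.log x := by
  rcases eq_or_ne x 0 with h | h
  · subst h
    rw [Real.log_zero, sub_zero]
    exact lgm_nonneg hm 0
  · have h1 : Real.log x ≤ lgm m₀ x := by
      rw [← Real.log_abs]
      exact Real.log_le_log (abs_pos.2 h) (le_max_left _ _)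
    linarith

theorem lgm_out {m₀ : ℝ} {x : ℝ} (h : m₀ ≤ |x|) : lgm m₀ x - Real.log x = 0 := by
  unfold lgm
  rw [max_eq_left h, Real.log_abs, sub_self]

/-- the total mass of the logarithmic singularity -/
theorem lgm_mass {m₀ : ℝ} (hm : 1 ≤ m₀) {u v : ℝ} (huv : u ≤ v) :
    ∫ x in u..v, (lgm m₀ x - Real.log x) ≤ 2 * m₀ := by
  set φ : ℝ → ℝ := fun x => lgm m₀ x - Real.log x with hφ
  have hint : ∀ p q : ℝ, IntervalIntegrable φ volume p q := fun p q =>
    ((lgm_cont hm).intervalIntegrable p q).sub intervalIntegral.intervalIntegrable_log'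
  set M : ℝ := max m₀ (max |u| |v|) with hM
  have hM1 : m₀ ≤ M := le_max_left _ _
  have hM2 : |u| ≤ M := (le_max_left _ _).trans (le_max_right _ _)
  have hM3 : |v| ≤ M := (le_max_right _ _).trans (le_max_right _ _)
  have h1 : ∫ x in u..v, φ x ≤ ∫ x in (-M)..M, φ x := by
    apply intervalIntegral.integral_mono_interval (by linarith [(abs_le.1 hM2).1]) huv
      (by linarith [(abs_le.1 hM3).2]) _ (hint _ _)
    filter_upwards with x
    exact lgm_ge hm x
  have h2 : ∫ x in (-M)..M, φ x = ∫ x in (-m₀)..m₀, φ x := by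
    rw [← intervalIntegral.integral_add_adjacent_intervals (hint (-M) (-m₀)) (hint (-m₀) M),
      ← intervalIntegral.integral_add_adjacent_intervals (hint (-m₀) m₀) (hint m₀ M)]
    have h3 : ∫ x in (-M)..(-m₀), φ x = 0 := by
      apply intervalIntegral.integral_zero_ae
      filter_upwards with x hx
      rw [Set.uIoc_of_le (by linarith)] at hx
      apply lgm_out
      rw [abs_of_nonpos (by linarith [hx.2])]
      linarith [hx.2]
    have h4 : ∫ x in m₀..M, φ x = 0 := by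
      apply intervalIntegral.integral_zero_ae
      filter_upwards with x hx
      rw [Set.uIoc_of_le hM1] at hx
      apply lgm_out
      rw [abs_of_nonneg (by linarith [hx.1])]
      linarith [hx.1]
    rw [h3, h4]
    ring
  have h5 : ∫ x in (-m₀)..m₀, φ x = ∫ x in (-m₀)..m₀, (Real.log m₀ - Real.log x) := by
    apply intervalIntegral.integral_congr
    intro x hx
    rw [Set.uIcc_of_le (by linarith)] at hx
    simp only [hφ]
    unfold lgm
    rw [max_eq_right (abs_le.2 ⟨hx.1, hx.2⟩)]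
  have h6 : ∫ x in (-m₀)..m₀, (Real.log m₀ - Real.log x) = 2 * m₀ := by
    rw [intervalIntegral.integral_sub intervalIntegrable_const
      intervalIntegral.intervalIntegrable_log', integral_log, intervalIntegral.integral_const,
      Real.log_neg_eq_log, smul_eq_mul]
    ring
  calc ∫ x in u..v, φ x ≤ ∫ x in (-M)..M, φ x := h1
    _ = 2 * m₀ := by rw [h2, h5, h6]

/-- the sum with a logarithm against the integral -/
theorem sum_log {f : ℝ → ℝ} {A Λ : ℝ} (hA0 : 0 ≤ A) (hΛ0 : 0 ≤ Λ) (hA : ∀ x, |f x| ≤ A)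
    (hΛ : ∀ x y, |f x - f y| ≤ Λ * |x - y|) {b : ℕ} (hb : 1 ≤ b) {r : ℤ} (hbr : ¬ (b : ℤ) ∣ r)
    {T : ℕ} {m₀ X : ℝ} (hm : 1 ≤ m₀) (hmX : m₀ ≤ X)
    (hX : ∀ x ∈ Set.Icc (1 : ℝ) (T + 1), |(b : ℝ) * x - r| ≤ X) :
    |∑ t ∈ Icc (1 : ℤ) T, f t * Real.log |(((b : ℤ) * t - r : ℤ) : ℝ)| -
      ∫ x in (1 : ℝ)..(T + 1), f x * Real.log ((b : ℝ) * x - r)| ≤
      T * (Λ * Real.log X + A * b / m₀) +
        A * (Real.log m₀ * ((Icc (1 : ℤ) T).filter
          (fun t => |(((b : ℤ) * t - r : ℤ) : ℝ)| < m₀)).card) + A * (2 * m₀) / b := by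
  have hbR : (1 : ℝ) ≤ b := by exact_mod_cast hb
  have hb0 : (0 : ℝ) < b := by linarith
  have hfc : Continuous f := by
    have : LipschitzWith ⟨Λ, hΛ0⟩ f := by
      apply LipschitzWith.of_dist_le_mul
      intro x y
      rw [Real.dist_eq, Real.dist_eq]
      exact hΛ x y
    exact this.continuous
  set g : ℝ → ℝ := fun x => f x * lgm m₀ ((b : ℝ) * x - r) with hg
  set φ : ℝ → ℝ := fun x => lgm m₀ ((b : ℝ) * x - r) - Real.log ((b : ℝ) * x - r) with hφ
  have hlc : Continuous (fun x : ℝ => lgm m₀ ((b : ℝ) * x - r)) :=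
    (lgm_cont hm).comp (by fun_prop)
  have hgc : Continuous g := hfc.mul hlc
  have hX0 : 0 ≤ Real.log X := Real.log_nonneg (by linarith)
  have h1 := sum_lip (g := g) (K := Λ * Real.log X + A * b / m₀) T (by
    intro x hx y hy
    have e1 : g x - g y = (f x - f y) * lgm m₀ ((b : ℝ) * x - r) +
        f y * (lgm m₀ ((b : ℝ) * x - r) - lgm m₀ ((b : ℝ) * y - r)) := by
      simp only [hg]; ring
    rw [e1]
    refine (abs_add_le _ _).trans ?_
    rw [abs_mul, abs_mul, abs_of_nonneg (lgm_nonneg hm _)]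
    have h2 : |f x - f y| * lgm m₀ ((b : ℝ) * x - r) ≤ (Λ * |x - y|) * Real.log X :=
      mul_le_mul (hΛ x y) (lgm_le hm (hX x hx) hmX) (lgm_nonneg hm _) (by positivity)
    have h3 : |lgm m₀ ((b : ℝ) * x - r) - lgm m₀ ((b : ℝ) * y - r)| ≤ b * |x - y| / m₀ := by
      refine (lgm_sub hm _ _).trans (le_of_eq ?_)
      have : (b : ℝ) * x - r - (b * y - r) = b * (x - y) := by ring
      rw [this, abs_mul, abs_of_pos hb0]
    have h4 : |f y| * |lgm m₀ ((b : ℝ) * x - r) - lgm m₀ ((b : ℝ) * y - r)| ≤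
        A * (b * |x - y| / m₀) := mul_le_mul (hA y) h3 (abs_nonneg _) hA0
    calc |f x - f y| * lgm m₀ ((b : ℝ) * x - r) +
        |f y| * |lgm m₀ ((b : ℝ) * x - r) - lgm m₀ ((b : ℝ) * y - r)| ≤
        (Λ * |x - y|) * Real.log X + A * (b * |x - y| / m₀) := add_le_add h2 h4
      _ = _ := by ring) (by positivity) hgc
  -- the bad part of the sum
  have h5 : |∑ t ∈ Icc (1 : ℤ) T, f t * Real.log |(((b : ℤ) * t - r : ℤ) : ℝ)| -
      ∑ t ∈ Icc (1 : ℤ) T, g t| ≤ A * (Real.log m₀ * ((Icc (1 : ℤ) T).filter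
          (fun t => |(((b : ℤ) * t - r : ℤ) : ℝ)| < m₀)).card) := by
    rw [← Finset.sum_sub_distrib]
    have h6 : ∀ t ∈ Icc (1 : ℤ) T, |f t * Real.log |(((b : ℤ) * t - r : ℤ) : ℝ)| - g t| ≤
        if |(((b : ℤ) * t - r : ℤ) : ℝ)| < m₀ then A * Real.log m₀ else 0 := by
      intro t _
      have hne : (b : ℤ) * t - r ≠ 0 := by
        intro h
        exact hbr ⟨t, by linarith⟩
      have h1t : 1 ≤ |(((b : ℤ) * t - r : ℤ) : ℝ)| := by
        have : (1 : ℤ) ≤ |(b : ℤ) * t - r| := Int.one_le_abs hne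
        exact_mod_cast this
      have e2 : (((b : ℤ) * t - r : ℤ) : ℝ) = (b : ℝ) * t - r := by push_cast; ring
      have e3 : f t * Real.log |(((b : ℤ) * t - r : ℤ) : ℝ)| - g t =
          -(f t * (lgm m₀ ((b : ℝ) * t - r) - Real.log ((b : ℝ) * t - r))) := by
        simp only [hg]
        rw [e2, Real.log_abs]
        ring
      rw [e3, abs_neg, abs_mul, abs_of_nonneg (lgm_ge hm _)]
      split_ifs with hs
      · refine mul_le_mul (hA _) ?_ (lgm_ge hm _) hA0
        rw [e2] at hs h1t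
        have h7 : lgm m₀ ((b : ℝ) * t - r) = Real.log m₀ := by
          unfold lgm
          rw [max_eq_right hs.le]
        have h8 : 0 ≤ Real.log ((b : ℝ) * t - r) := by
          rw [← Real.log_abs]
          exact Real.log_nonneg h1t
        rw [h7]
        linarith
      · rw [e2] at hs
        rw [lgm_out (not_lt.1 hs), mul_zero]
    refine (Finset.abs_sum_le_sum_abs _ _).trans ((Finset.sum_le_sum h6).trans (le_of_eq ?_))
    rw [← Finset.sum_filter, Finset.sum_const, nsmul_eq_mul]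
    ring
  -- the bad part of the integral
  have hT0 : (0 : ℝ) ≤ T := by positivity
  have hfi : IntervalIntegrable (fun x => f x * Real.log ((b : ℝ) * x - r)) volume 1 (T + 1) :=
    (sum_logint hb0 r 1 (T + 1)).continuousOn_mul hfc.continuousOn
  have hφi : IntervalIntegrable φ volume 1 (T + 1) :=
    (hlc.intervalIntegrable _ _).sub (sum_logint hb0 r 1 (T + 1))
  have h9 : |(∫ x in (1 : ℝ)..(T + 1), f x * Real.log ((b : ℝ) * x - r)) -
      ∫ x in (1 : ℝ)..(T + 1), g x| ≤ A * (2 * m₀) / b := by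
    rw [← intervalIntegral.integral_sub hfi (hgc.intervalIntegrable _ _)]
    have e4 : ∀ x : ℝ, f x * Real.log ((b : ℝ) * x - r) - g x = -(f x * φ x) := by
      intro x
      simp only [hg, hφ]
      ring
    have h10 := intervalIntegral.norm_integral_le_of_norm_le (a := (1 : ℝ)) (b := (T : ℝ) + 1)
      (f := fun x => f x * Real.log ((b : ℝ) * x - r) - g x) (g := fun x => A * φ x) (μ := volume)
      (by linarith) (by
        filter_upwards with x _
        rw [e4, norm_neg, Real.norm_eq_abs, abs_mul, abs_of_nonneg (lgm_ge hm _)]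
        exact mul_le_mul_of_nonneg_right (hA x) (lgm_ge hm _)) (hφi.const_mul A)
    rw [Real.norm_eq_abs, intervalIntegral.integral_const_mul] at h10
    refine h10.trans ?_
    have h11 : ∫ x in (1 : ℝ)..(T + 1), φ x = (b : ℝ)⁻¹ *
        ∫ x in ((b : ℝ) * 1 - r)..((b : ℝ) * (T + 1) - r), (lgm m₀ x - Real.log x) := by
      have h12 := intervalIntegral.integral_comp_mul_sub (a := (1 : ℝ)) (b := (T : ℝ) + 1)
        (c := (b : ℝ)) (fun x => lgm m₀ x - Real.log x) hb0.ne' (r : ℝ)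
      rw [smul_eq_mul] at h12
      exact h12
    have h13 := lgm_mass hm (u := (b : ℝ) * 1 - r) (v := (b : ℝ) * (T + 1) - r) (by nlinarith)
    rw [h11]
    calc A * ((b : ℝ)⁻¹ * ∫ x in ((b : ℝ) * 1 - r)..((b : ℝ) * (T + 1) - r),
        (lgm m₀ x - Real.log x)) ≤ A * ((b : ℝ)⁻¹ * (2 * m₀)) := by gcongr
      _ = _ := by field_simp
  have e5 : ∑ t ∈ Icc (1 : ℤ) T, f t * Real.log |(((b : ℤ) * t - r : ℤ) : ℝ)| -
      ∫ x in (1 : ℝ)..(T + 1), f x * Real.log ((b : ℝ) * x - r) =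
      (∑ t ∈ Icc (1 : ℤ) T, f t * Real.log |(((b : ℤ) * t - r : ℤ) : ℝ)| -
        ∑ t ∈ Icc (1 : ℤ) T, g t) + (∑ t ∈ Icc (1 : ℤ) T, g t - ∫ x in (1 : ℝ)..(T + 1), g x) -
      ((∫ x in (1 : ℝ)..(T + 1), f x * Real.log ((b : ℝ) * x - r)) -
        ∫ x in (1 : ℝ)..(T + 1), g x) := by ring
  rw [e5]
  refine (abs_sub _ _).trans ?_
  refine (add_le_add (abs_add_le _ _) le_rfl).trans ?_
  linarith

end

end Pool.Agent.EXB
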