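import Pool.Agent.Lib_helper19.EXB.MDN
import Pool.Agent.Lib_helper19.EXB.FRZ
import Pool.Agent.Lib_helper19.EXB.SUM
import Pool.Agent.Lib_helper19.EXB.EPS

/-!
# EXC, part B: assembly
-/

set_option autoImplicit false

namespace Pool.Agent.EXB

open Pool.Agent.LSPD (tau gs big_summable big_class big_gs_summable big_gauss)
open Pool.Agent.LSPO (hyp hyp_nonneg hyp_le_one)
open Pool.Agent.LSPP (Hf ga)
open Pool.Agent.FG61 (mu)
open Finset MeasureTheory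

noncomputable section

/-- the slope of the main term -/
def mgA {D : ℕ} (χ : DirichletCharacter ℂ D) (b : ℕ) (r : ℤ) : ℂ :=
  ∑ k ∈ b.divisors.filter (fun k : ℕ => (k : ℤ) ∣ r),
      χ ((r / k : ℤ) : ZMod D) * (starRingEnd ℂ) (χ ((b / k : ℕ) : ZMod D)) *
        ∑ l ∈ (b / k).divisors, ((mu l / ((D : ℝ) * l) : ℝ) : ℂ)

theorem mg_lin {D : ℕ} (χ : DirichletCharacter ℂ D) (b : ℕ) (r : ℤ) (u : ℝ) :
    Mg χ b r u = mgA χ b r * (u : ℂ) + Mg χ b r 0 := by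
  unfold Mg mgA
  rw [Finset.sum_mul, ← Finset.sum_add_distrib]
  refine Finset.sum_congr rfl fun k _ => ?_
  generalize χ ((r / k : ℤ) : ZMod D) * (starRingEnd ℂ) (χ ((b / k : ℕ) : ZMod D)) = X
  rw [mul_assoc, ← mul_add, Finset.sum_mul, ← Finset.sum_add_distrib]
  congr 1
  refine Finset.sum_congr rfl fun l _ => ?_
  push_cast
  ring

theorem mg_mu (D l : ℕ) : |mu l / ((D : ℝ) * l)| ≤ 1 := by
  rcases Nat.eq_zero_or_pos (D * l) with h | h
  · have h1 : (D : ℝ) * l = 0 := by exact_mod_cast h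
    rw [h1, div_zero, abs_zero]
    exact zero_le_one
  · have h1 : (1 : ℝ) ≤ (D : ℝ) * l := by exact_mod_cast h
    rw [abs_div, abs_of_pos (show (0 : ℝ) < (D : ℝ) * l by linarith), div_le_one (by linarith)]
    refine le_trans ?_ h1
    unfold mu
    have := ArithmeticFunction.abs_moebius_le_one (n := l)
    exact_mod_cast this

theorem mg_sum {D : ℕ} (χ : DirichletCharacter ℂ D) {b : ℕ} (r : ℤ) {z : ℕ → ℕ → ℂ} {B : ℝ}
    (hB : 0 ≤ B)
    (hz : ∀ k l : ℕ, k ∈ b.divisors → l ∈ (b / k).divisors → ‖z k l‖ ≤ B) :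
    ‖∑ k ∈ b.divisors.filter (fun k : ℕ => (k : ℤ) ∣ r),
      χ ((r / k : ℤ) : ZMod D) * (starRingEnd ℂ) (χ ((b / k : ℕ) : ZMod D)) *
        ∑ l ∈ (b / k).divisors, z k l‖ ≤ (b.divisors.card : ℝ) ^ 2 * B := by
  have hk : ∀ k ∈ b.divisors.filter (fun k : ℕ => (k : ℤ) ∣ r),
      ‖χ ((r / k : ℤ) : ZMod D) * (starRingEnd ℂ) (χ ((b / k : ℕ) : ZMod D)) *
        ∑ l ∈ (b / k).divisors, z k l‖ ≤ (b.divisors.card : ℝ) * B := by
    intro k hk
    have hk1 := (Finset.mem_filter.1 hk).1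
    rw [norm_mul]
    have h1 : ‖χ ((r / k : ℤ) : ZMod D) * (starRingEnd ℂ) (χ ((b / k : ℕ) : ZMod D))‖ ≤ 1 := by
      rw [norm_mul, RCLike.norm_conj]
      exact mul_le_one₀ (DirichletCharacter.norm_le_one χ _) (norm_nonneg _)
        (DirichletCharacter.norm_le_one χ _)
    refine (mul_le_of_le_one_left (norm_nonneg _) h1).trans ?_
    refine (norm_sum_le_of_le _ (fun l hl => hz k l hk1 hl)).trans ?_
    rw [Finset.sum_const, nsmul_eq_mul]
    refine mul_le_mul_of_nonneg_right ?_ hB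
    have h2 : (b / k).divisors.card ≤ b.divisors.card := by
      apply Finset.card_le_card
      exact Nat.divisors_subset_of_dvd (Nat.mem_divisors.1 hk1).2
        (Nat.div_dvd_of_dvd (Nat.mem_divisors.1 hk1).1)
    exact_mod_cast h2
  refine (norm_sum_le_of_le _ hk).trans ?_
  rw [Finset.sum_const, nsmul_eq_mul]
  have h1 : ((b.divisors.filter (fun k : ℕ => (k : ℤ) ∣ r)).card : ℝ) ≤ b.divisors.card := by
    exact_mod_cast Finset.card_filter_le _ _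
  calc ((b.divisors.filter (fun k : ℕ => (k : ℤ) ∣ r)).card : ℝ) * ((b.divisors.card : ℝ) * B) ≤
      (b.divisors.card : ℝ) * ((b.divisors.card : ℝ) * B) := by gcongr
    _ = _ := by ring

theorem mgA_le {D : ℕ} (χ : DirichletCharacter ℂ D) (b : ℕ) (r : ℤ) :
    ‖mgA χ b r‖ ≤ (b.divisors.card : ℝ) ^ 2 := by
  have h := mg_sum χ r (b := b) (z := fun _ l => ((mu l / ((D : ℝ) * l) : ℝ) : ℂ)) zero_le_one (by
    intro k l _ _
    rw [Complex.norm_real, Real.norm_eq_abs]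
    exact mg_mu D l)
  rw [mul_one] at h
  exact h

theorem mg0_le {D : ℕ} [NeZero D] (χ : DirichletCharacter ℂ D) {b : ℕ} (hb : 1 ≤ b) (r : ℤ) :
    ‖Mg χ b r 0‖ ≤ (b.divisors.card : ℝ) ^ 2 * (2 + 2 * Real.log ((b : ℝ) * D)) := by
  have hD : 1 ≤ D := Nat.one_le_iff_ne_zero.2 (NeZero.ne D)
  have hDR : (1 : ℝ) ≤ D := by exact_mod_cast hD
  have hbR : (1 : ℝ) ≤ b := by exact_mod_cast hb
  have hbD : (1 : ℝ) ≤ (b : ℝ) * D := one_le_mul_of_one_le_of_one_le hbR hDR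
  have hl0 : 0 ≤ Real.log ((b : ℝ) * D) := Real.log_nonneg hbD
  have hga : 0 < ga := by
    have := Real.one_half_lt_eulerMascheroniConstant
    unfold ga
    linarith
  have hga2 : ga < 2 / 3 := Real.eulerMascheroniConstant_lt_two_thirds
  refine mg_sum χ r (b := b)
    (z := fun k l => ((mu l / ((D : ℝ) * l) * (0 + 2 * ga - 2 * Real.log (k * D * l)) : ℝ) : ℂ))
    (by linarith) ?_
  intro k l hk hl
  have hk0 : 0 < k := Nat.pos_of_mem_divisors hk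
  have hl1 : 0 < l := Nat.pos_of_mem_divisors hl
  rw [Complex.norm_real, Real.norm_eq_abs, abs_mul]
  have hkl : k * D * l ≤ b * D := by
    have h1 : l ≤ b / k := Nat.divisor_le hl
    have h2 : k * l ≤ b := by
      calc k * l ≤ k * (b / k) := Nat.mul_le_mul_left _ h1
        _ ≤ b := Nat.mul_div_le b k
    calc k * D * l = (k * l) * D := by ring
      _ ≤ b * D := Nat.mul_le_mul_right _ h2
  have hklR : (k : ℝ) * D * l ≤ b * D := by exact_mod_cast hkl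
  have h1R : (1 : ℝ) ≤ (k : ℝ) * D * l := by
    have : 1 ≤ k * D * l := Nat.mul_pos (Nat.mul_pos hk0 hD) hl1
    exact_mod_cast this
  have h3 : Real.log ((k : ℝ) * D * l) ≤ Real.log ((b : ℝ) * D) := Real.log_le_log (by linarith) hklR
  have h4 : 0 ≤ Real.log ((k : ℝ) * D * l) := Real.log_nonneg h1R
  have h5 : |0 + 2 * ga - 2 * Real.log (k * D * l)| ≤ 2 + 2 * Real.log ((b : ℝ) * D) := by
    rw [abs_le]; constructor <;> linarith
  calc |mu l / ((D : ℝ) * l)| * |0 + 2 * ga - 2 * Real.log (k * D * l)| ≤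
      1 * (2 + 2 * Real.log ((b : ℝ) * D)) :=
        mul_le_mul (mg_mu D l) h5 (abs_nonneg _) zero_le_one
    _ = _ := one_mul _

/-- the total mass of the Gaussian weight -/
theorem asm_theta : ∃ C : ℝ, 1 ≤ C ∧ ∀ L : ℝ, 1 ≤ L → |∑' m : ℤ, gs L m - L| ≤ C := by
  obtain ⟨C, hC, h⟩ := core (ε := 1) one_pos
  refine ⟨4 * C, by linarith, fun L hL => ?_⟩
  have h1 := h hL (p := 1) (l := 1) (K := 1) le_rfl le_rfl le_rfl 0 0
  have h2 : (Icc 1 1).filter (fun k => Nat.Coprime k (1 * 1)) = {1} := by decide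
  rw [h2, Finset.sum_singleton] at h1
  have h3 : Eg L 1 1 0 0 1 = ∑' m : ℤ, gs L m - L := by
    unfold Eg Cg
    simp
  rw [h3] at h1
  refine h1.trans ?_
  norm_num
  linarith

/-- the number of the centres near the singularity -/
theorem asm_bad {b : ℕ} (hb : 1 ≤ b) (r : ℤ) (T : ℕ) {m₀ : ℝ} (hm : 0 ≤ m₀) :
    (((Icc (1 : ℤ) T).filter (fun t => |(((b : ℤ) * t - r : ℤ) : ℝ)| < m₀)).card : ℝ) ≤
      2 * m₀ / b + 1 := by
  have hbR : (1 : ℝ) ≤ b := by exact_mod_cast hb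
  have hb0 : (0 : ℝ) < b := by linarith
  set u : ℤ := ⌈((r : ℝ) - m₀) / b⌉ with hu
  set v : ℤ := ⌊((r : ℝ) + m₀) / b⌋ with hv
  have h1 : (Icc (1 : ℤ) T).filter (fun t => |(((b : ℤ) * t - r : ℤ) : ℝ)| < m₀) ⊆ Icc u v := by
    intro t ht
    obtain ⟨_, ht2⟩ := Finset.mem_filter.1 ht
    push_cast at ht2
    obtain ⟨h3, h4⟩ := abs_lt.1 ht2
    rw [Finset.mem_Icc]
    constructor
    · rw [hu, Int.ceil_le, div_le_iff₀ hb0]
      linarith [mul_comm (b : ℝ) (t : ℝ)]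
    · rw [hv, Int.le_floor, le_div_iff₀ hb0]
      linarith [mul_comm (b : ℝ) (t : ℝ)]
  have h2 : (((Icc (1 : ℤ) T).filter (fun t => |(((b : ℤ) * t - r : ℤ) : ℝ)| < m₀)).card : ℝ) ≤
      ((Icc u v).card : ℝ) := by exact_mod_cast Finset.card_le_card h1
  refine h2.trans ?_
  rw [Int.card_Icc]
  have h3 : ((v + 1 - u : ℤ) : ℝ) ≤ 2 * m₀ / b + 1 := by
    have h4 : (v : ℝ) ≤ ((r : ℝ) + m₀) / b := Int.floor_le _
    have h5 : ((r : ℝ) - m₀) / b ≤ u := Int.le_ceil _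
    push_cast
    have h6 : ((r : ℝ) + m₀) / b - ((r : ℝ) - m₀) / b = 2 * m₀ / b := by field_simp; ring
    linarith
  rcases le_total 0 (v + 1 - u) with h | h
  · have h7 : (((v + 1 - u).toNat : ℕ) : ℝ) = ((v + 1 - u : ℤ) : ℝ) := by
      have : (((v + 1 - u).toNat : ℕ) : ℤ) = v + 1 - u := Int.toNat_of_nonneg h
      exact_mod_cast this
    rw [h7]
    exact h3
  · rw [Int.toNat_of_nonpos h]
    have : 0 ≤ 2 * m₀ / b := by positivity
    push_cast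
    linarith

/-- the size of the error terms -/
def EQ (C Y δ L T A Λ b m₀ B X D Dl V g d W : ℝ) : ℝ :=
  C / L * (Y ^ δ * L * (L * (T * Λ + A * T * b / m₀) + A * B) +
    T * A * (W ^ δ * ((1 + X / (b * L)) * (V * D) * (Dl * g / b + (b * (V * D)) ^ (3 / 4 : ℝ)) +
      (1 + L / V))) +
    L * (A * d ^ 2 * g * (T * m₀ ^ (-(1 / 4) : ℝ) + B)) +
    L * (d ^ 2 * ((T * (Λ * Real.log X + A * b / m₀) + A * (Real.log m₀ * B) + A * (2 * m₀) / b) +
      (2 + 2 * Real.log (b * D)) * (T * Λ))) +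
    d ^ 2 * (T * A * Real.log X + (T * (Λ * Real.log X + A * b / m₀) + A * (Real.log m₀ * B) +
      A * (2 * m₀) / b) + (2 + 2 * Real.log (b * D)) * (T * A)))

theorem asm {δ : ℝ} (hδ : 0 < δ) (hδ1 : δ ≤ 1) : ∃ C : ℝ, 1 ≤ C ∧ ∀ {D : ℕ} [NeZero D]
    {χ : DirichletCharacter ℂ D}, χ.IsPrimitive → ∀ {L : ℝ}, C ≤ L → ∀ {b Dl V₀ T : ℕ}, 1 ≤ b →
    1 ≤ Dl → 1 ≤ V₀ → ∀ {r : ℤ}, ¬ (b : ℤ) ∣ r → ∀ {m₀ X Y W A Λ : ℝ}, 1 ≤ m₀ → m₀ ≤ X →
    X ≤ Y → b * L ≤ Y → 2 * (b : ℝ) * D * Dl * V₀ * X * (1 + L) ≤ W →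
    (∀ x ∈ Set.Icc (1 : ℝ) (T + 1), |(b : ℝ) * x - r| ≤ X) →
    Real.exp (1 / 2) * Real.sqrt (3 / 2 * X) ≤ Dl → 0 ≤ A → 0 ≤ Λ → ∀ {f : ℝ → ℝ},
    (∀ t : ℤ, f t ≠ 0 → t ∈ Icc (1 : ℤ) T) → (∀ x, |f x| ≤ A) →
    (∀ x y, |f x - f y| ≤ Λ * |x - y|) →
    ‖∑ a ∈ Icc (1 : ℤ) T, χ (a : ZMod D) * ((f a * tau ((b : ℤ) * a - r).natAbs : ℝ) : ℂ) -
      ∫ x in (1 : ℝ)..(T + 1), ((f x : ℝ) : ℂ) * Mg χ b r (Real.log ((b : ℝ) * x - r))‖ ≤
      EQ C Y δ L T A Λ b m₀ (2 * m₀ / b + 1) X D Dl V₀ (Int.gcd r b) b.divisors.card W := by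
  obtain ⟨C₁, hC₁, hdiv⟩ := Pool.Agent.FG61.divisor_bound hδ
  obtain ⟨C₂, hC₂, hper⟩ := per_t hδ hδ1
  obtain ⟨C₅, hC₅, hth⟩ := asm_theta
  set C : ℝ := 2 * (24 * C₁ + C₂ + 14 + 1 + C₅) with hC
  clear_value C
  refine ⟨C, by linarith, ?_⟩
  intro D _ χ hχ L hLC b Dl V₀ T hb hDl1 hV r hbr m₀ X Y W A Λ hm hmX hXY hbL hW hX hDl hA0 hΛ0 f
    hf0 hA hΛ
  have hL : 1 ≤ L := by linarith
  have hL0 : 0 < L := by linarith
  have hLC5 : 2 * C₅ ≤ L := by linarith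
  have hD : 1 ≤ D := Nat.one_le_iff_ne_zero.2 (NeZero.ne D)
  have hDR : (1 : ℝ) ≤ D := by exact_mod_cast hD
  have hbR : (1 : ℝ) ≤ b := by exact_mod_cast hb
  have hVR : (1 : ℝ) ≤ V₀ := by exact_mod_cast hV
  have hDlR : (1 : ℝ) ≤ Dl := by exact_mod_cast hDl1
  have hb0 : (0 : ℝ) < b := by linarith
  have hm0 : 0 < m₀ := by linarith
  have hX1 : 1 ≤ X := by linarith
  have hX0 : 0 < X := by linarith
  have hY0 : 0 < Y := by linarith
  have hlX : 0 ≤ Real.log X := Real.log_nonneg hX1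
  have hlm : 0 ≤ Real.log m₀ := Real.log_nonneg hm
  have hT0 : (0 : ℝ) ≤ T := by positivity
  set B : ℝ := 2 * m₀ / b + 1 with hB
  clear_value B
  have hB0 : 0 ≤ B := by rw [hB]; positivity
  have hbad := asm_bad hb r T hm0.le
  rw [← hB] at hbad
  set Bd : ℝ := (((Icc (1 : ℤ) T).filter (fun t => |(((b : ℤ) * t - r : ℤ) : ℝ)| < m₀)).card : ℝ)
    with hBd
  clear_value Bd
  have hBd0 : 0 ≤ Bd := by rw [hBd]; positivity
  set d : ℝ := (b.divisors.card : ℝ) with hd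
  clear_value d
  have hd0 : 0 ≤ d := by rw [hd]; positivity
  set g : ℝ := (Int.gcd r b : ℝ) with hg
  clear_value g
  have hg0 : 0 ≤ g := by rw [hg]; positivity
  have hXt : ∀ t ∈ Icc (1 : ℤ) T, |(((b : ℤ) * t - r : ℤ) : ℝ)| ≤ X := by
    intro t ht
    obtain ⟨ht1, ht2⟩ := Finset.mem_Icc.1 ht
    have ht1' : (1 : ℝ) ≤ t := by exact_mod_cast ht1
    have ht2' : (t : ℝ) ≤ T := by exact_mod_cast ht2
    have := hX t ⟨ht1', by linarith⟩
    push_cast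
    exact this
  set S : ℂ := ∑ a ∈ Icc (1 : ℤ) T, χ (a : ZMod D) * ((f a * tau ((b : ℤ) * a - r).natAbs : ℝ) : ℂ)
    with hS
  clear_value S
  set I : ℂ := ∫ x in (1 : ℝ)..(T + 1), ((f x : ℝ) : ℂ) * Mg χ b r (Real.log ((b : ℝ) * x - r))
    with hI
  clear_value I
  set Θ : ℝ := ∑' m : ℤ, gs L m with hΘ
  clear_value Θ
  have hΘ1 := hth L hL
  rw [← hΘ] at hΘ1
  have hΘ2 : L / 2 ≤ Θ := by
    have := (abs_le.1 hΘ1).1
    linarith
  -- step 1: freezing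
  have h1 := frz hδ hδ1 hC₁ hdiv χ hL hb hbr hXt hDl (f := fun t : ℤ => f t) hA0 hΛ0 (fun t ht => hf0 t ht)
    (fun t => hA t) (fun s t => by
      have := hΛ s t
      push_cast
      exact this) hm0 hXY hbL
  rw [← hΘ, ← hS, ← hBd] at h1
  set Q1 : ℝ := Y ^ δ * L * (L * (T * Λ + A * T * b / m₀) + A * B) with hQ1
  clear_value Q1
  have hQ1' : 12 * C₁ * Y ^ δ * L * (L * (2 * T * Λ + 2 * A * T * b / m₀) + A * Bd) ≤
      24 * C₁ * Q1 := by
    have h2 : L * (2 * T * Λ + 2 * A * T * b / m₀) + A * Bd ≤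
        2 * (L * (T * Λ + A * T * b / m₀) + A * B) := by
      have h3 : A * Bd ≤ 2 * (A * B) := by
        have h31 : A * Bd ≤ A * B := mul_le_mul_of_nonneg_left hbad hA0
        have h32 : 0 ≤ A * B := mul_nonneg hA0 hB0
        linarith
      have h4 : L * (2 * T * Λ + 2 * A * T * b / m₀) = 2 * (L * (T * Λ + A * T * b / m₀)) := by
        field_simp
      linarith
    calc 12 * C₁ * Y ^ δ * L * (L * (2 * T * Λ + 2 * A * T * b / m₀) + A * Bd) ≤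
        12 * C₁ * Y ^ δ * L * (2 * (L * (T * Λ + A * T * b / m₀) + A * B)) :=
          mul_le_mul_of_nonneg_left h2 (by positivity)
      _ = _ := by rw [hQ1]; ring
  set yt : ℤ → ℝ := fun t => Real.log |(((b : ℤ) * t - r : ℤ) : ℝ)| / 2 with hyt
  clear_value yt
  have hmt1 : ∀ t : ℤ, 1 ≤ |(((b : ℤ) * t - r : ℤ) : ℝ)| := by
    intro t
    have hne : (b : ℤ) * t - r ≠ 0 := by
      intro h
      exact hbr ⟨t, by linarith⟩
    have : (1 : ℤ) ≤ |(b : ℤ) * t - r| := Int.one_le_abs hne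
    exact_mod_cast this
  have hcard : ((Icc (1 : ℤ) T).card : ℝ) = T := by
    rw [Int.card_Icc]
    congr 1
    omega
  -- step 2
  set Q2 : ℝ := T * A * (W ^ δ * ((1 + X / (b * L)) * (V₀ * D) * (Dl * g / b +
      (b * (V₀ * D)) ^ (3 / 4 : ℝ)) + (1 + L / V₀))) with hQ2
  clear_value Q2
  have h2 : ‖∑ t ∈ Icc (1 : ℤ) T, ((f t : ℝ) : ℂ) * Sd χ L b r t Dl (yt t) -
      (L : ℂ) * ∑ t ∈ Icc (1 : ℤ) T, ((f t : ℝ) : ℂ) * Md χ b r Dl (yt t)‖ ≤ C₂ * Q2 := by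
    rw [Finset.mul_sum, ← Finset.sum_sub_distrib]
    have h3 : ∀ t ∈ Icc (1 : ℤ) T, ‖((f t : ℝ) : ℂ) * Sd χ L b r t Dl (yt t) -
        (L : ℂ) * (((f t : ℝ) : ℂ) * Md χ b r Dl (yt t))‖ ≤ A * (C₂ * (W ^ δ *
        ((1 + X / (b * L)) * (V₀ * D) * (Dl * g / b + (b * (V₀ * D)) ^ (3 / 4 : ℝ)) +
          (1 + L / V₀)))) := by
      intro t ht
      have e1 : ((f t : ℝ) : ℂ) * Sd χ L b r t Dl (yt t) -
        (L : ℂ) * (((f t : ℝ) : ℂ) * Md χ b r Dl (yt t)) =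
        ((f t : ℝ) : ℂ) * (Sd χ L b r t Dl (yt t) - (L : ℂ) * Md χ b r Dl (yt t)) := by ring
      rw [e1, norm_mul, Complex.norm_real, Real.norm_eq_abs]
      refine mul_le_mul (hA _) ?_ (norm_nonneg _) hA0
      refine (hper hχ hL hb hDl1 hV r t hbr (yt t)).trans ?_
      have e2 : |((r - b * t : ℤ) : ℝ)| = |(((b : ℤ) * t - r : ℤ) : ℝ)| := by
        rw [← abs_neg]
        congr 1
        push_cast
        ring
      have h4 := hXt t ht
      have h5 := hmt1 t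
      rw [e2, ← hg]
      set ρ : ℝ := |(((b : ℤ) * t - r : ℤ) : ℝ)| with hρ
      have h6 : (2 * (b : ℝ) * D * Dl * V₀ * ρ * (1 + L)) ^ δ ≤ W ^ δ := by
        apply Real.rpow_le_rpow (by positivity) _ hδ.le
        refine le_trans ?_ hW
        gcongr
      have hW0 : 0 ≤ W ^ δ := le_trans (by positivity) h6
      rw [mul_assoc C₂]
      refine mul_le_mul_of_nonneg_left ?_ (by linarith)
      refine mul_le_mul h6 ?_ (by positivity) hW0
      gcongr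
    refine (norm_sum_le_of_le _ h3).trans (le_of_eq ?_)
    rw [Finset.sum_const, nsmul_eq_mul, hcard, hQ2]
    ring
  -- step 3
  set Q3 : ℝ := A * d ^ 2 * g * (T * m₀ ^ (-(1 / 4) : ℝ) + B) with hQ3
  clear_value Q3
  have h3 : ‖∑ t ∈ Icc (1 : ℤ) T, ((f t : ℝ) : ℂ) * Md χ b r Dl (yt t) -
      ∑ t ∈ Icc (1 : ℤ) T, ((f t : ℝ) : ℂ) * Mg χ b r (2 * yt t)‖ ≤ 14 * Q3 := by
    rw [← Finset.sum_sub_distrib]
    have h4 : ∀ t ∈ Icc (1 : ℤ) T, ‖((f t : ℝ) : ℂ) * Md χ b r Dl (yt t) -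
        ((f t : ℝ) : ℂ) * Mg χ b r (2 * yt t)‖ ≤ A * (14 * d ^ 2 * g * (m₀ ^ (-(1 / 4) : ℝ) +
          if |(((b : ℤ) * t - r : ℤ) : ℝ)| < m₀ then 1 else 0)) := by
      intro t ht
      rw [← mul_sub, norm_mul, Complex.norm_real, Real.norm_eq_abs]
      refine mul_le_mul (hA _) ?_ (norm_nonneg _) hA0
      have h5 := hmt1 t
      have hρ0 : 0 < |(((b : ℤ) * t - r : ℤ) : ℝ)| := by linarith
      have h6 : Real.exp (yt t + 1 / 2) ≤ Dl := by
        refine le_trans ?_ hDl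
        rw [Real.exp_add, mul_comm]
        refine mul_le_mul_of_nonneg_left ?_ (Real.exp_pos _).le
        simp only [hyt]
        rw [← Real.log_sqrt hρ0.le, Real.exp_log (Real.sqrt_pos.2 hρ0)]
        apply Real.sqrt_le_sqrt
        have := hXt t ht
        linarith
      refine (mdn_err χ hb r h6).trans ?_
      rw [← hd, ← hg]
      refine mul_le_mul_of_nonneg_left ?_ (by positivity)
      have e3 : Real.exp (-(yt t / 2)) = |(((b : ℤ) * t - r : ℤ) : ℝ)| ^ (-(1 / 4) : ℝ) := by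
        rw [Real.rpow_def_of_pos hρ0]
        congr 1
        simp only [hyt]
        ring
      rw [e3]
      have h7 : 0 ≤ m₀ ^ (-(1 / 4) : ℝ) := by positivity
      split_ifs with hs
      · have h8 : |(((b : ℤ) * t - r : ℤ) : ℝ)| ^ (-(1 / 4) : ℝ) ≤ 1 :=
          Real.rpow_le_one_of_one_le_of_nonpos h5 (by norm_num)
        linarith
      · rw [add_zero]
        exact Real.rpow_le_rpow_of_nonpos hm0 (not_lt.1 hs) (by norm_num)
    refine (norm_sum_le_of_le _ h4).trans ?_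
    rw [← Finset.mul_sum, ← Finset.mul_sum, Finset.sum_add_distrib, Finset.sum_const, nsmul_eq_mul,
      hcard, ← Finset.sum_filter, Finset.sum_const, nsmul_eq_mul, mul_one, ← hBd, hQ3]
    calc A * (14 * d ^ 2 * g * (T * m₀ ^ (-(1 / 4) : ℝ) + Bd)) ≤
        A * (14 * d ^ 2 * g * (T * m₀ ^ (-(1 / 4) : ℝ) + B)) := by gcongr
      _ = _ := by ring
  -- step 4
  have hfc : Continuous f := by
    have : LipschitzWith ⟨Λ, hΛ0⟩ f := by
      apply LipschitzWith.of_dist_le_mul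
      intro x y
      rw [Real.dist_eq, Real.dist_eq]
      exact hΛ x y
    exact this.continuous
  set SL : ℝ := T * (Λ * Real.log X + A * b / m₀) + A * (Real.log m₀ * B) + A * (2 * m₀) / b with hSL
  clear_value SL
  have hSL0 : 0 ≤ SL := by rw [hSL]; positivity
  set J1 : ℝ := ∫ x in (1 : ℝ)..(T + 1), f x * Real.log ((b : ℝ) * x - r) with hJ1
  clear_value J1
  set J0 : ℝ := ∫ x in (1 : ℝ)..(T + 1), f x with hJ0
  clear_value J0
  have hI1 : I = mgA χ b r * (J1 : ℂ) + Mg χ b r 0 * (J0 : ℂ) := by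
    rw [hI, hJ1, hJ0, ← intervalIntegral.integral_ofReal, ← intervalIntegral.integral_ofReal,
      ← intervalIntegral.integral_const_mul, ← intervalIntegral.integral_const_mul,
      ← intervalIntegral.integral_add]
    · apply intervalIntegral.integral_congr
      intro x _
      simp only
      rw [mg_lin]
      push_cast
      ring
    · refine IntervalIntegrable.const_mul ?_ _
      have hi := (sum_logint hb0 r 1 (T + 1)).continuousOn_mul hfc.continuousOn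
      exact ⟨hi.1.ofReal, hi.2.ofReal⟩
    · refine IntervalIntegrable.const_mul ?_ _
      have hi : IntervalIntegrable f volume 1 (T + 1) := hfc.intervalIntegrable _ _
      exact ⟨hi.1.ofReal, hi.2.ofReal⟩
  set S1 : ℝ := ∑ t ∈ Icc (1 : ℤ) T, f t * Real.log |(((b : ℤ) * t - r : ℤ) : ℝ)| with hS1
  clear_value S1
  set S0 : ℝ := ∑ t ∈ Icc (1 : ℤ) T, f t with hS0
  clear_value S0
  have hsl := sum_log hA0 hΛ0 hA hΛ hb hbr hm hmX hX
  rw [← hS1, ← hJ1, ← hBd] at hsl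
  have hsl' : |S1 - J1| ≤ SL := by
    refine hsl.trans ?_
    rw [hSL]
    gcongr
  have hs0 : |S0 - J0| ≤ T * Λ := by
    rw [hS0, hJ0]
    exact sum_lip T (fun x _ y _ => hΛ x y) hΛ0 hfc
  have hMg : ∑ t ∈ Icc (1 : ℤ) T, ((f t : ℝ) : ℂ) * Mg χ b r (2 * yt t) =
      mgA χ b r * (S1 : ℂ) + Mg χ b r 0 * (S0 : ℂ) := by
    rw [hS1, hS0, Complex.ofReal_sum, Complex.ofReal_sum, Finset.mul_sum, Finset.mul_sum,
      ← Finset.sum_add_distrib]
    refine Finset.sum_congr rfl fun t _ => ?_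
    rw [mg_lin]
    have e4 : 2 * yt t = Real.log |(((b : ℤ) * t - r : ℤ) : ℝ)| := by
      simp only [hyt]; ring
    rw [e4, Complex.ofReal_mul]
    ring
  have hA1 := mgA_le χ b r
  have hB1 := mg0_le χ hb r
  rw [← hd] at hA1 hB1
  set lb : ℝ := 2 + 2 * Real.log ((b : ℝ) * D) with hlb
  clear_value lb
  have hbD : (1 : ℝ) ≤ (b : ℝ) * D := one_le_mul_of_one_le_of_one_le hbR hDR
  have hlb0 : 0 ≤ lb := by
    have := Real.log_nonneg hbD
    rw [hlb]; linarith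
  have h4 : ‖∑ t ∈ Icc (1 : ℤ) T, ((f t : ℝ) : ℂ) * Mg χ b r (2 * yt t) - I‖ ≤
      d ^ 2 * (SL + lb * (T * Λ)) := by
    rw [hMg, hI1]
    have e5 : mgA χ b r * (S1 : ℂ) + Mg χ b r 0 * (S0 : ℂ) -
        (mgA χ b r * (J1 : ℂ) + Mg χ b r 0 * (J0 : ℂ)) =
        mgA χ b r * ((S1 - J1 : ℝ) : ℂ) + Mg χ b r 0 * ((S0 - J0 : ℝ) : ℂ) := by
      push_cast; ring
    rw [e5]
    refine (norm_add_le _ _).trans ?_
    rw [norm_mul, norm_mul, Complex.norm_real, Complex.norm_real, Real.norm_eq_abs,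
      Real.norm_eq_abs]
    calc ‖mgA χ b r‖ * |S1 - J1| + ‖Mg χ b r 0‖ * |S0 - J0| ≤
        d ^ 2 * SL + (d ^ 2 * lb) * (T * Λ) := by gcongr
      _ = _ := by ring
  have h5 : ‖I‖ ≤ d ^ 2 * (T * A * Real.log X + SL + lb * (T * A)) := by
    rw [hI1]
    have hJ1b : |J1| ≤ T * A * Real.log X + SL := by
      have h6 : |S1| ≤ T * A * Real.log X := by
        rw [hS1]
        have h7 : ∀ t ∈ Icc (1 : ℤ) T, |f t * Real.log (|(((b : ℤ) * t - r : ℤ) : ℝ)|)| ≤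
            A * Real.log X := by
          intro t ht
          have h8 : 0 ≤ Real.log |(((b : ℤ) * t - r : ℤ) : ℝ)| := Real.log_nonneg (hmt1 t)
          rw [abs_mul, abs_of_nonneg h8]
          refine mul_le_mul (hA _) (Real.log_le_log (by linarith [hmt1 t]) (hXt t ht)) h8 hA0
        refine (Finset.abs_sum_le_sum_abs _ _).trans ((Finset.sum_le_sum h7).trans (le_of_eq ?_))
        rw [Finset.sum_const, nsmul_eq_mul, hcard]
        ring
      calc |J1| = |S1 - (S1 - J1)| := by ring_nf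
        _ ≤ |S1| + |S1 - J1| := abs_sub _ _
        _ ≤ _ := add_le_add h6 hsl'
    have hJ0b : |J0| ≤ T * A := by
      have h6 := intervalIntegral.norm_integral_le_of_norm_le_const (a := (1 : ℝ))
        (b := (T : ℝ) + 1) (C := A) (f := f) (fun x _ => hA x)
      rw [Real.norm_eq_abs, ← hJ0] at h6
      have e6 : |(T : ℝ) + 1 - 1| = T := by
        rw [add_sub_cancel_right, abs_of_nonneg hT0]
      rw [e6] at h6
      linarith
    refine (norm_add_le _ _).trans ?_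
    rw [norm_mul, norm_mul, Complex.norm_real, Complex.norm_real, Real.norm_eq_abs,
      Real.norm_eq_abs]
    calc ‖mgA χ b r‖ * |J1| + ‖Mg χ b r 0‖ * |J0| ≤
        d ^ 2 * (T * A * Real.log X + SL) + (d ^ 2 * lb) * (T * A) := by gcongr
      _ = _ := by ring
  -- conclusion
  have hfin : Θ * ‖S - I‖ ≤ 24 * C₁ * Q1 + C₂ * Q2 + L * (14 * Q3) +
      L * (d ^ 2 * (SL + lb * (T * Λ))) + C₅ * (d ^ 2 * (T * A * Real.log X + SL + lb * (T * A))) := by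
    have hΘ0 : 0 ≤ Θ := by linarith
    have e7 : Θ * ‖S - I‖ = ‖(Θ : ℂ) * (S - I)‖ := by
      rw [norm_mul, Complex.norm_real, Real.norm_of_nonneg hΘ0]
    rw [e7]
    have e8 : (Θ : ℂ) * (S - I) =
        ((Θ : ℂ) * S - ∑ t ∈ Icc (1 : ℤ) T, ((f t : ℝ) : ℂ) * Sd χ L b r t Dl (yt t)) +
        (∑ t ∈ Icc (1 : ℤ) T, ((f t : ℝ) : ℂ) * Sd χ L b r t Dl (yt t) -
          (L : ℂ) * ∑ t ∈ Icc (1 : ℤ) T, ((f t : ℝ) : ℂ) * Md χ b r Dl (yt t)) +
        (L : ℂ) * (∑ t ∈ Icc (1 : ℤ) T, ((f t : ℝ) : ℂ) * Md χ b r Dl (yt t) -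
          ∑ t ∈ Icc (1 : ℤ) T, ((f t : ℝ) : ℂ) * Mg χ b r (2 * yt t)) +
        (L : ℂ) * (∑ t ∈ Icc (1 : ℤ) T, ((f t : ℝ) : ℂ) * Mg χ b r (2 * yt t) - I) -
        ((Θ - L : ℝ) : ℂ) * I := by
      push_cast; ring
    rw [e8]
    refine (norm_sub_le _ _).trans ?_
    refine (add_le_add (norm_add_le _ _) le_rfl).trans ?_
    refine (add_le_add (add_le_add (norm_add_le _ _) le_rfl) le_rfl).trans ?_
    refine (add_le_add (add_le_add (add_le_add (norm_add_le _ _) le_rfl) le_rfl) le_rfl).trans ?_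
    have h10 : ‖(L : ℂ) * (∑ t ∈ Icc (1 : ℤ) T, ((f t : ℝ) : ℂ) * Md χ b r Dl (yt t) -
          ∑ t ∈ Icc (1 : ℤ) T, ((f t : ℝ) : ℂ) * Mg χ b r (2 * yt t))‖ ≤ L * (14 * Q3) := by
      rw [norm_mul, Complex.norm_real, Real.norm_of_nonneg hL0.le]
      exact mul_le_mul_of_nonneg_left h3 hL0.le
    have h11 : ‖(L : ℂ) * (∑ t ∈ Icc (1 : ℤ) T, ((f t : ℝ) : ℂ) * Mg χ b r (2 * yt t) - I)‖ ≤
        L * (d ^ 2 * (SL + lb * (T * Λ))) := by
      rw [norm_mul, Complex.norm_real, Real.norm_of_nonneg hL0.le]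
      exact mul_le_mul_of_nonneg_left h4 hL0.le
    have h12 : ‖((Θ - L : ℝ) : ℂ) * I‖ ≤ C₅ * (d ^ 2 * (T * A * Real.log X + SL + lb * (T * A))) := by
      rw [norm_mul, Complex.norm_real, Real.norm_eq_abs]
      exact mul_le_mul hΘ1 h5 (norm_nonneg _) (by linarith)
    have h13 : ‖(Θ : ℂ) * S - ∑ t ∈ Icc (1 : ℤ) T, ((f t : ℝ) : ℂ) * Sd χ L b r t Dl (yt t)‖ ≤
        24 * C₁ * Q1 := by
      rw [hyt]
      exact h1.trans hQ1'
    linarith
  have hlog : 0 ≤ ‖S - I‖ := norm_nonneg _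
  have hQ10 : 0 ≤ Q1 := by rw [hQ1]; positivity
  have hQ20 : 0 ≤ Q2 := by
    have : 0 ≤ W := le_trans (by positivity) hW
    rw [hQ2]
    positivity
  have hQ30 : 0 ≤ Q3 := by rw [hQ3]; positivity
  have hR4 : 0 ≤ d ^ 2 * (SL + lb * (T * Λ)) := by positivity
  have hR5 : 0 ≤ d ^ 2 * (T * A * Real.log X + SL + lb * (T * A)) := by positivity
  have e9 : EQ C Y δ L T A Λ b m₀ B X D Dl V₀ g d W = C / L * (Q1 + Q2 + L * Q3 +
      L * (d ^ 2 * (SL + lb * (T * Λ))) + d ^ 2 * (T * A * Real.log X + SL + lb * (T * A))) := by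
    unfold EQ
    rw [hQ1, hQ2, hQ3, hSL, hlb]
  rw [e9, div_mul_eq_mul_div, le_div_iff₀ hL0]
  have h14 : ‖S - I‖ * L ≤ 2 * (Θ * ‖S - I‖) := by
    have h140 : L ≤ 2 * Θ := by linarith
    calc ‖S - I‖ * L ≤ ‖S - I‖ * (2 * Θ) := mul_le_mul_of_nonneg_left h140 hlog
      _ = 2 * (Θ * ‖S - I‖) := by ring
  refine h14.trans ?_
  have h15 : 2 * (24 * C₁ * Q1 + C₂ * Q2 + L * (14 * Q3) +
      L * (d ^ 2 * (SL + lb * (T * Λ))) + C₅ * (d ^ 2 * (T * A * Real.log X + SL + lb * (T * A)))) ≤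
      C * (Q1 + Q2 + L * Q3 + L * (d ^ 2 * (SL + lb * (T * Λ))) +
        d ^ 2 * (T * A * Real.log X + SL + lb * (T * A))) := by
    set R4 : ℝ := d ^ 2 * (SL + lb * (T * Λ)) with hR4d
    set R5 : ℝ := d ^ 2 * (T * A * Real.log X + SL + lb * (T * A)) with hR5d
    have hLQ : 0 ≤ L * Q3 := by positivity
    have hLR : 0 ≤ L * R4 := by positivity
    have i1 : 2 * (24 * C₁) * Q1 ≤ C * Q1 := mul_le_mul_of_nonneg_right (by linarith) hQ10
    have i2 : 2 * C₂ * Q2 ≤ C * Q2 := mul_le_mul_of_nonneg_right (by linarith) hQ20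
    have i3 : 2 * 14 * (L * Q3) ≤ C * (L * Q3) := mul_le_mul_of_nonneg_right (by linarith) hLQ
    have i4 : 2 * (L * R4) ≤ C * (L * R4) := mul_le_mul_of_nonneg_right (by linarith) hLR
    have i5 : 2 * C₅ * R5 ≤ C * R5 := mul_le_mul_of_nonneg_right (by linarith) hR5
    linarith
  linarith

end

end Pool.Agent.EXB
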