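import Pool.Agent.Lib_helper19.EXB.Defs
import Pool.Agent.Lib_helper19.LSPD.ABL
import Pool.Agent.Lib_helper19.LSPD.EEF
import Pool.Agent.Lib_helper19.LSPD.IKB
import Pool.Agent.Lib_helper19.LSPD.PHA
import Pool.Agent.Lib_helper19.LSPD.SMH
import Pool.Agent.Lib_helper19.LSPD.TQQ

/-! EXC, part B: the incomplete sums. -/

set_option autoImplicit false

namespace Pool.Agent.EXB

open Pool.Agent.LSPD (tau gs IK ph gs_poisson pha abl smh ik_bound eef_summable eef_split tqq_z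
  tqq_z_norm tqq_z_sum tqq_summ tqq_log)
open Pool.Agent.Var35 (e)
open Finset

noncomputable section

theorem cg_cls {p l k : ℕ} (hk : 1 ≤ k) (hl : 1 ≤ l) (hc : Nat.Coprime k (p * l)) (r s : ℤ) :
    ∃ s' : ℤ, ∀ m : ℤ, ((k : ℤ) ∣ p * m - r ∧ (l : ℤ) ∣ m - s) ↔ ((k * l : ℕ) : ℤ) ∣ m - s' := by
  have hcp : IsCoprime (k : ℤ) (p : ℤ) :=
    Nat.isCoprime_iff_coprime.2 (Nat.Coprime.coprime_dvd_right (Dvd.intro l rfl) hc)
  have hcl : IsCoprime (k : ℤ) (l : ℤ) :=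
    Nat.isCoprime_iff_coprime.2 (Nat.Coprime.coprime_dvd_right (Dvd.intro_left p rfl) hc)
  obtain ⟨a, b, hab⟩ := hcp
  obtain ⟨c, d, hcd⟩ := hcl
  -- m = b r mod k, m = s mod l
  refine ⟨(b * r) * (d * l) + s * (c * k), fun m => ?_⟩
  have hkl : ((k * l : ℕ) : ℤ) = (k : ℤ) * l := by push_cast; ring
  rw [hkl]
  have e1 : (k : ℤ) ∣ p * m - r ↔ (k : ℤ) ∣ m - b * r := by
    constructor
    · intro h
      have h2 : (k : ℤ) ∣ b * (p * m - r) + a * k * m := dvd_add (Dvd.dvd.mul_left h b) ⟨a * m, by ring⟩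
      have e2 : b * (p * m - r) + a * k * m = m * (a * k + b * p) - b * r := by ring
      rw [e2, hab, mul_one] at h2
      exact h2
    · intro h
      have h2 : (k : ℤ) ∣ p * (m - b * r) - a * k * r := dvd_sub (Dvd.dvd.mul_left h _) ⟨a * r, by ring⟩
      have e2 : p * (m - b * r) - a * k * r = p * m - r * (a * k + b * p) := by ring
      rw [e2, hab, mul_one] at h2
      exact h2
  have e3 : (k : ℤ) ∣ m - b * r ↔ (k : ℤ) ∣ m - ((b * r) * (d * l) + s * (c * k)) := by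
    have e4 : m - ((b * r) * (d * l) + s * (c * k)) = (m - b * r) + k * (c * (b * r) - s * c) := by
      have : (b * r) * (d * l) = b * r - b * r * (c * k) := by
        have := congrArg (fun x => b * r * x) hcd
        linarith
      rw [this]; ring
    rw [e4]
    exact (dvd_add_left ⟨_, rfl⟩).symm
  have e5 : (l : ℤ) ∣ m - s ↔ (l : ℤ) ∣ m - ((b * r) * (d * l) + s * (c * k)) := by
    have e4 : m - ((b * r) * (d * l) + s * (c * k)) = (m - s) + l * (s * d - (b * r) * d) := by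
      have : s * (c * k) = s - s * (d * l) := by
        have := congrArg (fun x => s * x) hcd
        linarith
      rw [this]; ring
    rw [e4]
    exact (dvd_add_left ⟨_, rfl⟩).symm
  rw [e1, e3, e5]
  constructor
  · rintro ⟨h1, h2⟩
    exact IsCoprime.mul_dvd ⟨c, d, hcd⟩ h1 h2
  · intro h
    exact ⟨(Dvd.intro _ rfl).trans h, (Dvd.intro_left _ rfl).trans h⟩

theorem cg_sum {L : ℝ} {p l k : ℕ} (hk : 1 ≤ k) (hl : 1 ≤ l) {r s s' : ℤ}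
    (hs : ∀ m : ℤ, ((k : ℤ) ∣ p * m - r ∧ (l : ℤ) ∣ m - s) ↔ ((k * l : ℕ) : ℤ) ∣ m - s') :
    Cg L p l r s k = ∑' j : ℤ, gs L (s' + ((k * l : ℕ) : ℤ) * j) := by
  have hkl : ((k * l : ℕ) : ℤ) ≠ 0 := by
    have : k * l ≠ 0 := by positivity
    exact_mod_cast this
  have hinj : Function.Injective (fun j : ℤ => s' + ((k * l : ℕ) : ℤ) * j) := by
    intro a b hab
    have h4 : ((k * l : ℕ) : ℤ) * a = ((k * l : ℕ) : ℤ) * b := by
      simpa using hab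
    exact mul_left_cancel₀ hkl h4
  unfold Cg
  rw [← hinj.tsum_eq]
  · refine tsum_congr (fun j => ?_)
    rw [if_pos]
    rw [hs]
    exact ⟨j, by ring⟩
  · intro m hm
    by_contra hc
    apply hm
    simp only
    rw [if_neg]
    intro h4
    rw [hs] at h4
    obtain ⟨j, hj⟩ := h4
    exact hc ⟨j, by simp only; rw [← hj]; ring⟩

theorem eg_fourier {L : ℝ} (hL : 0 < L) {p l k : ℕ} (hk : 1 ≤ k) (hl : 1 ≤ l) {r s s' : ℤ}
    (hs : ∀ m : ℤ, ((k : ℤ) ∣ p * m - r ∧ (l : ℤ) ∣ m - s) ↔ ((k * l : ℕ) : ℤ) ∣ m - s') :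
    ((Eg L p l r s k : ℝ) : ℂ) = ∑' n : ℕ,
      (((L / ((k * l : ℕ) : ℝ) * Real.exp (-Real.pi * (L * ((n : ℝ) + 1) / ((k * l : ℕ) : ℝ)) ^ 2) : ℝ) : ℂ) *
        e (((n : ℝ) + 1) * s' / ((k * l : ℕ) : ℝ)) +
       ((L / ((k * l : ℕ) : ℝ) * Real.exp (-Real.pi * (L * ((n : ℝ) + 1) / ((k * l : ℕ) : ℝ)) ^ 2) : ℝ) : ℂ) *
        e (-(((n : ℝ) + 1) * s' / ((k * l : ℕ) : ℝ)))) := by
  have hT := cg_sum (L := L) hk hl hs
  have hl1 : 1 ≤ k * l := Nat.mul_pos hk hl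
  have hP := gs_poisson hL hl1 s'
  obtain ⟨q, hq⟩ : ∃ q : ℕ, q = k * l := ⟨_, rfl⟩
  unfold Eg
  rw [← hq] at hT hP hl1 ⊢
  have hl0 : (0 : ℝ) < q := by exact_mod_cast hl1
  have hc : 0 < L / q := div_pos hL hl0
  obtain ⟨f, hf⟩ : ∃ f : ℤ → ℂ, f = fun h : ℤ =>
      ((Real.exp (-Real.pi * (L * h / q) ^ 2) : ℝ) : ℂ) * e ((h : ℝ) * s' / q) := ⟨_, rfl⟩
  have hn1 : ∀ n : ℕ, f (n + 1) = ((Real.exp (-Real.pi * (L * ((n : ℝ) + 1) / q) ^ 2) : ℝ) : ℂ) *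
      e (((n : ℝ) + 1) * s' / q) := by
    intro n
    rw [hf]
    push_cast
    rfl
  have hn2 : ∀ n : ℕ, f (-(n + 1)) =
      ((Real.exp (-Real.pi * (L * ((n : ℝ) + 1) / q) ^ 2) : ℝ) : ℂ) *
      e (-(((n : ℝ) + 1) * s' / q)) := by
    intro n
    rw [hf]
    simp only
    have e1 : (((-((n : ℤ) + 1)) : ℤ) : ℝ) = -((n : ℝ) + 1) := by push_cast; ring
    rw [e1]
    have e2 : L * -((n : ℝ) + 1) / q = -(L * ((n : ℝ) + 1) / q) := by ring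
    have e3 : -((n : ℝ) + 1) * s' / q = -(((n : ℝ) + 1) * s' / q) := by ring
    rw [e2, e3, neg_sq]
  have hS := eef_summable hc
  have hnorm : ∀ (n : ℕ) (x : ℝ), ‖((Real.exp (-Real.pi * (L * ((n : ℝ) + 1) / q) ^ 2) : ℝ) : ℂ) *
      e x‖ = Real.exp (-Real.pi * (L / q * ((n : ℝ) + 1)) ^ 2) := by
    intro n x
    rw [norm_mul, Pool.Agent.Var35.norm_e, mul_one, Complex.norm_real,
      Real.norm_of_nonneg (Real.exp_pos _).le]
    congr 2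
    ring
  have s1 : Summable (fun n : ℕ => f (n + 1)) := by
    refine Summable.of_norm ?_
    refine hS.congr (fun n => ?_)
    rw [hn1, hnorm]
  have s2 : Summable (fun n : ℕ => f (-(n + 1))) := by
    refine Summable.of_norm ?_
    refine hS.congr (fun n => ?_)
    rw [hn2, hnorm]
  have hsplit := eef_split s1 s2
  have hf0 : f 0 = 1 := by
    rw [hf]
    simp [Pool.Agent.Var35.e_zero]
  have hEE : ((Cg L p l r s k - L / q : ℝ) : ℂ) =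
      ((L / q : ℝ) : ℂ) * ∑' n : ℕ, (f (n + 1) + f (-(n + 1))) := by
    rw [hT, Complex.ofReal_sub, hP]
    have : (∑' h : ℤ, ((Real.exp (-Real.pi * (L * h / q) ^ 2) : ℝ) : ℂ) *
        e ((h : ℝ) * s' / q)) = ∑' h : ℤ, f h := by rw [hf]
    rw [this, hsplit, hf0, mul_add, mul_one]
    ring
  rw [hEE, ← tsum_mul_left]
  refine tsum_congr (fun n => ?_)
  rw [hn1, hn2]
  push_cast
  ring

theorem eg_four {L : ℝ} (hL : 0 < L) {p l k : ℕ} (hk : 1 ≤ k) (hl : 1 ≤ l)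
    (hc : Nat.Coprime k (p * l)) (r s : ℤ) [NeZero (p * l)] :
    ((Eg L p l r s k : ℝ) : ℂ) = ∑' n : ℕ,
      (ph L l (p * l) r ((n : ℤ) + 1) k *
        ZMod.stdAddChar (((((n : ℤ) + 1) * (p * s - r) : ℤ) : ZMod (p * l)) *
          (k : ZMod (p * l))⁻¹) +
       ph L l (p * l) r (-((n : ℤ) + 1)) k *
        ZMod.stdAddChar ((((-((n : ℤ) + 1)) * (p * s - r) : ℤ) : ZMod (p * l)) *
          (k : ZMod (p * l))⁻¹)) := by
  obtain ⟨s', hs'⟩ := cg_cls hk hl hc r s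
  have hs0 := (hs' s').2 (by simp)
  rw [eg_fourier hL hk hl hs']
  refine tsum_congr fun n => ?_
  have b1 := pha (p := p) (l := l) hk hc hs0.1 hs0.2 ((n : ℤ) + 1)
  have b2 := pha (p := p) (l := l) hk hc hs0.1 hs0.2 (-((n : ℤ) + 1))
  unfold ph
  push_cast at b1 b2 ⊢
  have c2 : e (-(((n : ℝ) + 1) * s' / (k * l))) =
      e (-((n : ℝ) + 1) * s' / (k * l)) := by congr 1; ring
  have c3 : ((L : ℂ) * -((n : ℂ) + 1) / (k * l)) ^ 2 =
      ((L : ℂ) * ((n : ℂ) + 1) / (k * l)) ^ 2 := by ring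
  rw [c2, c3, b1, b2]
  ring

theorem eg_expand {L : ℝ} (hL : 0 < L) {p l : ℕ} (hl : 1 ≤ l) (r s : ℤ) (K : ℕ)
    [NeZero (p * l)] :
    ((∑ k ∈ (Icc 1 K).filter (fun k => Nat.Coprime k (p * l)), Eg L p l r s k : ℝ) : ℂ) =
      ∑' n : ℕ, (∑ k ∈ Icc 1 K, ph L l (p * l) r ((n : ℤ) + 1) k *
          tqq_z (p * l) (p * s - r) ((n : ℤ) + 1) k +
        ∑ k ∈ Icc 1 K, ph L l (p * l) r (-((n : ℤ) + 1)) k *
          tqq_z (p * l) (p * s - r) (-((n : ℤ) + 1)) k) := by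
  have h2 : ∀ n : ℕ, (∑ k ∈ Icc 1 K, ph L l (p * l) r ((n : ℤ) + 1) k *
          tqq_z (p * l) (p * s - r) ((n : ℤ) + 1) k +
        ∑ k ∈ Icc 1 K, ph L l (p * l) r (-((n : ℤ) + 1)) k *
          tqq_z (p * l) (p * s - r) (-((n : ℤ) + 1)) k) =
      ∑ k ∈ Icc 1 K, (ph L l (p * l) r ((n : ℤ) + 1) k *
          tqq_z (p * l) (p * s - r) ((n : ℤ) + 1) k +
        ph L l (p * l) r (-((n : ℤ) + 1)) k *
          tqq_z (p * l) (p * s - r) (-((n : ℤ) + 1)) k) := by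
    intro n
    rw [Finset.sum_add_distrib]
  rw [tsum_congr h2, Summable.tsum_finsetSum, Finset.sum_filter]
  · push_cast
    refine Finset.sum_congr rfl fun k hk => ?_
    have hk1 : 1 ≤ k := (Finset.mem_Icc.1 hk).1
    by_cases hc : Nat.Coprime k (p * l)
    · rw [if_pos hc, eg_four hL hk1 hl hc r s]
      refine tsum_congr fun n => ?_
      unfold tqq_z
      rw [if_pos hc, if_pos hc]
    · have h4 : ∀ n : ℕ, (ph L l (p * l) r ((n : ℤ) + 1) k *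
          tqq_z (p * l) (p * s - r) ((n : ℤ) + 1) k +
        ph L l (p * l) r (-((n : ℤ) + 1)) k *
          tqq_z (p * l) (p * s - r) (-((n : ℤ) + 1)) k) = 0 := by
        intro n
        unfold tqq_z
        rw [if_neg hc, if_neg hc, mul_zero, mul_zero, add_zero]
      rw [tsum_congr h4, tsum_zero, if_neg hc, Complex.ofReal_zero]
  · intro k hk
    have hk1 : 1 ≤ k := (Finset.mem_Icc.1 hk).1
    exact tqq_summ L hL hl r hk1 (fun n => tqq_z (p * l) (p * s - r) ((n : ℤ) + 1) k)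
      (fun n => tqq_z (p * l) (p * s - r) (-((n : ℤ) + 1)) k)
      (fun n => tqq_z_norm _ _ _ _) (fun n => tqq_z_norm _ _ _ _)

theorem int_gcd_mul_le (a A : ℤ) {q : ℕ} (hq : 1 ≤ q) :
    (Int.gcd (a * A) (q : ℤ) : ℝ) ≤ (Int.gcd a (q : ℤ) : ℝ) * (Int.gcd A (q : ℤ) : ℝ) := by
  have h1 : Int.gcd (a * A) (q : ℤ) ∣ Int.gcd a (q : ℤ) * Int.gcd A (q : ℤ) := by
    have h0 := Nat.gcd_mul_right_dvd_mul_gcd q a.natAbs A.natAbs
    rw [Nat.gcd_comm q, Nat.gcd_comm q, Nat.gcd_comm q] at h0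
    simpa [Int.gcd, Int.natAbs_mul] using h0
  have h2 : 0 < Int.gcd a (q : ℤ) * Int.gcd A (q : ℤ) := by
    apply Nat.mul_pos
    · exact Int.gcd_pos_of_ne_zero_right _ (by exact_mod_cast (by omega : q ≠ 0))
    · exact Int.gcd_pos_of_ne_zero_right _ (by exact_mod_cast (by omega : q ≠ 0))
  exact_mod_cast Nat.le_of_dvd h2 h1

theorem eg_one {L : ℝ} (hL : 0 < L) {p l : ℕ} (hp : 1 ≤ p) (hl : 1 ≤ l) (r s : ℤ) {K₀ : ℕ}
    (hK : 1 ≤ K₀) [NeZero (p * l)] (n : ℕ) (a : ℤ) (ha : a = (n : ℤ) + 1 ∨ a = -((n : ℤ) + 1)) :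
    ‖∑ k ∈ Icc 1 K₀, ph L l (p * l) r a k * tqq_z (p * l) (p * s - r) a k‖ ≤
      ((K₀ : ℝ) / ((p * l : ℕ) : ℝ) * (Int.gcd (p * s - r) ((p * l : ℕ) : ℤ) : ℝ) +
        2 * (((p * l : ℕ) : ℝ)) ^ (3 / 4 : ℝ) * tau (p * l) ^ 2 *
          (1 + Real.log ((p * l : ℕ) : ℝ))) * (10 * (1 + |(r : ℝ)| / (p * L)) *
      (1 + Real.log K₀)) * (1 / ((n : ℝ) + 1) *
        Real.exp (-(((n : ℝ) + 1) * (L / (K₀ * l))) ^ 2) *
        (Nat.gcd (n + 1) (p * l) : ℕ)) := by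
  have hq : 1 ≤ p * l := Nat.mul_pos hp hl
  have hqr : (1 : ℝ) ≤ ((p * l : ℕ) : ℝ) := by exact_mod_cast hq
  have hK1 : (1 : ℝ) ≤ K₀ := by exact_mod_cast hK
  have ha0 : a ≠ 0 := by rcases ha with rfl | rfl <;> omega
  have haabs : |(a : ℝ)| = (n : ℝ) + 1 := by
    have hn : (0 : ℝ) ≤ n := Nat.cast_nonneg n
    rcases ha with rfl | rfl
    · push_cast; rw [abs_of_pos (by linarith)]
    · push_cast; rw [abs_neg, abs_of_pos (by linarith)]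
  have hasq : (a : ℝ) ^ 2 = ((n : ℝ) + 1) ^ 2 := by rw [← sq_abs, haabs]
  have hgcd : Int.gcd a ((p * l : ℕ) : ℤ) = Nat.gcd (n + 1) (p * l) := by
    rcases ha with rfl | rfl
    · have : ((n : ℤ) + 1) = ((n + 1 : ℕ) : ℤ) := by push_cast; rfl
      rw [this, Int.gcd_natCast_natCast]
    · rw [Int.neg_gcd]
      have : ((n : ℤ) + 1) = ((n + 1 : ℕ) : ℤ) := by push_cast; rfl
      rw [this, Int.gcd_natCast_natCast]
  set E : ℝ := 2 * (((p * l : ℕ) : ℝ)) ^ (3 / 4 : ℝ) * tau (p * l) ^ 2 *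
          (1 + Real.log ((p * l : ℕ) : ℝ)) with hE
  have hlog : 0 ≤ Real.log ((p * l : ℕ) : ℝ) := Real.log_nonneg hqr
  have hE0 : 0 ≤ E := by rw [hE]; positivity
  set G : ℝ := ((Nat.gcd (n + 1) (p * l) : ℕ) : ℝ) with hG
  have hG1 : 1 ≤ G := by
    rw [hG]
    exact_mod_cast Nat.gcd_pos_of_pos_left _ (Nat.succ_pos n)
  have hWle : ∀ K ≤ K₀, ‖∑ k ∈ Icc 1 K, tqq_z (p * l) (p * s - r) a k‖ ≤
      ((K₀ : ℝ) / ((p * l : ℕ) : ℝ) * (Int.gcd (p * s - r) ((p * l : ℕ) : ℤ) : ℝ) + E) * G := by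
    intro K hKK
    rw [tqq_z_sum]
    refine (ik_bound (p * l) (a * (p * s - r)) K).trans ?_
    have hg := int_gcd_mul_le a (p * s - r) hq
    rw [hgcd] at hg
    have hKr : (K : ℝ) ≤ K₀ := by exact_mod_cast hKK
    rw [← hE, add_mul]
    refine add_le_add ?_ ?_
    · calc (K : ℝ) / ((p * l : ℕ) : ℝ) * (Int.gcd (a * (p * s - r)) ((p * l : ℕ) : ℤ) : ℕ) ≤
          (K₀ : ℝ) / ((p * l : ℕ) : ℝ) * (G * (Int.gcd (p * s - r) ((p * l : ℕ) : ℤ) : ℝ)) := by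
            gcongr
        _ = _ := by ring
    · exact le_mul_of_one_le_right hE0 hG1
  have hab := abl hL hp hl (r := r) ha0 hK hWle
  refine hab.trans (le_of_eq ?_)
  rw [haabs]
  have hexp : (L * (a : ℝ) / (K₀ * l)) ^ 2 = (((n : ℝ) + 1) * (L / (K₀ * l))) ^ 2 := by
    rw [mul_pow, ← hasq]; ring
  rw [hexp]
  ring

theorem eg_main {L : ℝ} (hL : 0 < L) {p l : ℕ} (hp : 1 ≤ p) (hl : 1 ≤ l) (r s : ℤ) {K : ℕ}
    (hK : 1 ≤ K) :
    |∑ k ∈ (Icc 1 K).filter (fun k => Nat.Coprime k (p * l)), Eg L p l r s k| ≤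
      2 * (((K : ℝ) / ((p * l : ℕ) : ℝ) * (Int.gcd (p * s - r) ((p * l : ℕ) : ℤ) : ℝ) +
        2 * (((p * l : ℕ) : ℝ)) ^ (3 / 4 : ℝ) * tau (p * l) ^ 2 *
          (1 + Real.log ((p * l : ℕ) : ℝ))) * (10 * (1 + |(r : ℝ)| / (p * L)) *
      (1 + Real.log K)) * (2 * tau (p * l) *
        (2 + Real.log (1 + 1 / (L / (K * l)))))) := by
  have hlr : (1 : ℝ) ≤ l := by exact_mod_cast hl
  have hq : 1 ≤ p * l := Nat.mul_pos hp hl
  have hqr : (1 : ℝ) ≤ ((p * l : ℕ) : ℝ) := by exact_mod_cast hq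
  have : NeZero (p * l) := ⟨by omega⟩
  have hK1 : (1 : ℝ) ≤ K := by exact_mod_cast hK
  set B : ℝ := ((K : ℝ) / ((p * l : ℕ) : ℝ) * (Int.gcd (p * s - r) ((p * l : ℕ) : ℤ) : ℝ) +
        2 * (((p * l : ℕ) : ℝ)) ^ (3 / 4 : ℝ) * tau (p * l) ^ 2 *
          (1 + Real.log ((p * l : ℕ) : ℝ))) * (10 * (1 + |(r : ℝ)| / (p * L)) *
      (1 + Real.log K)) with hB
  have hB0 : 0 ≤ B := by
    have l1 : 0 ≤ Real.log ((p * l : ℕ) : ℝ) := Real.log_nonneg hqr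
    have l2 : 0 ≤ Real.log K := Real.log_nonneg hK1
    rw [hB]; positivity
  set y : ℝ := L / ((K : ℝ) * l) with hy
  have hy0 : 0 < y := by rw [hy]; positivity
  obtain ⟨hsum, hle⟩ := smh hy0 hq
  have hsum2 := hsum.hasSum.mul_left (2 * B)
  have hb : ∀ n : ℕ, ‖(∑ k ∈ Icc 1 K, ph L l (p * l) r ((n : ℤ) + 1) k *
          tqq_z (p * l) (p * s - r) ((n : ℤ) + 1) k +
        ∑ k ∈ Icc 1 K, ph L l (p * l) r (-((n : ℤ) + 1)) k *
          tqq_z (p * l) (p * s - r) (-((n : ℤ) + 1)) k)‖ ≤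
      2 * B * (1 / ((n : ℝ) + 1) * Real.exp (-(((n : ℝ) + 1) * y) ^ 2) *
        (Nat.gcd (n + 1) (p * l) : ℕ)) := by
    intro n
    refine (norm_add_le _ _).trans ?_
    have b1 := eg_one hL hp hl r s hK n ((n : ℤ) + 1) (Or.inl rfl)
    have b2 := eg_one hL hp hl r s hK n (-((n : ℤ) + 1)) (Or.inr rfl)
    rw [← hB, ← hy] at b1 b2
    linarith
  have hfin := tsum_of_norm_bounded hsum2 hb
  have hex := eg_expand hL (p := p) hl r s K
  rw [← Real.norm_eq_abs, ← Complex.norm_real, hex]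
  refine hfin.trans ?_
  calc 2 * B * ∑' n : ℕ, (1 / ((n : ℝ) + 1) * Real.exp (-(((n : ℝ) + 1) * y) ^ 2) *
        (Nat.gcd (n + 1) (p * l) : ℕ)) ≤
      2 * B * (2 * tau (p * l) * (2 + Real.log (1 + 1 / y))) := by gcongr
    _ = _ := by ring

/-- the incomplete sums, with divisor bounds -/
theorem core {ε : ℝ} (hε : 0 < ε) : ∃ C : ℝ, 1 ≤ C ∧ ∀ {L : ℝ}, 1 ≤ L → ∀ {p l K : ℕ}, 1 ≤ p →
    1 ≤ l → 1 ≤ K → ∀ r s : ℤ,
    |∑ k ∈ (Icc 1 K).filter (fun k => Nat.Coprime k (p * l)), Eg L p l r s k| ≤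
      C * (2 * (p : ℝ) * l * K) ^ ε * (1 + |(r : ℝ)| / (p * L)) *
        ((K : ℝ) * (Int.gcd (p * s - r) ((p * l : ℕ) : ℤ) : ℝ) / ((p : ℝ) * l) +
          ((p : ℝ) * l) ^ (3 / 4 : ℝ)) := by
  set δ : ℝ := ε / 6 with hδd
  have hδ : 0 < δ := by positivity
  obtain ⟨C₀, hC₀, hdiv⟩ := Pool.Agent.FG61.divisor_bound hδ
  set F : ℝ := 3 + 2 / δ with hF
  have hF1 : 1 ≤ F := by
    have : 0 < 2 / δ := by positivity
    linarith
  refine ⟨max 1 (80 * F ^ 3 * C₀ ^ 3), le_max_left _ _, ?_⟩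
  intro L hL1 p l K hp hl hK r s
  have hL : 0 < L := by linarith
  have hpr : (1 : ℝ) ≤ p := by exact_mod_cast hp
  have hlr : (1 : ℝ) ≤ l := by exact_mod_cast hl
  have hKr : (1 : ℝ) ≤ K := by exact_mod_cast hK
  have hq : 1 ≤ p * l := Nat.mul_pos hp hl
  have hqr : (1 : ℝ) ≤ ((p * l : ℕ) : ℝ) := by exact_mod_cast hq
  set Y : ℝ := 2 * (p : ℝ) * l * K with hYd
  have hpl1 : (1 : ℝ) ≤ (p : ℝ) * l := by nlinarith
  have hplK : (1 : ℝ) ≤ (p : ℝ) * l * K := by nlinarith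
  have hY2 : 2 ≤ Y := by rw [hYd]; linarith
  have hY1 : 1 ≤ Y := by linarith
  have hρ : 0 ≤ |(r : ℝ)| / (p * L) := by positivity
  have hqY : ((p * l : ℕ) : ℝ) ≤ Y := by
    push_cast
    rw [hYd]
    have : (p : ℝ) * l ≤ (p : ℝ) * l * K := le_mul_of_one_le_right (by positivity) hKr
    linarith
  have hKY : (K : ℝ) ≤ Y := by
    rw [hYd]
    have : (K : ℝ) ≤ (p : ℝ) * l * K := le_mul_of_one_le_left (by positivity) hpl1
    linarith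
  have hyY : 1 / (L / ((K : ℝ) * l)) ≤ Y := by
    rw [one_div, inv_div]
    calc (K : ℝ) * l / L ≤ (K : ℝ) * l / 1 := by gcongr
      _ = (K : ℝ) * l := by ring
      _ ≤ (p : ℝ) * ((K : ℝ) * l) := le_mul_of_one_le_left (by positivity) hpr
      _ = (p : ℝ) * l * K := by ring
      _ ≤ Y := by rw [hYd]; linarith
  refine (eg_main hL hp hl r s hK).trans ?_
  have l1 : 1 + Real.log K ≤ F * Y ^ δ := by
    apply tqq_log hδ hY1
    have := Real.log_le_log (by linarith) hKY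
    have := Real.log_nonneg hY1
    linarith
  have l2 : 1 + Real.log ((p * l : ℕ) : ℝ) ≤ F * Y ^ δ := by
    apply tqq_log hδ hY1
    have h2 := Real.log_le_log (by linarith) hqY
    have := Real.log_nonneg hY1
    linarith
  have l3 : 2 + Real.log (1 + 1 / (L / ((K : ℝ) * l))) ≤ F * Y ^ δ := by
    apply tqq_log hδ hY1
    have h0 : 0 < 1 / (L / ((K : ℝ) * l)) := by positivity
    have h2 : Real.log (1 + 1 / (L / ((K : ℝ) * l))) ≤ Real.log (2 * Y) := by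
      apply Real.log_le_log (by linarith)
      linarith
    rw [Real.log_mul (by norm_num) (by positivity)] at h2
    have h3 : Real.log 2 ≤ 1 := by
      have := Real.log_two_lt_d9; linarith
    have := Real.log_nonneg hY1
    linarith
  have l4 : tau (p * l) ≤ C₀ * Y ^ δ := by
    unfold tau
    refine (hdiv _ hq).trans ?_
    gcongr
  have hτ1 : 1 ≤ tau (p * l) := by
    unfold tau
    have : 1 ≤ (p * l).divisors.card :=
      Finset.card_pos.2 ⟨1, Nat.one_mem_divisors.2 (by omega)⟩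
    exact_mod_cast this
  have hlq : 0 ≤ Real.log ((p * l : ℕ) : ℝ) := Real.log_nonneg hqr
  have hlK : 0 ≤ Real.log K := Real.log_nonneg hKr
  set T : ℝ := tau (p * l) with hT
  set A₁ : ℝ := (K : ℝ) * (Int.gcd (p * s - r) ((p * l : ℕ) : ℤ) : ℝ) / ((p : ℝ) * l) with hA₁
  set A₂ : ℝ := ((p : ℝ) * l) ^ (3 / 4 : ℝ) with hA₂
  have hA₁0 : 0 ≤ A₁ := by positivity
  have hA₂0 : 0 ≤ A₂ := by positivity
  have m1 : (K : ℝ) / ((p * l : ℕ) : ℝ) * (Int.gcd (p * s - r) ((p * l : ℕ) : ℤ) : ℝ) = A₁ := by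
    rw [hA₁]; push_cast; ring
  have m2 : (((p * l : ℕ) : ℝ)) ^ (3 / 4 : ℝ) = A₂ := by rw [hA₂]; push_cast; rfl
  have m3 : ((K : ℝ) / ((p * l : ℕ) : ℝ) * (Int.gcd (p * s - r) ((p * l : ℕ) : ℤ) : ℝ) +
      2 * (((p * l : ℕ) : ℝ)) ^ (3 / 4 : ℝ) * T ^ 2 *
        (1 + Real.log ((p * l : ℕ) : ℝ))) ≤ 2 * T ^ 2 * (F * Y ^ δ) * (A₁ + A₂) := by
    rw [m1, m2]
    have hT2 : 1 ≤ T ^ 2 := one_le_pow₀ hτ1
    have hFY : 1 ≤ F * Y ^ δ := by linarith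
    have n1 : A₁ ≤ 2 * T ^ 2 * (F * Y ^ δ) * A₁ := by
      apply le_mul_of_one_le_left hA₁0
      nlinarith
    have n2 : 2 * A₂ * T ^ 2 * (1 + Real.log ((p * l : ℕ) : ℝ)) ≤
        2 * A₂ * T ^ 2 * (F * Y ^ δ) := by gcongr
    calc _ ≤ 2 * T ^ 2 * (F * Y ^ δ) * A₁ + 2 * A₂ * T ^ 2 * (F * Y ^ δ) := add_le_add n1 n2
      _ = _ := by ring
  have hT0 : 0 ≤ T := by linarith
  have hFY0 : 0 ≤ F * Y ^ δ := by positivity
  have hlog3 : 0 ≤ 2 + Real.log (1 + 1 / (L / ((K : ℝ) * l))) := by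
    have h0 : 0 < 1 / (L / ((K : ℝ) * l)) := by positivity
    have := Real.log_nonneg (by linarith : 1 ≤ 1 + 1 / (L / ((K : ℝ) * l)))
    linarith
  have hYpow : (Y ^ δ) ^ 3 * (Y ^ δ) ^ 3 = Y ^ ε := by
    have hY0 : 0 < Y := by linarith
    rw [← Real.rpow_natCast, ← Real.rpow_mul hY0.le, ← Real.rpow_add hY0]
    congr 1
    rw [hδd]; push_cast; ring
  calc _ ≤ 2 * ((2 * T ^ 2 * (F * Y ^ δ) * (A₁ + A₂)) * (10 * (1 + |(r : ℝ)| / (p * L)) *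
        (F * Y ^ δ)) * (2 * T * (F * Y ^ δ))) := by gcongr
    _ = 80 * (F ^ 3 * (Y ^ δ) ^ 3) * T ^ 3 * (1 + |(r : ℝ)| / (p * L)) * (A₁ + A₂) := by ring
    _ ≤ 80 * (F ^ 3 * (Y ^ δ) ^ 3) * (C₀ * Y ^ δ) ^ 3 * (1 + |(r : ℝ)| / (p * L)) * (A₁ + A₂) := by
        gcongr
    _ = (80 * F ^ 3 * C₀ ^ 3) * ((Y ^ δ) ^ 3 * (Y ^ δ) ^ 3) * (1 + |(r : ℝ)| / (p * L)) *
        (A₁ + A₂) := by ring
    _ = (80 * F ^ 3 * C₀ ^ 3) * Y ^ ε * (1 + |(r : ℝ)| / (p * L)) * (A₁ + A₂) := by rw [hYpow]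
    _ ≤ _ := by
        gcongr
        exact le_max_right _ _

end

end Pool.Agent.EXB
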