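import Mathlib

/-! EXC, part B: sums of a primitive character over a class. -/

set_option autoImplicit false

namespace Pool.Agent.EXB

open Finset

noncomputable section

/-- a primitive character is not trivial on the units congruent to one modulo a proper divisor -/
theorem prm_unit {D : ℕ} [NeZero D] {χ : DirichletCharacter ℂ D} (hχ : χ.IsPrimitive) {v : ℕ}
    (hv : ¬ D ∣ v) : ∃ z : ℕ, (z : ZMod v) = 1 ∧ Nat.Coprime z D ∧ χ (z : ZMod D) ≠ 1 := by
  have hf : D.gcd v ∣ D := D.gcd_dvd_left v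
  by_contra hcon
  push Not at hcon
  have h1 : χ.FactorsThrough (D.gcd v) := by
    rw [DirichletCharacter.factorsThrough_iff_ker_unitsMap hf]
    intro x hx
    rw [MonoidHom.mem_ker, Units.ext_iff, MulChar.coe_toUnitHom, Units.val_one]
    obtain ⟨z, hz₁, hz₂⟩ : ∃ z : ℕ, (z : ZMod D) = x.val ∧ (z : ZMod v) = 1 := by
      suffices x.val.val ≡ 1 [MOD D.gcd v] by
        obtain ⟨z, hz₁, hz₂⟩ := Nat.chineseRemainder' this
        refine ⟨z, ?_, ?_⟩
        · simpa [← ZMod.natCast_eq_natCast_iff] using hz₁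
        · rwa [← ZMod.natCast_eq_natCast_iff, Nat.cast_one] at hz₂
      rwa [MonoidHom.mem_ker, Units.ext_iff, ZMod.unitsMap_val, ← ZMod.natCast_val,
        Units.val_one, ← Nat.cast_one, ZMod.natCast_eq_natCast_iff] at hx
    rw [← hz₁]
    apply hcon z hz₂
    exact (ZMod.isUnit_iff_coprime _ _).mp (hz₁ ▸ x.isUnit)
  have h2 : χ.conductor ≤ D.gcd v := Nat.sInf_le ((DirichletCharacter.mem_conductorSet_iff _).mpr h1)
  rw [DirichletCharacter.isPrimitive_def] at hχ
  rw [hχ] at h2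
  have h3 : D.gcd v ≤ D := Nat.le_of_dvd (Nat.pos_of_ne_zero (NeZero.ne D)) hf
  have h4 : D.gcd v = D := le_antisymm h3 h2
  exact hv (Nat.gcd_eq_left_iff_dvd.1 h4)

/-- the sum of a primitive character over a class modulo `v`, `D` not dividing `v`, vanishes -/
theorem prm_zero {D : ℕ} [NeZero D] {χ : DirichletCharacter ℂ D} (hχ : χ.IsPrimitive) {v M : ℕ}
    (hM : 1 ≤ M) (hvM : v ∣ M) (hDM : D ∣ M) (hpr : ∀ p : ℕ, p.Prime → p ∣ M → p ∣ v ∨ p ∣ D)
    (hv : ¬ D ∣ v) (b r : ℤ) :
    ∑ α ∈ (range M).filter (fun α : ℕ => (v : ℤ) ∣ b * α - r), χ (α : ZMod D) = 0 := by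
  obtain ⟨z, hz1, hz2, hz3⟩ := prm_unit hχ hv
  have : NeZero M := ⟨by omega⟩
  have hzM : Nat.Coprime z M := by
    rw [Nat.coprime_iff_gcd_eq_one]
    by_contra hne
    obtain ⟨p, hp, hpd⟩ := Nat.exists_prime_and_dvd hne
    have hpz : p ∣ z := hpd.trans (Nat.gcd_dvd_left z M)
    have hpM : p ∣ M := hpd.trans (Nat.gcd_dvd_right z M)
    rcases hpr p hp hpM with h | h
    · have h5 : (z : ZMod p) = 1 := by
        have := congrArg (ZMod.castHom h (ZMod p)) hz1
        rw [map_natCast, map_one] at this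
        exact this
      have h6 : (z : ZMod p) = 0 := (ZMod.natCast_eq_zero_iff z p).2 hpz
      rw [h6] at h5
      have : Fact p.Prime := ⟨hp⟩
      exact zero_ne_one h5
    · have := Nat.dvd_gcd hpz h
      rw [Nat.coprime_iff_gcd_eq_one.1 hz2] at this
      exact hp.one_lt.ne' (Nat.dvd_one.1 this)
  set G : ZMod M → ℂ := fun x => if (v : ℤ) ∣ b * (x.val : ℤ) - r then χ (x.val : ZMod D) else 0 with hG
  have hsum : ∑ α ∈ (range M).filter (fun α : ℕ => (v : ℤ) ∣ b * α - r), χ (α : ZMod D) =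
      ∑ x : ZMod M, G x := by
    rw [Finset.sum_filter]
    refine (Finset.sum_bij' (fun (x : ZMod M) _ => x.val) (fun (α : ℕ) _ => (α : ZMod M))
      ?_ ?_ ?_ ?_ ?_).symm
    · intro x _
      exact Finset.mem_range.2 (ZMod.val_lt x)
    · intro α _
      exact Finset.mem_univ _
    · intro x _
      exact ZMod.natCast_zmod_val x
    · intro α hα
      exact ZMod.val_cast_of_lt (Finset.mem_range.1 hα)
    · intro x _
      rfl
  rw [hsum]
  have hGz : ∀ x : ZMod M, G ((z : ZMod M) * x) = χ (z : ZMod D) * G x := by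
    intro x
    have hval : (((z : ZMod M) * x).val : ℤ) ≡ (z : ℤ) * x.val [ZMOD M] := by
      rw [← ZMod.intCast_eq_intCast_iff]
      push_cast
      rw [ZMod.natCast_zmod_val, ZMod.natCast_zmod_val]
    have hv1 : (((z : ZMod M) * x).val : ℤ) ≡ x.val [ZMOD v] := by
      have h1 : (((z : ZMod M) * x).val : ℤ) ≡ (z : ℤ) * x.val [ZMOD v] :=
        hval.of_dvd (by exact_mod_cast hvM)
      have h2 : (z : ℤ) ≡ 1 [ZMOD v] := by
        rw [← ZMod.intCast_eq_intCast_iff]
        push_cast; exact hz1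
      have h3 := h2.mul_right (x.val : ℤ)
      rw [one_mul] at h3
      exact h1.trans h3
    have hD1 : ((((z : ZMod M) * x).val : ℕ) : ZMod D) = (z : ZMod D) * (x.val : ZMod D) := by
      have h1 : (((z : ZMod M) * x).val : ℤ) ≡ (z : ℤ) * x.val [ZMOD D] :=
        hval.of_dvd (by exact_mod_cast hDM)
      rw [← ZMod.intCast_eq_intCast_iff] at h1
      push_cast at h1
      exact h1
    have hcond : ((v : ℤ) ∣ b * ((((z : ZMod M) * x).val : ℕ) : ℤ) - r) ↔
        ((v : ℤ) ∣ b * (x.val : ℤ) - r) := by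
      have h1 : (v : ℤ) ∣ b * ((((z : ZMod M) * x).val : ℕ) : ℤ) - r - (b * (x.val : ℤ) - r) := by
        have := hv1.symm.dvd
        have e1 : b * ((((z : ZMod M) * x).val : ℕ) : ℤ) - r - (b * (x.val : ℤ) - r) =
          b * (((((z : ZMod M) * x).val : ℕ) : ℤ) - x.val) := by ring
        rw [e1]
        exact Dvd.dvd.mul_left this b
      constructor
      · intro h
        exact (dvd_sub_right h).1 h1
      · intro h
        have := dvd_add h1 h
        simpa using this
    simp only [hG]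
    by_cases h : (v : ℤ) ∣ b * (x.val : ℤ) - r
    · rw [if_pos h, if_pos (hcond.2 h), hD1, map_mul]
    · rw [if_neg h, if_neg (fun h' => h (hcond.1 h')), mul_zero]
  have hbij : Function.Bijective (fun x : ZMod M => (z : ZMod M) * x) := by
    have hu : IsUnit (z : ZMod M) := (ZMod.isUnit_iff_coprime z M).2 hzM
    obtain ⟨u, hu⟩ := hu
    rw [← hu]
    exact (Units.mulLeft u).bijective
  have h1 : ∑ x : ZMod M, G x = χ (z : ZMod D) * ∑ x : ZMod M, G x := by
    rw [Finset.mul_sum]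
    rw [← Function.Bijective.sum_comp hbij G]
    exact Finset.sum_congr rfl fun x _ => hGz x
  have h2 : (χ (z : ZMod D) - 1) * ∑ x : ZMod M, G x = 0 := by
    rw [sub_mul, one_mul, ← h1, sub_self]
  rcases mul_eq_zero.1 h2 with h3 | h3
  · exact absurd (sub_eq_zero.1 h3) hz3
  · exact h3

/-- the class is unique if `D ∣ v = M` -/
theorem prm_one {D : ℕ} [NeZero D] (χ : DirichletCharacter ℂ D) {v : ℕ}
    (hv : 1 ≤ v) (hD : D ∣ v) {b : ℕ} (hb : Nat.Coprime b v) (r : ℤ) :
    ∑ α ∈ (range v).filter (fun α : ℕ => (v : ℤ) ∣ b * α - r), χ (α : ZMod D) =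
      χ (r : ZMod D) * (starRingEnd ℂ) (χ (b : ZMod D)) := by
  have : NeZero v := ⟨by omega⟩
  have hbu : IsUnit (b : ZMod v) := (ZMod.isUnit_iff_coprime b v).2 hb
  obtain ⟨u, hu⟩ := hbu
  set y : ZMod v := (u⁻¹ : (ZMod v)ˣ) * (r : ZMod v) with hy
  have hmem : ∀ α : ℕ, α < v → (((v : ℤ) ∣ b * α - r) ↔ α = y.val) := by
    intro α hα
    have h1 : ((v : ℤ) ∣ b * α - r) ↔ (b : ZMod v) * (α : ZMod v) = (r : ZMod v) := by
      rw [← ZMod.intCast_zmod_eq_zero_iff_dvd]
      push_cast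
      rw [sub_eq_zero]
    rw [h1, ← hu]
    constructor
    · intro h
      have h2 : (α : ZMod v) = y := by
        rw [hy, ← h, ← mul_assoc, Units.inv_mul, one_mul]
      rw [← h2, ZMod.val_cast_of_lt hα]
    · intro h
      have h2 : (α : ZMod v) = y := by rw [h, ZMod.natCast_zmod_val]
      rw [h2, hy, ← mul_assoc, Units.mul_inv, one_mul]
  have hfil : (range v).filter (fun α : ℕ => (v : ℤ) ∣ b * α - r) = {y.val} := by
    ext α
    rw [Finset.mem_filter, Finset.mem_range, Finset.mem_singleton]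
    constructor
    · rintro ⟨h1, h2⟩
      exact (hmem α h1).1 h2
    · intro h
      have h1 : α < v := h ▸ ZMod.val_lt y
      exact ⟨h1, (hmem α h1).2 h⟩
  rw [hfil, Finset.sum_singleton]
  have h1 : (b : ZMod v) * y = (r : ZMod v) := by
    rw [hy, ← hu, ← mul_assoc, Units.mul_inv, one_mul]
  have h2 : (b : ZMod D) * (y.val : ZMod D) = (r : ZMod D) := by
    have := congrArg (ZMod.castHom hD (ZMod D)) h1
    rw [map_mul, map_natCast, map_intCast] at this
    rw [← this]
    congr 1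
    have h3 : (ZMod.castHom hD (ZMod D)) y = ((y.val : ℕ) : ZMod D) := by
      conv_lhs => rw [← ZMod.natCast_zmod_val y]
      rw [map_natCast]
    exact h3.symm
  rw [← h2, map_mul, mul_comm (χ (b : ZMod D)), mul_assoc]
  have hbD : IsUnit (b : ZMod D) :=
    (ZMod.isUnit_iff_coprime b D).2 (Nat.Coprime.coprime_dvd_right hD hb)
  have h4 : χ (b : ZMod D) * (starRingEnd ℂ) (χ (b : ZMod D)) = 1 := by
    rw [Complex.mul_conj, Complex.normSq_eq_norm_sq]
    obtain ⟨w, hw⟩ := hbD
    rw [← hw, DirichletCharacter.unit_norm_eq_one]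
    simp
  rw [h4, mul_one]

end

end Pool.Agent.EXB
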