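import Pool.Agent.Lib_helper19.EXB.Defs
import Pool.Agent.Lib_helper19.EXB.PRM
import Pool.Agent.Lib_helper19.LSPD.BIG
import Pool.Agent.Lib_helper19.LSPD.FAC

/-! EXC, part B: splitting of the sum over one modulus. -/

set_option autoImplicit false

namespace Pool.Agent.EXB

open Pool.Agent.LSPD (tau gs IK ph big_gs_summable fac_inj fac_ex)
open Pool.Agent.Var35 (e)
open Finset

noncomputable section

theorem dec_gs_shift {L : ℝ} (hL : 0 < L) (t : ℤ) : Summable (fun a : ℤ => gs L (a - t)) :=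
  (big_gs_summable hL).comp_injective (i := fun a : ℤ => a - t) (fun a b h => by simpa using h)

theorem dec_summable {D : ℕ} (χ : DirichletCharacter ℂ D) {L : ℝ} (hL : 0 < L) (t : ℤ)
    (P : ℤ → Prop) [DecidablePred P] :
    Summable (fun a : ℤ => if P a then ((gs L (a - t) : ℝ) : ℂ) * χ (a : ZMod D) else 0) := by
  refine Summable.of_norm_bounded (dec_gs_shift hL t) fun a => ?_
  have h0 : 0 ≤ gs L (a - t) := (Real.exp_pos _).le
  split_ifs
  · rw [norm_mul, Complex.norm_real, Real.norm_of_nonneg h0]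
    exact mul_le_of_le_one_right h0 (DirichletCharacter.norm_le_one χ _)
  · simpa using h0

theorem dec_class {D : ℕ} (χ : DirichletCharacter ℂ D) {L : ℝ} (hL : 0 < L) {b₁ M d₂ v : ℕ}
    (hDM : D ∣ M) (hvM : v ∣ M) (r₁ t : ℤ) (α : ℕ) :
    (∑' a : ℤ, if (M : ℤ) ∣ a - α then (if (v : ℤ) ∣ b₁ * a - r₁ ∧ (d₂ : ℤ) ∣ b₁ * a - r₁ then
      ((gs L (a - t) : ℝ) : ℂ) * χ (a : ZMod D) else 0) else 0) =
    if (v : ℤ) ∣ b₁ * α - r₁ then χ (α : ZMod D) * ((Cg L b₁ M (r₁ - b₁ * t) (α - t) d₂ : ℝ) : ℂ)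
      else 0 := by
  have hcl : ∀ a : ℤ, (M : ℤ) ∣ a - α → (((v : ℤ) ∣ b₁ * a - r₁ ↔ (v : ℤ) ∣ b₁ * α - r₁) ∧
      χ (a : ZMod D) = χ (α : ZMod D)) := by
    intro a ha
    constructor
    · have h1 : (v : ℤ) ∣ (b₁ * a - r₁) - (b₁ * α - r₁) := by
        have e1 : ((b₁ : ℤ) * a - r₁) - (b₁ * α - r₁) = b₁ * (a - α) := by ring
        rw [e1]
        exact Dvd.dvd.mul_left ((Int.natCast_dvd_natCast.2 hvM).trans ha) _
      constructor
      · intro h; exact (dvd_sub_right h).1 h1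
      · intro h
        have := dvd_add h1 h
        simpa using this
    · have h1 : (D : ℤ) ∣ a - α := (Int.natCast_dvd_natCast.2 hDM).trans ha
      have h2 : ((a - α : ℤ) : ZMod D) = 0 := (ZMod.intCast_zmod_eq_zero_iff_dvd _ _).2 h1
      push_cast at h2
      rw [sub_eq_zero] at h2
      rw [h2]
  by_cases hv : (v : ℤ) ∣ b₁ * α - r₁
  · rw [if_pos hv]
    unfold Cg
    rw [Complex.ofReal_tsum, ← tsum_mul_left]
    conv_rhs => rw [← (Equiv.subRight t).tsum_eq]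
    refine tsum_congr fun a => ?_
    simp only [Equiv.subRight_apply]
    by_cases ha : (M : ℤ) ∣ a - α
    · obtain ⟨h1, h2⟩ := hcl a ha
      have ha' : (M : ℤ) ∣ a - t - (α - t) := by
        have : a - t - (α - t) = a - α := by ring
        rw [this]; exact ha
      by_cases hd : (d₂ : ℤ) ∣ b₁ * a - r₁
      · have hd' : (d₂ : ℤ) ∣ b₁ * (a - t) - (r₁ - b₁ * t) := by
          have : (b₁ : ℤ) * (a - t) - (r₁ - b₁ * t) = b₁ * a - r₁ := by ring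
          rw [this]; exact hd
        rw [if_pos ha, if_pos ⟨h1.2 hv, hd⟩, if_pos ⟨hd', ha'⟩, h2, mul_comm]
      · have hd' : ¬ (d₂ : ℤ) ∣ b₁ * (a - t) - (r₁ - b₁ * t) := by
          have : (b₁ : ℤ) * (a - t) - (r₁ - b₁ * t) = b₁ * a - r₁ := by ring
          rw [this]; exact hd
        rw [if_pos ha, if_neg (fun h => hd h.2), if_neg (fun h => hd' h.1)]
        simp
    · have ha' : ¬ (M : ℤ) ∣ a - t - (α - t) := by
        have : a - t - (α - t) = a - α := by ring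
        rw [this]; exact ha
      rw [if_neg ha, if_neg (fun h => ha' h.2)]
      simp
  · rw [if_neg hv]
    have h0 : ∀ a : ℤ, (if (M : ℤ) ∣ a - α then (if (v : ℤ) ∣ b₁ * a - r₁ ∧ (d₂ : ℤ) ∣ b₁ * a - r₁ then
      ((gs L (a - t) : ℝ) : ℂ) * χ (a : ZMod D) else 0) else 0) = 0 := by
      intro a
      by_cases ha : (M : ℤ) ∣ a - α
      · obtain ⟨h1, h2⟩ := hcl a ha
        rw [if_pos ha, if_neg (fun h => hv (h1.1 h.1))]
      · rw [if_neg ha]
    rw [tsum_congr h0, tsum_zero]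

/-- splitting into classes modulo `M` -/
theorem dec_one {D : ℕ} (χ : DirichletCharacter ℂ D) {L : ℝ} (hL : 0 < L) {k b₁ M d₂ v : ℕ}
    (hk : 1 ≤ k) (hM : 1 ≤ M) (hDM : D ∣ M) (hvM : v ∣ M) (hvd : Nat.Coprime v d₂) (r₁ t : ℤ) :
    At χ L (k * b₁) (k * r₁) t (k * (v * d₂)) =
      ∑ α ∈ (range M).filter (fun α : ℕ => (v : ℤ) ∣ b₁ * α - r₁),
        χ (α : ZMod D) * ((Cg L b₁ M (r₁ - b₁ * t) (α - t) d₂ : ℝ) : ℂ) := by
  have hMz : (M : ℤ) ≠ 0 := by exact_mod_cast (by omega : M ≠ 0)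
  have hkz : (k : ℤ) ≠ 0 := by exact_mod_cast (by omega : k ≠ 0)
  have hcond : ∀ a : ℤ, (((k * (v * d₂) : ℕ) : ℤ) ∣ ((k * b₁ : ℕ) : ℤ) * a - k * r₁) ↔
      ((v : ℤ) ∣ b₁ * a - r₁ ∧ (d₂ : ℤ) ∣ b₁ * a - r₁) := by
    intro a
    have e1 : ((k * b₁ : ℕ) : ℤ) * a - k * r₁ = k * (b₁ * a - r₁) := by push_cast; ring
    have e2 : ((k * (v * d₂) : ℕ) : ℤ) = k * ((v : ℤ) * d₂) := by push_cast; ring
    rw [e1, e2, mul_dvd_mul_iff_left hkz]
    constructor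
    · intro h
      exact ⟨(Dvd.intro _ rfl).trans h, (Dvd.intro_left _ rfl).trans h⟩
    · rintro ⟨h1, h2⟩
      exact IsCoprime.mul_dvd (Nat.isCoprime_iff_coprime.2 hvd) h1 h2
  unfold At
  have h1 : ∀ a : ℤ, (if ((k * (v * d₂) : ℕ) : ℤ) ∣ ((k * b₁ : ℕ) : ℤ) * a - k * r₁ then
      ((gs L (a - t) : ℝ) : ℂ) * χ (a : ZMod D) else 0) =
      ∑ α ∈ range M, (if (M : ℤ) ∣ a - α then (if (v : ℤ) ∣ b₁ * a - r₁ ∧ (d₂ : ℤ) ∣ b₁ * a - r₁ then
      ((gs L (a - t) : ℝ) : ℂ) * χ (a : ZMod D) else 0) else 0) := by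
    intro a
    have hpos : 0 ≤ a % (M : ℤ) := Int.emod_nonneg _ hMz
    have hlt : a % (M : ℤ) < M := Int.emod_lt_of_pos _ (by exact_mod_cast hM)
    rw [if_congr (hcond a) rfl rfl, Finset.sum_eq_single (a % (M : ℤ)).toNat]
    · rw [if_pos (c := (M : ℤ) ∣ a - ((a % (M : ℤ)).toNat : ℕ))]
      rw [Int.toNat_of_nonneg hpos]
      exact Int.dvd_self_sub_emod
    · intro α hα hne
      rw [if_neg]
      intro h
      apply hne
      have h2 : a % (M : ℤ) = (α : ℤ) % M :=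
        Int.emod_eq_emod_iff_emod_sub_eq_zero.2 (Int.emod_eq_zero_of_dvd h)
      rw [h2, Int.emod_eq_of_lt (by positivity) (by exact_mod_cast Finset.mem_range.1 hα)]
      simp
    · intro h
      exfalso
      apply h
      rw [Finset.mem_range]
      have : ((a % (M : ℤ)).toNat : ℤ) < M := by rw [Int.toNat_of_nonneg hpos]; exact hlt
      exact_mod_cast this
  rw [tsum_congr h1, Summable.tsum_finsetSum]
  · rw [Finset.sum_filter]
    refine Finset.sum_congr rfl fun α _ => ?_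
    exact dec_class χ hL hDM hvM r₁ t α
  · intro α _
    refine (dec_summable χ hL t (fun a => (M : ℤ) ∣ a - α ∧ ((v : ℤ) ∣ b₁ * a - r₁ ∧
      (d₂ : ℤ) ∣ b₁ * a - r₁))).congr fun a => ?_
    by_cases h2 : (M : ℤ) ∣ a - α
    · by_cases h3 : (v : ℤ) ∣ b₁ * a - r₁ ∧ (d₂ : ℤ) ∣ b₁ * a - r₁
      · rw [if_pos ⟨h2, h3⟩, if_pos h2, if_pos h3]
      · rw [if_neg (fun h => h3 h.2), if_pos h2, if_neg h3]
    · rw [if_neg (fun h => h2 h.1), if_neg h2]

theorem dec_norm {D : ℕ} (χ : DirichletCharacter ℂ D) {L : ℝ} (hL : 0 < L) (b : ℕ) (r t : ℤ) (d : ℕ) :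
    ‖At χ L b r t d‖ ≤ ∑' a : ℤ, if (d : ℤ) ∣ b * a - r then gs L (a - t) else 0 := by
  unfold At
  refine (norm_tsum_le_tsum_norm ?_).trans ?_
  · exact (dec_summable χ hL t (fun a => (d : ℤ) ∣ b * a - r)).norm
  · refine Summable.tsum_le_tsum (fun a => ?_)
      (dec_summable χ hL t (fun a => (d : ℤ) ∣ b * a - r)).norm ?_
    · have h0 : 0 ≤ gs L (a - t) := (Real.exp_pos _).le
      split_ifs
      · rw [norm_mul, Complex.norm_real, Real.norm_of_nonneg h0]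
        exact mul_le_of_le_one_right h0 (DirichletCharacter.norm_le_one χ _)
      · simp
    · refine Summable.of_nonneg_of_le (fun a => ?_) (fun a => ?_) (dec_gs_shift hL t)
      · have h0 : 0 ≤ gs L (a - t) := (Real.exp_pos _).le
        split_ifs <;> simp [h0]
      · have h0 : 0 ≤ gs L (a - t) := (Real.exp_pos _).le
        split_ifs <;> simp [h0]

/-- splitting by the part composed of the primes of `D` -/
theorem dec_fac {D : ℕ} (hD : 1 ≤ D) (K : ℕ) (F : ℕ → ℂ) :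
    ∑ d ∈ Icc 1 K, F d = ∑ v ∈ (Icc 1 K).filter (fun v => v.primeFactors ⊆ D.primeFactors),
      ∑ d₂ ∈ (Icc 1 (K / v)).filter (fun d₂ => Nat.Coprime d₂ D), F (v * d₂) := by
  classical
  rw [Finset.sum_sigma']
  symm
  refine Finset.sum_bij (fun (x : (_ : ℕ) × ℕ) _ => x.1 * x.2) ?_ ?_ ?_ ?_
  · rintro ⟨t, k⟩ hx
    simp only [Finset.mem_sigma, Finset.mem_filter, Finset.mem_Icc] at hx
    obtain ⟨⟨⟨ht1, ht2⟩, ht3⟩, ⟨hk1, hk2⟩, hk3⟩ := hx
    rw [Finset.mem_Icc]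
    refine ⟨Nat.succ_le_of_lt (Nat.mul_pos ht1 hk1), ?_⟩
    calc t * k ≤ t * (K / t) := Nat.mul_le_mul_left _ hk2
      _ ≤ K := Nat.mul_div_le K t
  · rintro ⟨t, k⟩ hx ⟨t', k'⟩ hx' he
    simp only [Finset.mem_sigma, Finset.mem_filter, Finset.mem_Icc] at hx hx'
    obtain ⟨⟨⟨ht1, ht2⟩, ht3⟩, ⟨hk1, hk2⟩, hk3⟩ := hx
    obtain ⟨⟨⟨ht1', ht2'⟩, ht3'⟩, ⟨hk1', hk2'⟩, hk3'⟩ := hx'
    simp only at he
    have h1 : t = t' := fac_inj ht1 hk1 ht1' hk1' ht3 hk3 ht3' hk3' he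
    subst h1
    have h2 : k = k' := Nat.eq_of_mul_eq_mul_left (by omega) he
    subst h2
    rfl
  · intro d hd
    rw [Finset.mem_Icc] at hd
    obtain ⟨t, k, ht, hk, h1, h2, he⟩ := fac_ex (d := d) (d' := D) hd.1 hD
    refine ⟨⟨t, k⟩, ?_, he⟩
    simp only [Finset.mem_sigma, Finset.mem_filter, Finset.mem_Icc]
    have htd : t ≤ d := by
      rw [← he]
      exact Nat.le_mul_of_pos_right t (by omega)
    refine ⟨⟨⟨ht, htd.trans hd.2⟩, h1⟩, ⟨hk, ?_⟩, h2⟩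
    rw [Nat.le_div_iff_mul_le (by omega)]
    calc k * t = d := by rw [mul_comm]; exact he
      _ ≤ K := hd.2
  · rintro ⟨t, k⟩ _
    rfl

/-- splitting by the greatest common divisor with `b` -/
theorem dec_gcd {b : ℕ} (hb : 1 ≤ b) (Dl : ℕ) (F : ℕ → ℂ) :
    ∑ d ∈ Icc 1 Dl, F d = ∑ k ∈ b.divisors,
      ∑ d₁ ∈ (Icc 1 (Dl / k)).filter (fun d₁ => Nat.Coprime d₁ (b / k)), F (k * d₁) := by
  classical
  rw [Finset.sum_sigma']
  symm
  refine Finset.sum_bij (fun (x : (_ : ℕ) × ℕ) _ => x.1 * x.2) ?_ ?_ ?_ ?_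
  · rintro ⟨t, k⟩ hx
    simp only [Finset.mem_sigma, Finset.mem_filter, Finset.mem_Icc, Nat.mem_divisors] at hx
    obtain ⟨⟨ht1, ht2⟩, ⟨hk1, hk2⟩, hk3⟩ := hx
    have ht0 : 0 < t := Nat.pos_of_dvd_of_pos ht1 hb
    rw [Finset.mem_Icc]
    refine ⟨Nat.succ_le_of_lt (Nat.mul_pos ht0 hk1), ?_⟩
    calc t * k ≤ t * (Dl / t) := Nat.mul_le_mul_left _ hk2
      _ ≤ Dl := Nat.mul_div_le Dl t
  · rintro ⟨t, k⟩ hx ⟨t', k'⟩ hx' he
    simp only [Finset.mem_sigma, Finset.mem_filter, Finset.mem_Icc, Nat.mem_divisors] at hx hx'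
    obtain ⟨⟨ht1, ht2⟩, ⟨hk1, hk2⟩, hk3⟩ := hx
    obtain ⟨⟨ht1', ht2'⟩, ⟨hk1', hk2'⟩, hk3'⟩ := hx'
    simp only at he
    have ht0 : 0 < t := Nat.pos_of_dvd_of_pos ht1 hb
    have g1 : Nat.gcd (t * k) b = t := by
      conv_lhs => rw [← Nat.mul_div_cancel' ht1]
      rw [Nat.gcd_mul_left, Nat.coprime_iff_gcd_eq_one.1 hk3, mul_one]
    have g2 : Nat.gcd (t' * k') b = t' := by
      conv_lhs => rw [← Nat.mul_div_cancel' ht1']
      rw [Nat.gcd_mul_left, Nat.coprime_iff_gcd_eq_one.1 hk3', mul_one]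
    have h1 : t = t' := by rw [← g1, ← g2, he]
    subst h1
    have h2 : k = k' := Nat.eq_of_mul_eq_mul_left ht0 he
    subst h2
    rfl
  · intro d hd
    rw [Finset.mem_Icc] at hd
    have hg : 0 < Nat.gcd d b := Nat.gcd_pos_of_pos_left _ (by omega)
    have hgd : Nat.gcd d b ∣ d := Nat.gcd_dvd_left d b
    refine ⟨⟨Nat.gcd d b, d / Nat.gcd d b⟩, ?_, Nat.mul_div_cancel' hgd⟩
    simp only [Finset.mem_sigma, Finset.mem_filter, Finset.mem_Icc, Nat.mem_divisors]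
    refine ⟨⟨Nat.gcd_dvd_right d b, by omega⟩, ⟨?_, Nat.div_le_div_right hd.2⟩, ?_⟩
    · exact Nat.div_pos (Nat.le_of_dvd (by omega) hgd) hg
    · exact Nat.coprime_div_gcd_div_gcd hg
  · rintro ⟨t, k⟩ _
    rfl

/-- splitting of a sum over `d` by `k = (d, b)` and by the part `v` composed of the primes of `D` -/
theorem dec_split {b D : ℕ} (hb : 1 ≤ b) (hD : 1 ≤ D) (Dl : ℕ) (F : ℕ → ℂ) :
    ∑ d ∈ Icc 1 Dl, F d = ∑ k ∈ b.divisors,
      ∑ v ∈ (Icc 1 (Dl / k)).filter (fun v => v.primeFactors ⊆ D.primeFactors ∧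
        Nat.Coprime v (b / k)),
      ∑ d₂ ∈ (Icc 1 (Dl / k / v)).filter (fun d₂ => Nat.Coprime d₂ D ∧ Nat.Coprime d₂ (b / k)),
        F (k * (v * d₂)) := by
  rw [dec_gcd hb Dl F]
  refine Finset.sum_congr rfl fun k _ => ?_
  rw [Finset.sum_filter, dec_fac hD (Dl / k) (fun d₁ => if Nat.Coprime d₁ (b / k) then F (k * d₁) else 0)]
  rw [← Finset.filter_filter, Finset.sum_filter (s := (Icc 1 (Dl / k)).filter _)]
  refine Finset.sum_congr rfl fun v _ => ?_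
  by_cases hv : Nat.Coprime v (b / k)
  · rw [if_pos hv, ← Finset.filter_filter, Finset.sum_filter (p := fun d₂ => Nat.Coprime d₂ (b / k))]
    refine Finset.sum_congr rfl fun d₂ _ => ?_
    have : Nat.Coprime (v * d₂) (b / k) ↔ Nat.Coprime d₂ (b / k) := by
      rw [Nat.coprime_mul_iff_left]
      exact ⟨fun h => h.2, fun h => ⟨hv, h⟩⟩
    exact if_congr this rfl rfl
  · rw [if_neg hv]
    refine Finset.sum_eq_zero fun d₂ _ => ?_
    rw [if_neg]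
    intro h
    exact hv (Nat.Coprime.coprime_dvd_left (Dvd.intro _ rfl) h)

end

end Pool.Agent.EXB
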