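import Pool.Agent.Lib_helper19.LSPD.Defs
import Pool.Agent.Lib_helper31.LSP.DefsO
import Pool.Agent.Lib_helper15.LSP.DefsP

/-!
# EXC, part B: a smooth character against the divisor function in progressions. Definitions.
-/

set_option autoImplicit false

namespace Pool.Agent.EXB

open Pool.Agent.LSPD (tau gs IK ph)
open Pool.Agent.FG61 (mu)
open Pool.Agent.Var35 (e)
open Finset

noncomputable section

/-- the weighted number of `m` with `k ∣ p m - r` in the class of `s` modulo `l` -/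
def Cg (L : ℝ) (p l : ℕ) (r s : ℤ) (k : ℕ) : ℝ :=
  ∑' m : ℤ, if (k : ℤ) ∣ p * m - r ∧ (l : ℤ) ∣ m - s then gs L m else 0

/-- the error term -/
def Eg (L : ℝ) (p l : ℕ) (r s : ℤ) (k : ℕ) : ℝ := Cg L p l r s k - L / ((k * l : ℕ) : ℝ)

/-- the sum over `a` with `d ∣ b a - r` around the centre `t` -/
def At {D : ℕ} (χ : DirichletCharacter ℂ D) (L : ℝ) (b : ℕ) (r t : ℤ) (d : ℕ) : ℂ :=
  ∑' a : ℤ, if (d : ℤ) ∣ b * a - r then ((gs L (a - t) : ℝ) : ℂ) * χ (a : ZMod D) else 0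

/-- the sum over the divisors up to the hyperbola -/
def Sd {D : ℕ} (χ : DirichletCharacter ℂ D) (L : ℝ) (b : ℕ) (r t : ℤ) (Dl : ℕ) (y : ℝ) : ℂ :=
  ∑ d ∈ Icc 1 Dl, ((2 * Pool.Agent.LSPO.hyp (Real.log d - y) : ℝ) : ℂ) * At χ L b r t d

/-- the numbers composed of the primes of `D`, prime to `b` -/
def Vs (D b K : ℕ) : Finset ℕ :=
  (Icc 1 K).filter (fun v => v.primeFactors ⊆ D.primeFactors ∧ Nat.Coprime v b)

/-- the numbers prime to `D` and `b` -/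
def Ks (D b K : ℕ) : Finset ℕ :=
  (Icc 1 K).filter (fun d => Nat.Coprime d D ∧ Nat.Coprime d b)

/-- the main term -/
def Md {D : ℕ} (χ : DirichletCharacter ℂ D) (b : ℕ) (r : ℤ) (Dl : ℕ) (y : ℝ) : ℂ :=
  ∑ k ∈ b.divisors.filter (fun k : ℕ => (k : ℤ) ∣ r),
    ∑ v ∈ (Vs D (b / k) (Dl / k)).filter (fun v => D ∣ v), ∑ d ∈ Ks D (b / k) (Dl / k / v),
      χ ((r / k : ℤ) : ZMod D) * (starRingEnd ℂ) (χ ((b / k : ℕ) : ZMod D)) *
        ((2 * Pool.Agent.LSPO.hyp (Real.log ((k * (v * d) : ℕ) : ℝ) - y) / ((v * d : ℕ) : ℝ) : ℝ) : ℂ)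

end

end Pool.Agent.EXB
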