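import Pool.Agent.Lib_helper19.EXB.COR
import Pool.Agent.Lib_helper19.EXB.DEC
import Pool.Agent.Lib_helper19.LSPD.CNT
import Pool.Agent.Lib_helper31.LSP2.Lam

/-! EXC, part B: the sum for one centre. -/

set_option autoImplicit false

namespace Pool.Agent.EXB

open Pool.Agent.LSPD (tau gs IK ph big_gs_summable Ts ts_card big_summable big_class big_count
  big_tau big_gauss)
open Pool.Agent.LSPO (hyp hyp_nonneg hyp_le_one)
open Pool.Agent.LSPO2 (hyp_anti)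
open Pool.Agent.Var35 (e)
open Finset

noncomputable section

/-- Abel's inequality -/
theorem ept_abel (f z : ℕ → ℝ) {B : ℝ} (K : ℕ) (hf0 : ∀ k, 1 ≤ k → 0 ≤ f k)
    (hf1 : ∀ k, 1 ≤ k → f k ≤ 1) (hfa : ∀ k, 1 ≤ k → f (k + 1) ≤ f k)
    (hz : ∀ K' ≤ K, |∑ k ∈ Icc 1 K', z k| ≤ B) :
    |∑ k ∈ Icc 1 K, f k * z k| ≤ B := by
  have hB : 0 ≤ B := le_trans (abs_nonneg _) (hz 0 (Nat.zero_le _))
  have hIcc : ∀ n : ℕ, Icc 1 (n + 1) = insert (n + 1) (Icc 1 n) := by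
    intro n; ext i; simp only [mem_Icc, mem_insert]; omega
  have hnot : ∀ n : ℕ, n + 1 ∉ Icc 1 n := by intro n; simp
  have key : ∀ n : ℕ, n + 1 ≤ K → |∑ k ∈ Icc 1 (n + 1), f k * z k -
      f (n + 1) * ∑ k ∈ Icc 1 (n + 1), z k| ≤ (1 - f (n + 1)) * B := by
    intro n
    induction n with
    | zero =>
      intro _
      simp only [zero_add, Icc_self, sum_singleton, sub_self, abs_zero]
      exact mul_nonneg (by linarith [hf1 1 le_rfl]) hB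
    | succ n ih =>
      intro hn
      have ih' := ih (by omega)
      rw [hIcc (n + 1), sum_insert (hnot _), sum_insert (hnot _)]
      have e1 : f (n + 1 + 1) * z (n + 1 + 1) + ∑ k ∈ Icc 1 (n + 1), f k * z k -
          f (n + 1 + 1) * (z (n + 1 + 1) + ∑ k ∈ Icc 1 (n + 1), z k) =
          (∑ k ∈ Icc 1 (n + 1), f k * z k - f (n + 1) * ∑ k ∈ Icc 1 (n + 1), z k) +
          (f (n + 1) - f (n + 1 + 1)) * ∑ k ∈ Icc 1 (n + 1), z k := by ring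
      rw [e1]
      have h1 := hfa (n + 1) (by omega)
      have h2 := hz (n + 1) (by omega)
      calc |(∑ k ∈ Icc 1 (n + 1), f k * z k - f (n + 1) * ∑ k ∈ Icc 1 (n + 1), z k) +
          (f (n + 1) - f (n + 1 + 1)) * ∑ k ∈ Icc 1 (n + 1), z k| ≤
          |∑ k ∈ Icc 1 (n + 1), f k * z k - f (n + 1) * ∑ k ∈ Icc 1 (n + 1), z k| +
          |(f (n + 1) - f (n + 1 + 1)) * ∑ k ∈ Icc 1 (n + 1), z k| := abs_add_le _ _
        _ ≤ (1 - f (n + 1)) * B + (f (n + 1) - f (n + 1 + 1)) * B := by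
            refine add_le_add ih' ?_
            rw [abs_mul, abs_of_nonneg (by linarith)]
            exact mul_le_mul_of_nonneg_left h2 (by linarith)
        _ = (1 - f (n + 1 + 1)) * B := by ring
  rcases Nat.eq_zero_or_pos K with hK | hK
  · subst hK
    simpa using hB
  · obtain ⟨n, rfl⟩ : ∃ n, K = n + 1 := ⟨K - 1, by omega⟩
    have h1 := key n le_rfl
    have h2 := hz (n + 1) le_rfl
    have h3 := hf0 (n + 1) (by omega)
    calc |∑ k ∈ Icc 1 (n + 1), f k * z k| =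
        |(∑ k ∈ Icc 1 (n + 1), f k * z k - f (n + 1) * ∑ k ∈ Icc 1 (n + 1), z k) +
          f (n + 1) * ∑ k ∈ Icc 1 (n + 1), z k| := by ring_nf
      _ ≤ (1 - f (n + 1)) * B + f (n + 1) * B := by
          refine (abs_add_le _ _).trans (add_le_add h1 ?_)
          rw [abs_mul, abs_of_nonneg h3]
          exact mul_le_mul_of_nonneg_left h2 h3
      _ = B := by ring

/-- one class, with the hyperbola weights -/
theorem ept_class {L C ε : ℝ} (hL : 1 ≤ L) (hC : 1 ≤ C) (hε : 0 < ε)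
    (hcore : ∀ {L : ℝ}, 1 ≤ L → ∀ {p l K : ℕ}, 1 ≤ p → 1 ≤ l → 1 ≤ K → ∀ r s : ℤ,
    |∑ k ∈ (Icc 1 K).filter (fun k => Nat.Coprime k (p * l)), Eg L p l r s k| ≤
      C * (2 * (p : ℝ) * l * K) ^ ε * (1 + |(r : ℝ)| / (p * L)) *
        ((K : ℝ) * (Int.gcd (p * s - r) ((p * l : ℕ) : ℤ) : ℝ) / ((p : ℝ) * l) +
          ((p : ℝ) * l) ^ (3 / 4 : ℝ)))
    {b₁ M K : ℕ} (hb : 1 ≤ b₁) (hM : 1 ≤ M) (r s : ℤ) {c : ℕ} (hc : 1 ≤ c) (y : ℝ) :
    |∑ d ∈ (Icc 1 K).filter (fun d => Nat.Coprime d (b₁ * M)),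
      2 * hyp (Real.log ((c * d : ℕ) : ℝ) - y) * Eg L b₁ M r s d| ≤
      2 * (C * (2 * (b₁ : ℝ) * M * K) ^ ε * (1 + |(r : ℝ)| / (b₁ * L)) *
        ((K : ℝ) * (Int.gcd (b₁ * s - r) ((b₁ * M : ℕ) : ℤ) : ℝ) / ((b₁ : ℝ) * M) +
          ((b₁ : ℝ) * M) ^ (3 / 4 : ℝ))) := by
  have hbr : (1 : ℝ) ≤ b₁ := by exact_mod_cast hb
  have hMr : (1 : ℝ) ≤ M := by exact_mod_cast hM
  set f : ℕ → ℝ := fun d => hyp (Real.log ((c * d : ℕ) : ℝ) - y) with hf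
  set z : ℕ → ℝ := fun d => if Nat.Coprime d (b₁ * M) then Eg L b₁ M r s d else 0 with hz
  have h1 : ∑ d ∈ (Icc 1 K).filter (fun d => Nat.Coprime d (b₁ * M)),
      2 * hyp (Real.log ((c * d : ℕ) : ℝ) - y) * Eg L b₁ M r s d =
      2 * ∑ d ∈ Icc 1 K, f d * z d := by
    rw [Finset.sum_filter, Finset.mul_sum]
    refine Finset.sum_congr rfl fun d _ => ?_
    simp only [hf, hz]
    split_ifs
    · ring
    · ring
  rw [h1, abs_mul, abs_of_pos (by norm_num : (0 : ℝ) < 2)]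
  refine mul_le_mul_of_nonneg_left ?_ (by norm_num)
  refine ept_abel f z K (fun k _ => hyp_nonneg _) (fun k _ => hyp_le_one _) ?_ ?_
  · intro k hk
    apply hyp_anti
    have h2 : Real.log ((c * k : ℕ) : ℝ) ≤ Real.log ((c * (k + 1) : ℕ) : ℝ) := by
      apply Real.log_le_log
      · have : 0 < c * k := Nat.mul_pos hc hk
        exact_mod_cast this
      · exact_mod_cast Nat.mul_le_mul_left c (Nat.le_succ k)
    linarith
  · intro K' hK'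
    have h2 : ∑ k ∈ Icc 1 K', z k = ∑ k ∈ (Icc 1 K').filter (fun k => Nat.Coprime k (b₁ * M)),
        Eg L b₁ M r s k := by
      rw [Finset.sum_filter]
    rw [h2]
    have hK'r : (K' : ℝ) ≤ K := by exact_mod_cast hK'
    rcases Nat.eq_zero_or_pos K' with h0 | h0
    · subst h0
      simp only [Finset.Icc_eq_empty_of_lt (Nat.zero_lt_one), Finset.filter_empty,
        Finset.sum_empty, abs_zero]
      positivity
    · refine (hcore hL hb hM h0 r s).trans ?_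
      gcongr

theorem ept_gcd {b k : ℕ} (hb : 1 ≤ b) (hk : k ∣ b) {r : ℤ} (hr : (k : ℤ) ∣ r) {M : ℕ} (hM : 1 ≤ M)
    (s t : ℤ) :
    (Int.gcd (((b / k : ℕ) : ℤ) * (s - t) - (r / k - (b / k : ℕ) * t)) (((b / k) * M : ℕ) : ℤ) : ℝ) ≤
      (Int.gcd r b : ℝ) * M := by
  obtain ⟨b₁, rfl⟩ := hk
  obtain ⟨r₁, rfl⟩ := hr
  have hk0 : 0 < k := Nat.pos_of_ne_zero (fun h => by subst h; simp at hb)
  have hb10 : 0 < b₁ := Nat.pos_of_ne_zero (fun h => by subst h; simp at hb)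
  have hkz : (k : ℤ) ≠ 0 := by exact_mod_cast hk0.ne'
  rw [Nat.mul_div_cancel_left _ hk0, Int.mul_ediv_cancel_left _ hkz]
  have e1 : (b₁ : ℤ) * (s - t) - (r₁ - b₁ * t) = b₁ * s - r₁ := by ring
  rw [e1]
  have h1 : Int.gcd ((b₁ : ℤ) * s - r₁) ((b₁ * M : ℕ) : ℤ) ∣
      Int.gcd ((b₁ : ℤ) * s - r₁) (b₁ : ℤ) * Int.gcd ((b₁ : ℤ) * s - r₁) (M : ℤ) := by
    have := Nat.gcd_mul_right_dvd_mul_gcd ((b₁ : ℤ) * s - r₁).natAbs b₁ M
    simpa [Int.gcd, Int.natAbs_mul] using this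
  have h2 : Int.gcd ((b₁ : ℤ) * s - r₁) (b₁ : ℤ) = Int.gcd r₁ (b₁ : ℤ) := by
    have e2 : (b₁ : ℤ) * s - r₁ = -(r₁ - s * b₁) := by ring
    rw [e2, Int.neg_gcd, Int.gcd_sub_mul_right_left]
  rw [h2] at h1
  have h3 : Int.gcd ((b₁ : ℤ) * s - r₁) (M : ℤ) ≤ M := by
    have := Int.gcd_le_natAbs_right ((b₁ : ℤ) * s - r₁) (show (M : ℤ) ≠ 0 by
      exact_mod_cast (by omega : M ≠ 0))
    simpa using this
  have h4 : Int.gcd r₁ (b₁ : ℤ) ≤ Int.gcd ((k : ℤ) * r₁) ((k * b₁ : ℕ) : ℤ) := by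
    push_cast
    rw [Int.gcd_mul_left]
    simp only [Int.natAbs_natCast]
    exact Nat.le_mul_of_pos_left _ hk0
  have h5 : 0 < Int.gcd r₁ (b₁ : ℤ) * Int.gcd ((b₁ : ℤ) * s - r₁) (M : ℤ) := by
    apply Nat.mul_pos
    · exact Int.gcd_pos_of_ne_zero_right _ (by exact_mod_cast hb10.ne')
    · exact Int.gcd_pos_of_ne_zero_right _ (by exact_mod_cast (by omega : M ≠ 0))
  have h6 := Nat.le_of_dvd h5 h1
  calc (Int.gcd ((b₁ : ℤ) * s - r₁) ((b₁ * M : ℕ) : ℤ) : ℝ) ≤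
      ((Int.gcd r₁ (b₁ : ℤ) * Int.gcd ((b₁ : ℤ) * s - r₁) (M : ℤ) : ℕ) : ℝ) := by exact_mod_cast h6
    _ ≤ ((Int.gcd ((k : ℤ) * r₁) ((k * b₁ : ℕ) : ℤ) * M : ℕ) : ℝ) := by
        exact_mod_cast Nat.mul_le_mul h4 h3
    _ = _ := by push_cast; rfl

theorem ept_gs (L : ℝ) (m : ℤ) : gs L m * (1 + |(m : ℝ) / L|) ^ 2 ≤ 3 * Real.exp (-|(m : ℝ) / L|) :=
  big_gauss ((m : ℝ) / L)

/-- the divisors composed with a large part of `D`, for one `v` -/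
theorem ept_big {δ C₁ : ℝ} (hδ : 0 < δ) (hδ1 : δ ≤ 1) (hC : 0 < C₁)
    (hd : ∀ n : ℕ, 0 < n → (n.divisors.card : ℝ) ≤ C₁ * (n : ℝ) ^ δ) {D : ℕ}
    (χ : DirichletCharacter ℂ D) {L : ℝ} (hL : 1 ≤ L) {k b₁ v : ℕ} (hk : 1 ≤ k) (hb : 1 ≤ b₁)
    (hv : 1 ≤ v) (hbv : Nat.Coprime v b₁) {r₁ t : ℤ} (hr : ¬ (b₁ : ℤ) ∣ r₁) (K : ℕ) {Y : ℝ}
    (hY : (b₁ : ℝ) * |((r₁ - b₁ * t : ℤ) : ℝ)| * (1 + L) ≤ Y) :
    ∑ d ∈ Icc 1 K, ‖At χ L (k * b₁) (k * r₁) t (k * (v * d))‖ ≤ 6 * C₁ * Y ^ δ * (1 + L / v) := by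
  have hL0 : 0 < L := by linarith
  have hkz : (k : ℤ) ≠ 0 := by exact_mod_cast (by omega : k ≠ 0)
  have hbr : (1 : ℝ) ≤ b₁ := by exact_mod_cast hb
  have hY0 : 0 ≤ Y := le_trans (by positivity) hY
  have hne : ∀ a : ℤ, (b₁ : ℤ) * a - r₁ ≠ 0 := by
    intro a h1
    exact hr ⟨a, by linarith⟩
  have hr' : r₁ - b₁ * t ≠ 0 := by
    intro h1
    exact hr ⟨t, by linarith⟩
  have hg0 : ∀ m : ℤ, 0 ≤ gs L m := fun m => (Real.exp_pos _).le
  -- the norm of one term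
  have h1 : ∀ d ∈ Icc 1 K, ‖At χ L (k * b₁) (k * r₁) t (k * (v * d))‖ ≤
      ∑' a : ℤ, if ((v * d : ℕ) : ℤ) ∣ b₁ * a - r₁ then gs L (a - t) else 0 := by
    intro d _
    refine (dec_norm χ hL0 _ _ _ _).trans (le_of_eq ?_)
    refine tsum_congr fun a => ?_
    refine if_congr ?_ rfl rfl
    have e1 : ((k * b₁ : ℕ) : ℤ) * a - k * r₁ = k * (b₁ * a - r₁) := by push_cast; ring
    have e2 : ((k * (v * d) : ℕ) : ℤ) = k * ((v * d : ℕ) : ℤ) := by push_cast; ring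
    rw [e1, e2, mul_dvd_mul_iff_left hkz]
  have hs : ∀ d : ℕ, Summable (fun a : ℤ => if ((v * d : ℕ) : ℤ) ∣ b₁ * a - r₁ then gs L (a - t)
      else 0) := by
    intro d
    refine Summable.of_nonneg_of_le (fun a => ?_) (fun a => ?_) (dec_gs_shift hL0 t)
    · split_ifs
      · exact hg0 _
      · exact le_rfl
    · split_ifs
      · exact le_rfl
      · exact hg0 _
  have h2 : ∑ d ∈ Icc 1 K, ‖At χ L (k * b₁) (k * r₁) t (k * (v * d))‖ ≤
      ∑' a : ℤ, ∑ d ∈ Icc 1 K, (if ((v * d : ℕ) : ℤ) ∣ b₁ * a - r₁ then gs L (a - t) else 0) := by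
    rw [Summable.tsum_finsetSum (fun d _ => hs d)]
    exact Finset.sum_le_sum h1
  refine h2.trans ?_
  -- the exponential majorant
  set A : ℤ → Prop := fun m => (v : ℤ) ∣ b₁ * m - (r₁ - b₁ * t) with hA
  have hclass : ∀ m m', A m → A m' → (v : ℤ) ∣ m - m' := by
    intro m m' h3 h4
    have h5 : (v : ℤ) ∣ b₁ * (m - m') := by
      have := dvd_sub h3 h4
      have e1 : ((b₁ : ℤ) * m - (r₁ - b₁ * t)) - (b₁ * m' - (r₁ - b₁ * t)) = b₁ * (m - m') := by ring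
      rwa [e1] at this
    exact (Nat.isCoprime_iff_coprime.2 hbv).dvd_of_dvd_mul_left h5
  have hbig := big_class hL0 hv A hclass
  have hmaj : ∀ a : ℤ, ∑ d ∈ Icc 1 K, (if ((v * d : ℕ) : ℤ) ∣ b₁ * a - r₁ then gs L (a - t) else 0) ≤
      3 * C₁ * Y ^ δ * (if A (a - t) then Real.exp (-|((a - t : ℤ) : ℝ) / L|) else 0) := by
    intro a
    have e1 : ∑ d ∈ Icc 1 K, (if ((v * d : ℕ) : ℤ) ∣ b₁ * a - r₁ then gs L (a - t) else 0) =
        gs L (a - t) * ∑ d ∈ Icc 1 K, (if ((v * d : ℕ) : ℤ) ∣ b₁ * a - r₁ then (1 : ℝ) else 0) := by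
      rw [Finset.mul_sum]
      refine Finset.sum_congr rfl fun d _ => ?_
      split_ifs <;> simp
    rw [e1]
    have h3 := big_count (hne a) hv K
    have hAiff : A (a - t) ↔ (v : ℤ) ∣ b₁ * a - r₁ := by
      simp only [hA]
      have : (b₁ : ℤ) * (a - t) - (r₁ - b₁ * t) = b₁ * a - r₁ := by ring
      rw [this]
    by_cases hAa : A (a - t)
    · rw [if_pos (hAiff.1 hAa)] at h3
      rw [if_pos hAa]
      have h4 : (b₁ : ℤ) * (a - t) - (r₁ - b₁ * t) ≠ 0 := by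
        have : (b₁ : ℤ) * (a - t) - (r₁ - b₁ * t) = b₁ * a - r₁ := by ring
        rw [this]; exact hne a
      have h5 := big_tau hδ hδ1 hC hd hL hb hr' h4 hY
      have e2 : (b₁ : ℤ) * (a - t) - (r₁ - b₁ * t) = b₁ * a - r₁ := by ring
      rw [e2] at h5
      have h6 := ept_gs L (a - t)
      have h7 : (1 + |((a - t : ℤ) : ℝ) / L|) ≤ (1 + |((a - t : ℤ) : ℝ) / L|) ^ 2 := by
        have : 1 ≤ 1 + |((a - t : ℤ) : ℝ) / L| := by linarith [abs_nonneg (((a - t : ℤ) : ℝ) / L)]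
        nlinarith
      have hYδ : 0 ≤ Y ^ δ := Real.rpow_nonneg hY0 δ
      calc gs L (a - t) * ∑ d ∈ Icc 1 K, (if ((v * d : ℕ) : ℤ) ∣ b₁ * a - r₁ then (1 : ℝ) else 0) ≤
          gs L (a - t) * (C₁ * Y ^ δ * (1 + |((a - t : ℤ) : ℝ) / L|)) :=
            mul_le_mul_of_nonneg_left (h3.trans h5) (hg0 _)
        _ ≤ gs L (a - t) * (C₁ * Y ^ δ * (1 + |((a - t : ℤ) : ℝ) / L|) ^ 2) := by
            refine mul_le_mul_of_nonneg_left ?_ (hg0 _)
            exact mul_le_mul_of_nonneg_left h7 (by positivity)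
        _ = C₁ * Y ^ δ * (gs L (a - t) * (1 + |((a - t : ℤ) : ℝ) / L|) ^ 2) := by ring
        _ ≤ C₁ * Y ^ δ * (3 * Real.exp (-|((a - t : ℤ) : ℝ) / L|)) :=
            mul_le_mul_of_nonneg_left h6 (by positivity)
        _ = _ := by ring
    · rw [if_neg (fun h => hAa (hAiff.2 h))] at h3
      rw [if_neg hAa, mul_zero]
      exact mul_nonpos_of_nonneg_of_nonpos (hg0 _) h3
  have hsum1 : Summable (fun m : ℤ => if A m then Real.exp (-|(m : ℝ) / L|) else 0) := by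
    refine Summable.of_nonneg_of_le (fun m => ?_) (fun m => ?_) (big_summable hL0)
    · split_ifs <;> positivity
    · split_ifs
      · exact le_rfl
      · positivity
  have hsum2 : Summable (fun a : ℤ => if A (a - t) then Real.exp (-|((a - t : ℤ) : ℝ) / L|) else 0) :=
    hsum1.comp_injective (i := fun a : ℤ => a - t) (fun a b h => by simpa using h)
  have htot : ∑' a : ℤ, (if A (a - t) then Real.exp (-|((a - t : ℤ) : ℝ) / L|) else 0) =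
      ∑' m : ℤ, (if A m then Real.exp (-|(m : ℝ) / L|) else 0) :=
    (Equiv.subRight t).tsum_eq (fun m : ℤ => if A m then Real.exp (-|(m : ℝ) / L|) else 0)
  have hYδ : 0 ≤ Y ^ δ := Real.rpow_nonneg hY0 δ
  calc ∑' a : ℤ, ∑ d ∈ Icc 1 K, (if ((v * d : ℕ) : ℤ) ∣ b₁ * a - r₁ then gs L (a - t) else 0) ≤
      ∑' a : ℤ, 3 * C₁ * Y ^ δ * (if A (a - t) then Real.exp (-|((a - t : ℤ) : ℝ) / L|) else 0) := by
        refine Summable.tsum_le_tsum hmaj ?_ (hsum2.mul_left _)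
        exact summable_sum fun d _ => hs d
    _ = 3 * C₁ * Y ^ δ * ∑' m : ℤ, (if A m then Real.exp (-|(m : ℝ) / L|) else 0) := by
        rw [tsum_mul_left, htot]
    _ ≤ 3 * C₁ * Y ^ δ * (2 * (1 + L / v)) := mul_le_mul_of_nonneg_left hbig (by positivity)
    _ = _ := by ring

end

end Pool.Agent.EXB
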