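import Pool.Agent.Lib_helper19.EXB.MDN
import Pool.Agent.Lib_helper41.LSP.Defs

/-!
# EXC, part B: the conversions for the final statement
-/

set_option autoImplicit false

namespace Pool.Agent.EXB

open Pool.Agent.LSP (tau)
open Pool.Agent.LSPP (ga)
open Pool.Agent.FG61 (mu)
open Finset MeasureTheory

noncomputable section

/-- the main term of the divisor function in an arithmetic progression -/
def MD {q : ℕ} (χ : DirichletCharacter ℂ q) (N b : ℕ) (g : ℤ) (y : ℝ) : ℂ :=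
  χ N / q * ∑ k ∈ b.divisors.filter (fun k : ℕ => (k : ℤ) ∣ g),
    χ ((g / (k : ℤ) : ℤ)) * (starRingEnd ℂ) (χ ((b / k : ℕ))) *
    ∑ l ∈ (b / k).divisors, (ArithmeticFunction.moebius l : ℂ) / l *
      ((y + 2 * Real.eulerMascheroniConstant - 2 * Real.log (q * k * l) : ℝ) : ℂ)

theorem mdf_eq {q : ℕ} [NeZero q] (χ : DirichletCharacter ℂ q) {N b : ℕ} (hN : Nat.Coprime b N)
    (g : ℤ) (y : ℝ) : MD χ N b g y = Mg χ b (g * N) y := by
  have hq : (q : ℂ) ≠ 0 := by exact_mod_cast NeZero.ne q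
  unfold MD Mg
  rw [Finset.mul_sum]
  have hf : b.divisors.filter (fun k : ℕ => (k : ℤ) ∣ g) =
      b.divisors.filter (fun k : ℕ => (k : ℤ) ∣ g * N) := by
    apply Finset.filter_congr
    intro k hk
    have hkb : k ∣ b := (Nat.mem_divisors.1 hk).1
    have hc : Nat.Coprime k N := Nat.Coprime.coprime_dvd_left hkb hN
    constructor
    · exact fun h => Dvd.dvd.mul_right h _
    · intro h
      exact (Nat.isCoprime_iff_coprime.2 hc).dvd_of_dvd_mul_right h
  rw [← hf]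
  refine Finset.sum_congr rfl fun k hk => ?_
  obtain ⟨hk1, hk2⟩ := Finset.mem_filter.1 hk
  have hk0 : (k : ℤ) ≠ 0 := by
    have := Nat.pos_of_mem_divisors hk1
    exact_mod_cast this.ne'
  have e1 : g * (N : ℤ) / (k : ℤ) = g / (k : ℤ) * N := by
    obtain ⟨c, hc⟩ := hk2
    have h1 : g * (N : ℤ) = k * (c * N) := by rw [hc]; ring
    rw [h1, hc, Int.mul_ediv_cancel_left _ hk0, Int.mul_ediv_cancel_left _ hk0]
  rw [e1, Int.cast_mul, map_mul, Int.cast_natCast]
  have e2 : ∑ l ∈ (b / k).divisors, ((mu l / ((q : ℝ) * l) *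
      (y + 2 * ga - 2 * Real.log (k * q * l)) : ℝ) : ℂ) = (q : ℂ)⁻¹ *
      ∑ l ∈ (b / k).divisors, (ArithmeticFunction.moebius l : ℂ) / l *
      ((y + 2 * Real.eulerMascheroniConstant - 2 * Real.log (q * k * l) : ℝ) : ℂ) := by
    rw [Finset.mul_sum]
    refine Finset.sum_congr rfl fun l hl => ?_
    have hl0 : (l : ℂ) ≠ 0 := by
      have := Nat.pos_of_mem_divisors hl
      exact_mod_cast this.ne'
    rw [mul_comm (k : ℝ) (q : ℝ)]
    unfold mu ga
    push_cast
    field_simp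
  rw [e2]
  ring

theorem mdf_sum {q : ℕ} (χ : DirichletCharacter ℂ q) (N b T : ℕ) (g : ℤ) (f : ℝ → ℝ) :
    ∑ a ∈ Finset.Icc 1 T, χ a * (f a : ℂ) * (tau (((a * b : ℕ) : ℤ) - g * N).natAbs : ℂ) =
      ∑ a ∈ Icc (1 : ℤ) T, χ (a : ZMod q) *
        ((f a * Pool.Agent.LSPD.tau ((b : ℤ) * a - g * N).natAbs : ℝ) : ℂ) := by
  refine Finset.sum_bij (fun a _ => (a : ℤ)) ?_ ?_ ?_ ?_
  · intro a ha
    rw [Finset.mem_Icc] at ha ⊢
    omega
  · intro a _ c _ h
    exact_mod_cast h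
  · intro a ha
    rw [Finset.mem_Icc] at ha
    refine ⟨a.toNat, ?_, ?_⟩
    · rw [Finset.mem_Icc]; omega
    · omega
  · intro a _
    have e1 : (((a * b : ℕ) : ℤ) - g * N) = (b : ℤ) * a - g * N := by push_cast; ring
    rw [e1]
    have e2 : tau ((b : ℤ) * a - g * N).natAbs = Pool.Agent.LSPD.tau ((b : ℤ) * a - g * N).natAbs := rfl
    rw [e2, Complex.ofReal_mul]
    simp only [Int.cast_natCast]
    ring

theorem mdf_int {q : ℕ} [NeZero q] (χ : DirichletCharacter ℂ q) {N b T : ℕ}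
    (hN : Nat.Coprime b N) (g : ℤ) (f : ℝ → ℝ)
    (hf : ∀ x, f x ≠ 0 → 1 < x ∧ x ≤ (T : ℝ) + 1) :
    ∫ a : ℝ, (f a : ℂ) * MD χ N b g (Real.log |a * b - g * N|) =
      ∫ x in (1 : ℝ)..(T + 1), ((f x : ℝ) : ℂ) *
        Mg χ b (g * N) (Real.log ((b : ℝ) * x - ((g * N : ℤ) : ℝ))) := by
  have hT0 : (0 : ℝ) ≤ T := by positivity
  rw [intervalIntegral.integral_of_le (by linarith)]
  rw [← MeasureTheory.setIntegral_eq_integral_of_forall_compl_eq_zero (s := Set.Ioc (1 : ℝ) (T + 1))]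
  · apply MeasureTheory.setIntegral_congr_fun measurableSet_Ioc
    intro x _
    simp only
    rw [mdf_eq χ hN]
    have e1 : Real.log |x * b - g * N| = Real.log ((b : ℝ) * x - ((g * N : ℤ) : ℝ)) := by
      rw [Real.log_abs]
      congr 1
      push_cast
      ring
    rw [e1]
  · intro x hx
    have : f x = 0 := by
      by_contra hcon
      exact hx (hf x hcon)
    rw [this]
    simp

end

end Pool.Agent.EXB
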