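import Mathlib

/-!
# EXC, part B: the sizes
-/

set_option autoImplicit false

namespace Pool.Agent.EXB

noncomputable section

/-- the sizes of the parameters -/
structure Sz (P T A Λ b D Dl V g d B X l : ℝ) : Prop where
  hP : 1 ≤ P
  hl : 1 ≤ l
  T0 : 0 ≤ T
  T1 : T ≤ P ^ (0.5005 : ℝ)
  A0 : 0 ≤ A
  A1 : A ≤ P ^ (-0.4995 : ℝ)
  L0 : 0 ≤ Λ
  L1 : Λ ≤ P ^ (-0.9995 : ℝ)
  b0 : P ^ (0.4995 : ℝ) ≤ b
  b1 : b ≤ P ^ (0.5005 : ℝ)
  D0 : 1 ≤ D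
  D1 : D ≤ P ^ (0.0005 : ℝ)
  Dl0 : 0 ≤ Dl
  Dl1 : Dl ≤ 5 * P ^ (0.5005 : ℝ)
  V0 : P ^ (0.018 : ℝ) ≤ V
  V1 : V ≤ 2 * P ^ (0.018 : ℝ)
  g0 : 0 ≤ g
  g1 : g ≤ P ^ (0.0005 : ℝ)
  d0 : 0 ≤ d
  d1 : d ^ 2 ≤ l * P ^ (0.0003 : ℝ)
  B0 : 0 ≤ B
  B1 : B ≤ 3 * P ^ (0.4855 : ℝ)
  X0 : 1 ≤ X
  X1 : X ≤ 3 * P ^ (1.001 : ℝ)
  lX : Real.log X ≤ l * P ^ (0.0001 : ℝ)
  lm : Real.log (P ^ (0.985 : ℝ)) ≤ l * P ^ (0.0001 : ℝ)
  lb : 2 + 2 * Real.log (b * D) ≤ l * P ^ (0.0001 : ℝ)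

theorem pm {P : ℝ} (hP : 1 ≤ P) {a b c : ℝ} (h : a + b ≤ c) : P ^ a * P ^ b ≤ P ^ c := by
  rw [← Real.rpow_add (by linarith)]
  exact Real.rpow_le_rpow_of_exponent_le hP h

theorem pmn {P : ℝ} (hP : 1 ≤ P) {a b : ℝ} (h : a ≤ b) : P ^ a ≤ P ^ b :=
  Real.rpow_le_rpow_of_exponent_le hP h

theorem pdv {P : ℝ} (hP : 1 ≤ P) {a b c : ℝ} (h : a - b ≤ c) : P ^ a / P ^ b ≤ P ^ c := by
  rw [← Real.rpow_sub (by linarith)]
  exact Real.rpow_le_rpow_of_exponent_le hP h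

variable {P T A Λ b D Dl V g d B X l : ℝ}

theorem sz_TL (h : Sz P T A Λ b D Dl V g d B X l) : T * Λ ≤ P ^ (-0.499 : ℝ) := by
  have hP0 : 0 < P := by linarith [h.hP]
  calc T * Λ ≤ P ^ (0.5005 : ℝ) * P ^ (-0.9995 : ℝ) :=
        mul_le_mul h.T1 h.L1 h.L0 (by positivity)
    _ ≤ _ := pm h.hP (by norm_num)

theorem sz_TA (h : Sz P T A Λ b D Dl V g d B X l) : T * A ≤ P ^ (0.001 : ℝ) := by
  have hP0 : 0 < P := by linarith [h.hP]
  calc T * A ≤ P ^ (0.5005 : ℝ) * P ^ (-0.4995 : ℝ) :=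
        mul_le_mul h.T1 h.A1 h.A0 (by positivity)
    _ ≤ _ := pm h.hP (by norm_num)

theorem sz_bm (h : Sz P T A Λ b D Dl V g d B X l) : b / P ^ (0.985 : ℝ) ≤ P ^ (-0.4845 : ℝ) := by
  have hP0 : 0 < P := by linarith [h.hP]
  calc b / P ^ (0.985 : ℝ) ≤ P ^ (0.5005 : ℝ) / P ^ (0.985 : ℝ) :=
        div_le_div_of_nonneg_right h.b1 (by positivity)
    _ ≤ _ := pdv h.hP (by norm_num)

theorem sz_b0 (h : Sz P T A Λ b D Dl V g d B X l) : 0 < b := by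
  have hP0 : 0 < P := by linarith [h.hP]
  exact lt_of_lt_of_le (by positivity) h.b0

theorem sz_AB (h : Sz P T A Λ b D Dl V g d B X l) : A * B ≤ 3 * P ^ (-0.014 : ℝ) := by
  have hP0 : 0 < P := by linarith [h.hP]
  calc A * B ≤ P ^ (-0.4995 : ℝ) * (3 * P ^ (0.4855 : ℝ)) :=
        mul_le_mul h.A1 h.B1 h.B0 (by positivity)
    _ = 3 * (P ^ (-0.4995 : ℝ) * P ^ (0.4855 : ℝ)) := by ring
    _ ≤ _ := mul_le_mul_of_nonneg_left (pm h.hP (by norm_num)) (by norm_num)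

theorem sz_1 (h : Sz P T A Λ b D Dl V g d B X l) :
    P ^ (0.465 : ℝ) * (T * Λ + A * T * b / P ^ (0.985 : ℝ)) + A * B ≤ 5 * P ^ (-0.014 : ℝ) := by
  have hP0 : 0 < P := by linarith [h.hP]
  have h1 := sz_TL h
  have h2 := sz_TA h
  have h3 := sz_bm h
  have h4 := sz_AB h
  have hb := sz_b0 h
  have h5 : A * T * b / P ^ (0.985 : ℝ) ≤ P ^ (-0.4835 : ℝ) := by
    calc A * T * b / P ^ (0.985 : ℝ) = (T * A) * (b / P ^ (0.985 : ℝ)) := by ring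
      _ ≤ P ^ (0.001 : ℝ) * P ^ (-0.4845 : ℝ) := mul_le_mul h2 h3 (by positivity) (by positivity)
      _ ≤ _ := pm h.hP (by norm_num)
  have h6 : P ^ (0.465 : ℝ) * (T * Λ + A * T * b / P ^ (0.985 : ℝ)) ≤ 2 * P ^ (-0.014 : ℝ) := by
    have i1 : P ^ (0.465 : ℝ) * P ^ (-0.499 : ℝ) ≤ P ^ (-0.014 : ℝ) := pm h.hP (by norm_num)
    have i2 : P ^ (0.465 : ℝ) * P ^ (-0.4835 : ℝ) ≤ P ^ (-0.014 : ℝ) := pm h.hP (by norm_num)
    have i3 : P ^ (0.465 : ℝ) * (T * Λ) ≤ P ^ (0.465 : ℝ) * P ^ (-0.499 : ℝ) :=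
      mul_le_mul_of_nonneg_left h1 (by positivity)
    have i4 : P ^ (0.465 : ℝ) * (A * T * b / P ^ (0.985 : ℝ)) ≤
        P ^ (0.465 : ℝ) * P ^ (-0.4835 : ℝ) := mul_le_mul_of_nonneg_left h5 (by positivity)
    rw [mul_add]
    linarith
  linarith

theorem sz_2 (h : Sz P T A Λ b D Dl V g d B X l) :
    (1 + X / (b * P ^ (0.465 : ℝ))) * (V * D) * (Dl * g / b + (b * (V * D)) ^ (3 / 4 : ℝ)) +
      (1 + P ^ (0.465 : ℝ) / V) ≤ 58 * P ^ (0.447 : ℝ) := by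
  have hP0 : 0 < P := by linarith [h.hP]
  have hb := sz_b0 h
  have hX0 : 0 ≤ X := by linarith [h.X0]
  have hV0 : 0 < V := lt_of_lt_of_le (by positivity) h.V0
  have hD0 : 0 < D := by linarith [h.D0]
  have h1 : 1 + X / (b * P ^ (0.465 : ℝ)) ≤ 4 * P ^ (0.0365 : ℝ) := by
    have i1 : X / (b * P ^ (0.465 : ℝ)) ≤ 3 * P ^ (1.001 : ℝ) / (P ^ (0.4995 : ℝ) * P ^ (0.465 : ℝ)) := by
      apply div_le_div₀ (by positivity) h.X1 (by positivity)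
      exact mul_le_mul_of_nonneg_right h.b0 (by positivity)
    have i2 : 3 * P ^ (1.001 : ℝ) / (P ^ (0.4995 : ℝ) * P ^ (0.465 : ℝ)) =
        3 * (P ^ (1.001 : ℝ) / P ^ (0.9645 : ℝ)) := by
      rw [← Real.rpow_add hP0]
      norm_num
      ring
    have i3 : P ^ (1.001 : ℝ) / P ^ (0.9645 : ℝ) ≤ P ^ (0.0365 : ℝ) := pdv h.hP (by norm_num)
    have i4 : 1 ≤ P ^ (0.0365 : ℝ) := Real.one_le_rpow h.hP (by norm_num)
    linarith
  have h2 : V * D ≤ 2 * P ^ (0.0185 : ℝ) := by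
    calc V * D ≤ (2 * P ^ (0.018 : ℝ)) * P ^ (0.0005 : ℝ) :=
          mul_le_mul h.V1 h.D1 hD0.le (by positivity)
      _ = 2 * (P ^ (0.018 : ℝ) * P ^ (0.0005 : ℝ)) := by ring
      _ ≤ _ := mul_le_mul_of_nonneg_left (pm h.hP (by norm_num)) (by norm_num)
  have h3 : Dl * g / b ≤ 5 * P ^ (0.0015 : ℝ) := by
    calc Dl * g / b ≤ (5 * P ^ (0.5005 : ℝ) * P ^ (0.0005 : ℝ)) / P ^ (0.4995 : ℝ) := by
          apply div_le_div₀ (by positivity) _ (by positivity) h.b0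
          exact mul_le_mul h.Dl1 h.g1 h.g0 (by positivity)
      _ = 5 * (P ^ (0.501 : ℝ) / P ^ (0.4995 : ℝ)) := by
          rw [mul_assoc 5, ← Real.rpow_add hP0]
          norm_num
          ring
      _ ≤ _ := mul_le_mul_of_nonneg_left (pdv h.hP (by norm_num)) (by norm_num)
  have h4 : (b * (V * D)) ^ (3 / 4 : ℝ) ≤ 2 * P ^ (0.38925 : ℝ) := by
    have i1 : b * (V * D) ≤ 2 * P ^ (0.519 : ℝ) := by
      calc b * (V * D) ≤ P ^ (0.5005 : ℝ) * (2 * P ^ (0.0185 : ℝ)) :=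
            mul_le_mul h.b1 h2 (by positivity) (by positivity)
        _ = 2 * (P ^ (0.5005 : ℝ) * P ^ (0.0185 : ℝ)) := by ring
        _ ≤ _ := mul_le_mul_of_nonneg_left (pm h.hP (by norm_num)) (by norm_num)
    calc (b * (V * D)) ^ (3 / 4 : ℝ) ≤ (2 * P ^ (0.519 : ℝ)) ^ (3 / 4 : ℝ) :=
          Real.rpow_le_rpow (by positivity) i1 (by norm_num)
      _ = 2 ^ (3 / 4 : ℝ) * P ^ (0.38925 : ℝ) := by
          rw [Real.mul_rpow (by norm_num) (by positivity), ← Real.rpow_mul hP0.le]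
          norm_num
      _ ≤ 2 * P ^ (0.38925 : ℝ) := by
          refine mul_le_mul_of_nonneg_right ?_ (by positivity)
          calc (2 : ℝ) ^ (3 / 4 : ℝ) ≤ 2 ^ (1 : ℝ) :=
                Real.rpow_le_rpow_of_exponent_le (by norm_num) (by norm_num)
            _ = 2 := Real.rpow_one 2
  have h5 : Dl * g / b + (b * (V * D)) ^ (3 / 4 : ℝ) ≤ 7 * P ^ (0.38925 : ℝ) := by
    have : P ^ (0.0015 : ℝ) ≤ P ^ (0.38925 : ℝ) := pmn h.hP (by norm_num)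
    linarith
  have h6 : (1 + X / (b * P ^ (0.465 : ℝ))) * (V * D) * (Dl * g / b + (b * (V * D)) ^ (3 / 4 : ℝ)) ≤
      56 * P ^ (0.447 : ℝ) := by
    have hg0 := h.g0
    have hDl0 := h.Dl0
    calc (1 + X / (b * P ^ (0.465 : ℝ))) * (V * D) * (Dl * g / b + (b * (V * D)) ^ (3 / 4 : ℝ)) ≤
        (4 * P ^ (0.0365 : ℝ)) * (2 * P ^ (0.0185 : ℝ)) * (7 * P ^ (0.38925 : ℝ)) := by
          gcongr
      _ = 56 * (P ^ (0.0365 : ℝ) * P ^ (0.0185 : ℝ) * P ^ (0.38925 : ℝ)) := by ring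
      _ ≤ 56 * P ^ (0.447 : ℝ) := by
          refine mul_le_mul_of_nonneg_left ?_ (by norm_num)
          rw [← Real.rpow_add hP0, ← Real.rpow_add hP0]
          exact pmn h.hP (by norm_num)
  have h7 : 1 + P ^ (0.465 : ℝ) / V ≤ 2 * P ^ (0.447 : ℝ) := by
    have i1 : P ^ (0.465 : ℝ) / V ≤ P ^ (0.465 : ℝ) / P ^ (0.018 : ℝ) :=
      div_le_div_of_nonneg_left (by positivity) (by positivity) h.V0
    have i2 : P ^ (0.465 : ℝ) / P ^ (0.018 : ℝ) ≤ P ^ (0.447 : ℝ) := pdv h.hP (by norm_num)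
    have i3 : 1 ≤ P ^ (0.447 : ℝ) := Real.one_le_rpow h.hP (by norm_num)
    linarith
  linarith

theorem sz_3 (h : Sz P T A Λ b D Dl V g d B X l) :
    A * d ^ 2 * g * (T * (P ^ (0.985 : ℝ)) ^ (-(1 / 4) : ℝ) + B) ≤ 4 * l * P ^ (-0.0132 : ℝ) := by
  have hP0 : 0 < P := by linarith [h.hP]
  have hl0 : 0 < l := by linarith [h.hl]
  have h1 : T * (P ^ (0.985 : ℝ)) ^ (-(1 / 4) : ℝ) + B ≤ 4 * P ^ (0.4855 : ℝ) := by
    have i1 : (P ^ (0.985 : ℝ)) ^ (-(1 / 4) : ℝ) = P ^ (-0.24625 : ℝ) := by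
      rw [← Real.rpow_mul hP0.le]; norm_num
    have i2 : T * P ^ (-0.24625 : ℝ) ≤ P ^ (0.5005 : ℝ) * P ^ (-0.24625 : ℝ) :=
      mul_le_mul_of_nonneg_right h.T1 (by positivity)
    have i3 : P ^ (0.5005 : ℝ) * P ^ (-0.24625 : ℝ) ≤ P ^ (0.4855 : ℝ) := pm h.hP (by norm_num)
    have := h.B1
    rw [i1]
    linarith
  have hg0 := h.g0
  have hA0 := h.A0
  have hT0 := h.T0
  have hB0 := h.B0
  calc A * d ^ 2 * g * (T * (P ^ (0.985 : ℝ)) ^ (-(1 / 4) : ℝ) + B) ≤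
      P ^ (-0.4995 : ℝ) * (l * P ^ (0.0003 : ℝ)) * P ^ (0.0005 : ℝ) * (4 * P ^ (0.4855 : ℝ)) := by
        gcongr
        · exact h.A1
        · exact h.d1
        · exact h.g1
    _ = 4 * l * (P ^ (-0.4995 : ℝ) * P ^ (0.0003 : ℝ) * P ^ (0.0005 : ℝ) * P ^ (0.4855 : ℝ)) := by ring
    _ ≤ _ := by
        refine mul_le_mul_of_nonneg_left ?_ (by positivity)
        rw [← Real.rpow_add hP0, ← Real.rpow_add hP0, ← Real.rpow_add hP0]
        exact pmn h.hP (by norm_num)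

theorem sz_SL (h : Sz P T A Λ b D Dl V g d B X l) :
    T * (Λ * Real.log X + A * b / P ^ (0.985 : ℝ)) + A * (Real.log (P ^ (0.985 : ℝ)) * B) +
      A * (2 * P ^ (0.985 : ℝ)) / b ≤ 7 * l * P ^ (-0.0139 : ℝ) := by
  have hP0 : 0 < P := by linarith [h.hP]
  have hl0 : 0 < l := by linarith [h.hl]
  have hl1 := h.hl
  have hT0 := h.T0
  have hA0 := h.A0
  have hb := sz_b0 h
  have h1 : T * (Λ * Real.log X) ≤ l * P ^ (-0.0139 : ℝ) := by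
    calc T * (Λ * Real.log X) = (T * Λ) * Real.log X := by ring
      _ ≤ P ^ (-0.499 : ℝ) * (l * P ^ (0.0001 : ℝ)) :=
          mul_le_mul (sz_TL h) h.lX (Real.log_nonneg h.X0) (by positivity)
      _ = l * (P ^ (-0.499 : ℝ) * P ^ (0.0001 : ℝ)) := by ring
      _ ≤ _ := mul_le_mul_of_nonneg_left (pm h.hP (by norm_num)) (by positivity)
  have h2 : T * (A * b / P ^ (0.985 : ℝ)) ≤ l * P ^ (-0.0139 : ℝ) := by
    calc T * (A * b / P ^ (0.985 : ℝ)) = (T * A) * (b / P ^ (0.985 : ℝ)) := by ring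
      _ ≤ P ^ (0.001 : ℝ) * P ^ (-0.4845 : ℝ) :=
          mul_le_mul (sz_TA h) (sz_bm h) (by positivity) (by positivity)
      _ ≤ P ^ (-0.0139 : ℝ) := pm h.hP (by norm_num)
      _ ≤ l * P ^ (-0.0139 : ℝ) := le_mul_of_one_le_left (by positivity) h.hl
  have h3 : A * (Real.log (P ^ (0.985 : ℝ)) * B) ≤ 3 * l * P ^ (-0.0139 : ℝ) := by
    have hlm : 0 ≤ Real.log (P ^ (0.985 : ℝ)) :=
      Real.log_nonneg (Real.one_le_rpow h.hP (by norm_num))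
    calc A * (Real.log (P ^ (0.985 : ℝ)) * B) = Real.log (P ^ (0.985 : ℝ)) * (A * B) := by ring
      _ ≤ (l * P ^ (0.0001 : ℝ)) * (3 * P ^ (-0.014 : ℝ)) :=
          mul_le_mul h.lm (sz_AB h) (mul_nonneg h.A0 h.B0) (by positivity)
      _ = 3 * l * (P ^ (0.0001 : ℝ) * P ^ (-0.014 : ℝ)) := by ring
      _ ≤ _ := mul_le_mul_of_nonneg_left (pm h.hP (by norm_num)) (by positivity)
  have h4 : A * (2 * P ^ (0.985 : ℝ)) / b ≤ 2 * l * P ^ (-0.0139 : ℝ) := by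
    calc A * (2 * P ^ (0.985 : ℝ)) / b ≤ P ^ (-0.4995 : ℝ) * (2 * P ^ (0.985 : ℝ)) / P ^ (0.4995 : ℝ) := by
          apply div_le_div₀ (by positivity) _ (by positivity) h.b0
          exact mul_le_mul_of_nonneg_right h.A1 (by positivity)
      _ = 2 * (P ^ (-0.4995 : ℝ) * P ^ (0.985 : ℝ) / P ^ (0.4995 : ℝ)) := by ring
      _ ≤ 2 * P ^ (-0.0139 : ℝ) := by
          refine mul_le_mul_of_nonneg_left ?_ (by norm_num)
          rw [← Real.rpow_add hP0]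
          exact pdv h.hP (by norm_num)
      _ ≤ 2 * l * P ^ (-0.0139 : ℝ) := by
          refine mul_le_mul_of_nonneg_right ?_ (by positivity)
          linarith
  have e : T * (Λ * Real.log X + A * b / P ^ (0.985 : ℝ)) = T * (Λ * Real.log X) +
      T * (A * b / P ^ (0.985 : ℝ)) := by ring
  rw [e]
  linarith

theorem sz_4 (h : Sz P T A Λ b D Dl V g d B X l) :
    d ^ 2 * ((T * (Λ * Real.log X + A * b / P ^ (0.985 : ℝ)) +
      A * (Real.log (P ^ (0.985 : ℝ)) * B) + A * (2 * P ^ (0.985 : ℝ)) / b) +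
      (2 + 2 * Real.log (b * D)) * (T * Λ)) ≤ 8 * l ^ 2 * P ^ (-0.0132 : ℝ) := by
  have hP0 : 0 < P := by linarith [h.hP]
  have hl0 : 0 < l := by linarith [h.hl]
  have h1 := sz_SL h
  have h2 : (2 + 2 * Real.log (b * D)) * (T * Λ) ≤ l * P ^ (-0.0139 : ℝ) := by
    calc (2 + 2 * Real.log (b * D)) * (T * Λ) ≤ (l * P ^ (0.0001 : ℝ)) * P ^ (-0.499 : ℝ) :=
          mul_le_mul h.lb (sz_TL h) (mul_nonneg h.T0 h.L0) (by positivity)
      _ = l * (P ^ (0.0001 : ℝ) * P ^ (-0.499 : ℝ)) := by ring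
      _ ≤ _ := mul_le_mul_of_nonneg_left (pm h.hP (by norm_num)) (by positivity)
  calc d ^ 2 * ((T * (Λ * Real.log X + A * b / P ^ (0.985 : ℝ)) +
      A * (Real.log (P ^ (0.985 : ℝ)) * B) + A * (2 * P ^ (0.985 : ℝ)) / b) +
      (2 + 2 * Real.log (b * D)) * (T * Λ)) ≤ d ^ 2 * (8 * l * P ^ (-0.0139 : ℝ)) :=
        mul_le_mul_of_nonneg_left (by linarith) (by positivity)
    _ ≤ (l * P ^ (0.0003 : ℝ)) * (8 * l * P ^ (-0.0139 : ℝ)) :=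
        mul_le_mul_of_nonneg_right h.d1 (by positivity)
    _ = 8 * l ^ 2 * (P ^ (0.0003 : ℝ) * P ^ (-0.0139 : ℝ)) := by ring
    _ ≤ _ := mul_le_mul_of_nonneg_left (pm h.hP (by norm_num)) (by positivity)

theorem sz_5 (h : Sz P T A Λ b D Dl V g d B X l) :
    d ^ 2 * (T * A * Real.log X + (T * (Λ * Real.log X + A * b / P ^ (0.985 : ℝ)) +
      A * (Real.log (P ^ (0.985 : ℝ)) * B) + A * (2 * P ^ (0.985 : ℝ)) / b) +
      (2 + 2 * Real.log (b * D)) * (T * A)) ≤ 9 * l ^ 2 * P ^ (0.0014 : ℝ) := by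
  have hP0 : 0 < P := by linarith [h.hP]
  have hl0 : 0 < l := by linarith [h.hl]
  have h1 := sz_SL h
  have h0 : P ^ (-0.0139 : ℝ) ≤ P ^ (0.0011 : ℝ) := pmn h.hP (by norm_num)
  have hTA : 0 ≤ T * A := mul_nonneg h.T0 h.A0
  have h2 : (2 + 2 * Real.log (b * D)) * (T * A) ≤ l * P ^ (0.0011 : ℝ) := by
    calc (2 + 2 * Real.log (b * D)) * (T * A) ≤ (l * P ^ (0.0001 : ℝ)) * P ^ (0.001 : ℝ) :=
          mul_le_mul h.lb (sz_TA h) hTA (by positivity)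
      _ = l * (P ^ (0.0001 : ℝ) * P ^ (0.001 : ℝ)) := by ring
      _ ≤ _ := mul_le_mul_of_nonneg_left (pm h.hP (by norm_num)) (by positivity)
  have h3 : T * A * Real.log X ≤ l * P ^ (0.0011 : ℝ) := by
    calc T * A * Real.log X ≤ P ^ (0.001 : ℝ) * (l * P ^ (0.0001 : ℝ)) :=
          mul_le_mul (sz_TA h) h.lX (Real.log_nonneg h.X0) (by positivity)
      _ = l * (P ^ (0.001 : ℝ) * P ^ (0.0001 : ℝ)) := by ring
      _ ≤ _ := mul_le_mul_of_nonneg_left (pm h.hP (by norm_num)) (by positivity)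
  have h4 : 7 * l * P ^ (-0.0139 : ℝ) ≤ 7 * l * P ^ (0.0011 : ℝ) :=
    mul_le_mul_of_nonneg_left h0 (by positivity)
  calc d ^ 2 * (T * A * Real.log X + (T * (Λ * Real.log X + A * b / P ^ (0.985 : ℝ)) +
      A * (Real.log (P ^ (0.985 : ℝ)) * B) + A * (2 * P ^ (0.985 : ℝ)) / b) +
      (2 + 2 * Real.log (b * D)) * (T * A)) ≤ d ^ 2 * (9 * l * P ^ (0.0011 : ℝ)) :=
        mul_le_mul_of_nonneg_left (by linarith) (by positivity)
    _ ≤ (l * P ^ (0.0003 : ℝ)) * (9 * l * P ^ (0.0011 : ℝ)) :=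
        mul_le_mul_of_nonneg_right h.d1 (by positivity)
    _ = 9 * l ^ 2 * (P ^ (0.0003 : ℝ) * P ^ (0.0011 : ℝ)) := by ring
    _ ≤ _ := mul_le_mul_of_nonneg_left (pm h.hP (by norm_num)) (by positivity)

end

end Pool.Agent.EXB
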