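import Pool.Agent.Lib_helper19.EXB.ASM
import Pool.Agent.Lib_helper19.EXB.PAR
import Pool.Agent.Lib_helper19.EXB.MDF

/-!
# EXC, part B: a smooth character against the divisor function in progressions
-/

set_option autoImplicit false

namespace Pool.Agent.EXB

open Pool.Agent.LSP (tau)
open Pool.Agent.LSPP (ga)
open Pool.Agent.FG61 (mu)
open Finset MeasureTheory

noncomputable section

theorem eq_le {P T A Λ b D Dl V g d B X l C δ W : ℝ} (h : Sz P T A Λ b D Dl V g d B X l)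
    (hC : 0 ≤ C) (hW0 : 0 ≤ W) (hX : X ^ δ ≤ 3 * P ^ (0.0003 : ℝ)) (hW : W ^ δ ≤ 120 * P ^ (0.0005 : ℝ)) :
    EQ C X δ (P ^ (0.465 : ℝ)) T A Λ b (P ^ (0.985 : ℝ)) B X D Dl V g d W ≤
      C * (7000 * l ^ 2) * P ^ (-0.0132 : ℝ) := by
  have hP0 : 0 < P := by linarith [h.hP]
  have hl1 := h.hl
  have hl0 : 0 < l := by linarith
  set L : ℝ := P ^ (0.465 : ℝ) with hL
  have hL0 : 0 < L := by positivity
  set p : ℝ := P ^ (-0.0132 : ℝ) with hp
  have hp0 : 0 < p := by positivity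
  have hll : l ≤ l ^ 2 := by nlinarith
  have hl2 : 1 ≤ l ^ 2 := by nlinarith
  have h1 := sz_1 h
  have h2 := sz_2 h
  have h3 := sz_3 h
  have h4 := sz_4 h
  have h5 := sz_5 h
  rw [← hL] at h1 h2
  have hTA0 : 0 ≤ T * A := mul_nonneg h.T0 h.A0
  -- the five terms
  have t1 : X ^ δ * L * (L * (T * Λ + A * T * b / P ^ (0.985 : ℝ)) + A * B) ≤ L * (15 * p) := by
    have hb := sz_b0 h
    have i0 : 0 ≤ L * (T * Λ + A * T * b / P ^ (0.985 : ℝ)) + A * B := by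
      have := h.T0; have := h.A0; have := h.L0; have := h.B0
      positivity
    calc X ^ δ * L * (L * (T * Λ + A * T * b / P ^ (0.985 : ℝ)) + A * B) ≤
        (3 * P ^ (0.0003 : ℝ)) * L * (5 * P ^ (-0.014 : ℝ)) := by
          refine mul_le_mul (mul_le_mul_of_nonneg_right hX hL0.le) h1 i0 (by positivity)
      _ = L * (15 * (P ^ (0.0003 : ℝ) * P ^ (-0.014 : ℝ))) := by ring
      _ ≤ L * (15 * p) := by
          refine mul_le_mul_of_nonneg_left ?_ hL0.le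
          exact mul_le_mul_of_nonneg_left (pm h.hP (by norm_num)) (by norm_num)
  have t2 : T * A * (W ^ δ * ((1 + X / (b * L)) * (V * D) * (Dl * g / b +
      (b * (V * D)) ^ (3 / 4 : ℝ)) + (1 + L / V))) ≤ L * (6960 * p) := by
    have hb := sz_b0 h
    have hV : 0 < V := lt_of_lt_of_le (by positivity) h.V0
    have i0 : 0 ≤ (1 + X / (b * L)) * (V * D) * (Dl * g / b +
      (b * (V * D)) ^ (3 / 4 : ℝ)) + (1 + L / V) := by
      have := h.Dl0; have := h.g0; have := h.D0; have := h.X0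
      positivity
    calc T * A * (W ^ δ * ((1 + X / (b * L)) * (V * D) * (Dl * g / b +
      (b * (V * D)) ^ (3 / 4 : ℝ)) + (1 + L / V))) ≤
        P ^ (0.001 : ℝ) * ((120 * P ^ (0.0005 : ℝ)) * (58 * P ^ (0.447 : ℝ))) := by
          refine mul_le_mul (sz_TA h) (mul_le_mul hW h2 i0 (by positivity)) ?_ (by positivity)
          exact mul_nonneg (Real.rpow_nonneg hW0 _) i0
      _ = 6960 * (P ^ (0.001 : ℝ) * P ^ (0.0005 : ℝ) * P ^ (0.447 : ℝ)) := by ring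
      _ ≤ 6960 * (L * p) := by
          refine mul_le_mul_of_nonneg_left ?_ (by norm_num)
          rw [hL, hp, ← Real.rpow_add hP0, ← Real.rpow_add hP0, ← Real.rpow_add hP0]
          exact pmn h.hP (by norm_num)
      _ = _ := by ring
  have t3 : L * (A * d ^ 2 * g * (T * (P ^ (0.985 : ℝ)) ^ (-(1 / 4) : ℝ) + B)) ≤
      L * (4 * l ^ 2 * p) := by
    refine mul_le_mul_of_nonneg_left (h3.trans ?_) hL0.le
    rw [← hp]
    exact mul_le_mul_of_nonneg_right (by linarith) hp0.le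
  have t4 := mul_le_mul_of_nonneg_left h4 hL0.le
  have t5 : 9 * l ^ 2 * P ^ (0.0014 : ℝ) ≤ L * (9 * l ^ 2 * p) := by
    have : P ^ (0.0014 : ℝ) ≤ L * p := by
      rw [hL, hp, ← Real.rpow_add hP0]
      exact pmn h.hP (by norm_num)
    calc 9 * l ^ 2 * P ^ (0.0014 : ℝ) ≤ 9 * l ^ 2 * (L * p) :=
          mul_le_mul_of_nonneg_left this (by positivity)
      _ = _ := by ring
  unfold EQ
  rw [div_mul_eq_mul_div, div_le_iff₀ hL0]
  have e1 : C * (7000 * l ^ 2) * p * L = C * (L * (7000 * l ^ 2 * p)) := by ring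
  rw [e1]
  refine mul_le_mul_of_nonneg_left ?_ hC
  have e2 : L * (15 * p) + L * (6960 * p) + L * (4 * l ^ 2 * p) + L * (8 * l ^ 2 * p) +
      L * (9 * l ^ 2 * p) ≤ L * (7000 * l ^ 2 * p) := by
    have i1 : L * (15 * p) ≤ L * (15 * l ^ 2 * p) := by
      refine mul_le_mul_of_nonneg_left ?_ hL0.le
      refine mul_le_mul_of_nonneg_right ?_ hp0.le
      linarith
    have i2 : L * (6960 * p) ≤ L * (6960 * l ^ 2 * p) := by
      refine mul_le_mul_of_nonneg_left ?_ hL0.le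
      refine mul_le_mul_of_nonneg_right ?_ hp0.le
      linarith
    have i3 : 0 ≤ L * (l ^ 2 * p) := by positivity
    nlinarith
  rw [← hp] at t4
  linarith

theorem fin_log {P : ℝ} (hP : 1 ≤ P) : Real.log P ≤ 10000 * P ^ (0.0001 : ℝ) := by
  have h := Real.log_le_rpow_div (x := P) (by linarith) (ε := 0.0001) (by norm_num)
  have e : P ^ (0.0001 : ℝ) / 0.0001 = 10000 * P ^ (0.0001 : ℝ) := by
    rw [div_eq_mul_inv]; norm_num; ring
  linarith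

/-- the theorem -/
theorem od_one : ∃ N₀ : ℕ, ∀ N : ℕ, N₀ ≤ N → N.Prime → ∀ κ : ℝ, 0 < κ → κ ≤ 1 / 2000 →
    ∀ (q : ℕ) [NeZero q] (χ : DirichletCharacter ℂ q), χ.IsPrimitive → 2 ≤ q →
    (q : ℝ) ≤ (N : ℝ) ^ κ → ∀ b : ℕ, (N : ℝ) ^ (1 / 2 - κ) ≤ b → (b : ℝ) ≤ (N : ℝ) ^ (1 / 2 + κ) →
    ∀ g : ℤ, g ≠ 0 → |(g : ℝ)| ≤ (N : ℝ) ^ κ → ∀ f : ℝ → ℝ,
    (∀ a, f a ≠ 0 → (N : ℝ) ^ (1 / 2 - κ) ≤ a ∧ a ≤ (N : ℝ) ^ (1 / 2 + κ)) →
    (∀ a, |f a| ≤ (N : ℝ) ^ (-(1 / 2) + κ)) →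
    (∀ a a', |f a - f a'| ≤ (N : ℝ) ^ (-1 + κ) * |a - a'|) →
    ‖∑ a ∈ Finset.Icc 1 ⌊(N : ℝ) ^ (1 / 2 + κ)⌋₊, χ a * (f a : ℂ) *
        (tau (((a * b : ℕ) : ℤ) - g * N).natAbs : ℂ) -
      ∫ a : ℝ, (f a : ℂ) * MD χ N b g (Real.log |a * b - g * N|)‖ ≤ (N : ℝ) ^ (-(1 / 80) : ℝ) := by
  obtain ⟨C, hC, hasm⟩ := asm (δ := 1 / 5000) (by norm_num) (by norm_num)
  obtain ⟨C₁, hC₁, hdiv⟩ := Pool.Agent.FG61.divisor_bound (ε := 0.00025) (by norm_num)
  set l : ℝ := 20002 + C₁ ^ 2 with hl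
  have hl1 : 20002 ≤ l := by
    have := sq_nonneg C₁
    linarith
  set K : ℝ := C * (7000 * l ^ 2) with hK
  have hK0 : 0 ≤ K := by positivity
  set M : ℝ := max C K with hM
  have hM1 : 1 ≤ M := hC.trans (le_max_left _ _)
  refine ⟨⌈M ^ (1 / 0.0007 : ℝ)⌉₊ + 2, ?_⟩
  intro N hN0 hNp κ hκ hκ1 q _ χ hχ hq2 hqκ b hb0 hb1 g hg0 hgκ f hfs hfA hfL
  obtain ⟨P, hP⟩ : ∃ P : ℝ, P = (N : ℝ) := ⟨_, rfl⟩
  rw [← hP] at hqκ hb0 hb1 hgκ hfs hfA hfL
  have hPM : M ^ (1 / 0.0007 : ℝ) ≤ P := by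
    refine (Nat.le_ceil _).trans ?_
    have : ⌈M ^ (1 / 0.0007 : ℝ)⌉₊ ≤ N := by omega
    rw [hP]
    exact_mod_cast this
  clear_value M
  have hN2 : 2 ≤ N := by omega
  have hP2 : 2 ≤ P := by rw [hP]; exact_mod_cast hN2
  have hP1 : 1 ≤ P := by linarith
  have hP0 : 0 < P := by linarith
  have hMP : M ≤ P ^ (0.0007 : ℝ) := by
    have h1 : (M ^ (1 / 0.0007 : ℝ)) ^ (0.0007 : ℝ) ≤ P ^ (0.0007 : ℝ) :=
      Real.rpow_le_rpow (by positivity) hPM (by norm_num)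
    have e0 : (1 / 0.0007 : ℝ) * 0.0007 = 1 := by norm_num
    rw [← Real.rpow_mul (by linarith), e0, Real.rpow_one] at h1
    exact h1
  have hCM : C ≤ M := by rw [hM]; exact le_max_left _ _
  have hKM : K ≤ M := by rw [hM]; exact le_max_right _ _
  have hCP : C ≤ P ^ (0.465 : ℝ) := hCM.trans (hMP.trans (pmn hP1 (by norm_num)))
  have hKP : K ≤ P ^ (0.0007 : ℝ) := hKM.trans hMP
  -- the sizes of b, q, g
  have hκ2 : κ ≤ 0.0005 := by norm_num at hκ1 ⊢; linarith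
  have hbL : P ^ (0.4995 : ℝ) ≤ b := (pmn hP1 (by linarith)).trans hb0
  have hbU : (b : ℝ) ≤ P ^ (0.5005 : ℝ) := hb1.trans (pmn hP1 (by linarith))
  have hqU : (q : ℝ) ≤ P ^ (0.0005 : ℝ) := hqκ.trans (pmn hP1 hκ2)
  have hgU : |(g : ℝ)| ≤ P ^ (0.0005 : ℝ) := hgκ.trans (pmn hP1 hκ2)
  have hbR1 : (1 : ℝ) ≤ b := (Real.one_le_rpow hP1 (by norm_num)).trans hbL
  have hb1n : 1 ≤ b := by exact_mod_cast hbR1
  have hPlt : P ^ (0.5005 : ℝ) < P := by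
    calc P ^ (0.5005 : ℝ) < P ^ (1 : ℝ) :=
          Real.rpow_lt_rpow_of_exponent_lt (by linarith) (by norm_num)
      _ = P := Real.rpow_one P
  have hbN : b < N := by
    have : (b : ℝ) < (N : ℝ) := by
      rw [← hP]
      exact lt_of_le_of_lt hbU hPlt
    exact_mod_cast this
  have hcop : Nat.Coprime b N := by
    rw [Nat.coprime_comm, Nat.Prime.coprime_iff_not_dvd hNp]
    intro h
    have := Nat.le_of_dvd hb1n h
    omega
  have hgb : |(g : ℝ)| < b := by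
    refine lt_of_le_of_lt hgU (lt_of_lt_of_le ?_ hbL)
    exact Real.rpow_lt_rpow_of_exponent_lt (by linarith) (by norm_num)
  have hgbn : g.natAbs < b := by
    have h1 : ((g.natAbs : ℕ) : ℝ) = |(g : ℝ)| := by rw [Nat.cast_natAbs, Int.cast_abs]
    rw [← h1] at hgb
    exact_mod_cast hgb
  have hgn0 : 0 < g.natAbs := Int.natAbs_pos.2 hg0
  have hbr : ¬ (b : ℤ) ∣ g * N := by
    intro h
    have h1 : (b : ℤ) ∣ g := (Nat.isCoprime_iff_coprime.2 hcop).dvd_of_dvd_mul_right h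
    have h2 := Nat.le_of_dvd hgn0 (Int.natCast_dvd.1 h1)
    omega
  -- the parameters
  obtain ⟨T, hT⟩ : ∃ T : ℕ, T = ⌊(N : ℝ) ^ (1 / 2 + κ)⌋₊ := ⟨_, rfl⟩
  rw [← hT]
  rw [← hP] at hT
  have h1P : (1 : ℝ) ≤ P ^ (0.5005 : ℝ) := Real.one_le_rpow hP1 (by norm_num)
  obtain ⟨Dl, hDlL, hDlU⟩ : ∃ Dl : ℕ, 4 * P ^ (0.5005 : ℝ) ≤ Dl ∧
      (Dl : ℝ) ≤ 5 * P ^ (0.5005 : ℝ) := by
    refine ⟨⌈4 * P ^ (0.5005 : ℝ)⌉₊, Nat.le_ceil _, ?_⟩
    have := (Nat.ceil_lt_add_one (show 0 ≤ 4 * P ^ (0.5005 : ℝ) by positivity)).le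
    linarith
  obtain ⟨V₀, hVL, hVU⟩ : ∃ V₀ : ℕ, P ^ (0.018 : ℝ) ≤ V₀ ∧ (V₀ : ℝ) ≤ 2 * P ^ (0.018 : ℝ) := by
    refine ⟨⌈P ^ (0.018 : ℝ)⌉₊, Nat.le_ceil _, ?_⟩
    have := (Nat.ceil_lt_add_one (show 0 ≤ P ^ (0.018 : ℝ) by positivity)).le
    have h2 : (1 : ℝ) ≤ P ^ (0.018 : ℝ) := Real.one_le_rpow hP1 (by norm_num)
    linarith
  obtain ⟨X, hX⟩ : ∃ X : ℝ, X = 3 * P ^ (1.001 : ℝ) := ⟨_, rfl⟩
  obtain ⟨W, hW⟩ : ∃ W : ℝ, W = 120 * P ^ (5 / 2 : ℝ) := ⟨_, rfl⟩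
  have hX0 : 0 < X := by rw [hX]; positivity
  have hW0 : 0 < W := by rw [hW]; positivity
  have hTU : (T : ℝ) ≤ P ^ (0.5005 : ℝ) := by
    rw [hT]
    exact (Nat.floor_le (by positivity)).trans (pmn hP1 (by linarith))
  have hm0 : 1 ≤ P ^ (0.985 : ℝ) := Real.one_le_rpow hP1 (by norm_num)
  have hX1 : P ^ (1.001 : ℝ) ≤ X := by
    rw [hX]; linarith [show 0 ≤ P ^ (1.001 : ℝ) by positivity]
  have hmX : P ^ (0.985 : ℝ) ≤ X := (pmn hP1 (by norm_num)).trans hX1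
  have hXR : ∀ x ∈ Set.Icc (1 : ℝ) (T + 1), |(b : ℝ) * x - ((g * N : ℤ) : ℝ)| ≤ X := by
    intro x hx
    have i1 : (b : ℝ) * x ≤ P ^ (0.5005 : ℝ) * (P ^ (0.5005 : ℝ) + 1) := by
      refine mul_le_mul hbU (by linarith [hx.2]) (by linarith [hx.1]) (by positivity)
    have i2 : P ^ (0.5005 : ℝ) * P ^ (0.5005 : ℝ) ≤ P ^ (1.001 : ℝ) := pm hP1 (by norm_num)
    have i3 : P ^ (0.5005 : ℝ) ≤ P ^ (1.001 : ℝ) := pmn hP1 (by norm_num)
    have i4 : |(g : ℝ)| * P ≤ P ^ (1.001 : ℝ) := by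
      calc |(g : ℝ)| * P ≤ P ^ (0.0005 : ℝ) * P ^ (1 : ℝ) := by
            rw [Real.rpow_one]
            exact mul_le_mul_of_nonneg_right hgU hP0.le
        _ ≤ _ := pm hP1 (by norm_num)
    refine (abs_sub _ _).trans ?_
    push_cast
    rw [abs_mul, abs_mul, abs_of_nonneg (by linarith : (0 : ℝ) ≤ b),
      abs_of_nonneg (by linarith [hx.1] : (0 : ℝ) ≤ x), ← hP, abs_of_nonneg hP0.le, hX]
    linarith
  have hDlX : Real.exp (1 / 2) * Real.sqrt (3 / 2 * X) ≤ Dl := by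
    refine le_trans ?_ hDlL
    apply abs_le_of_sq_le_sq' _ (by positivity) |>.2
    rw [mul_pow, Real.sq_sqrt (by positivity), ← Real.exp_nat_mul, mul_pow, hX]
    have i1 : (P ^ (0.5005 : ℝ)) ^ 2 = P ^ (1.001 : ℝ) := by
      rw [← Real.rpow_natCast, ← Real.rpow_mul hP0.le]; norm_num
    rw [i1]
    have i2 : Real.exp ((2 : ℕ) * (1 / 2)) ≤ 2.7182818286 := by
      have : ((2 : ℕ) : ℝ) * (1 / 2) = 1 := by norm_num
      rw [this]
      exact Real.exp_one_lt_d9.le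
    have i3 : 0 < P ^ (1.001 : ℝ) := by positivity
    calc Real.exp ((2 : ℕ) * (1 / 2)) * (3 / 2 * (3 * P ^ (1.001 : ℝ))) ≤
        2.7182818286 * (3 / 2 * (3 * P ^ (1.001 : ℝ))) :=
          mul_le_mul_of_nonneg_right i2 (by positivity)
      _ ≤ 4 ^ 2 * P ^ (1.001 : ℝ) := by linarith
  have hLb : (b : ℝ) * P ^ (0.465 : ℝ) ≤ X := by
    calc (b : ℝ) * P ^ (0.465 : ℝ) ≤ P ^ (0.5005 : ℝ) * P ^ (0.465 : ℝ) :=
          mul_le_mul_of_nonneg_right hbU (by positivity)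
      _ ≤ P ^ (1.001 : ℝ) := pm hP1 (by norm_num)
      _ ≤ X := hX1
  have h1L : 1 + P ^ (0.465 : ℝ) ≤ 2 * P ^ (0.465 : ℝ) := by
    have : (1 : ℝ) ≤ P ^ (0.465 : ℝ) := Real.one_le_rpow hP1 (by norm_num)
    linarith
  have hWb : 2 * (b : ℝ) * q * Dl * V₀ * X * (1 + P ^ (0.465 : ℝ)) ≤ W := by
    calc 2 * (b : ℝ) * q * Dl * V₀ * X * (1 + P ^ (0.465 : ℝ)) ≤
        2 * P ^ (0.5005 : ℝ) * P ^ (0.0005 : ℝ) * (5 * P ^ (0.5005 : ℝ)) * (2 * P ^ (0.018 : ℝ)) *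
          (3 * P ^ (1.001 : ℝ)) * (2 * P ^ (0.465 : ℝ)) := by
          rw [hX]
          gcongr
      _ = 120 * (P ^ (0.5005 : ℝ) * P ^ (0.0005 : ℝ) * P ^ (0.5005 : ℝ) * P ^ (0.018 : ℝ) *
          P ^ (1.001 : ℝ) * P ^ (0.465 : ℝ)) := by ring
      _ ≤ W := by
          rw [hW]
          refine mul_le_mul_of_nonneg_left ?_ (by norm_num)
          simp only [← Real.rpow_add hP0]
          exact pmn hP1 (by norm_num)
  have hpos : (1 : ℝ) < P ^ (1 / 2 - κ) := Real.one_lt_rpow (by linarith) (by linarith)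
  have hfT : ∀ x, f x ≠ 0 → 1 < x ∧ x ≤ (T : ℝ) + 1 := by
    intro x hx
    obtain ⟨h1, h2⟩ := hfs x hx
    refine ⟨lt_of_lt_of_le hpos h1, h2.trans ?_⟩
    rw [hT]
    exact (Nat.lt_floor_add_one _).le
  have hfI : ∀ t : ℤ, f t ≠ 0 → t ∈ Icc (1 : ℤ) T := by
    intro t ht
    obtain ⟨h1, h2⟩ := hfs t ht
    have h3 : (1 : ℝ) < t := lt_of_lt_of_le hpos h1
    have h4 : 1 < t := by exact_mod_cast h3
    rw [Finset.mem_Icc]
    refine ⟨by omega, ?_⟩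
    have h5 : t.toNat ≤ T := by
      rw [hT]
      apply Nat.le_floor
      have h6 : ((t.toNat : ℕ) : ℝ) = (t : ℝ) := by
        have : ((t.toNat : ℕ) : ℤ) = t := Int.toNat_of_nonneg (by omega)
        exact_mod_cast this
      rw [h6]
      exact h2
    omega
  have hmain := hasm hχ hCP hb1n (by
      have : (1 : ℝ) ≤ Dl := by linarith
      exact_mod_cast this) (by
      have : (1 : ℝ) ≤ V₀ := (Real.one_le_rpow hP1 (by norm_num)).trans hVL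
      exact_mod_cast this) hbr hm0 hmX le_rfl hLb hWb hXR hDlX
    (by positivity : (0 : ℝ) ≤ P ^ (-(1 / 2) + κ)) (by positivity : (0 : ℝ) ≤ P ^ (-1 + κ)) hfI hfA hfL
  rw [mdf_sum, mdf_int χ hcop g f hfT]
  refine hmain.trans ?_
  rw [← hP]
  -- the sizes
  have hgcd : (Int.gcd (g * N) b : ℝ) ≤ P ^ (0.0005 : ℝ) := by
    refine le_trans ?_ hgU
    have h1 : Int.gcd (g * N) b ≤ g.natAbs := by
      have h2 : Int.gcd (g * N) b ∣ g.natAbs := by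
        have h3 : Int.gcd (g * N) b = Nat.gcd (g.natAbs * N) b := by
          unfold Int.gcd
          rw [Int.natAbs_mul]
          simp
        rw [h3, Nat.Coprime.gcd_mul_right_cancel _ (Nat.coprime_comm.1 hcop)]
        exact Nat.gcd_dvd_left _ _
      exact Nat.le_of_dvd hgn0 h2
    have h4 : ((g.natAbs : ℕ) : ℝ) = |(g : ℝ)| := by rw [Nat.cast_natAbs, Int.cast_abs]
    rw [← h4]
    exact_mod_cast h1
  have hlogs : Real.log P ≤ 10000 * P ^ (0.0001 : ℝ) := fin_log hP1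
  have h1P1 : (1 : ℝ) ≤ P ^ (0.0001 : ℝ) := Real.one_le_rpow hP1 (by norm_num)
  have h0P : 0 ≤ Real.log P := Real.log_nonneg hP1
  have hl4 : 20002 * P ^ (0.0001 : ℝ) ≤ l * P ^ (0.0001 : ℝ) :=
    mul_le_mul_of_nonneg_right hl1 (by positivity)
  have hqR : (1 : ℝ) ≤ q := by
    have : 1 ≤ q := by omega
    exact_mod_cast this
  have hsz : Sz P T (P ^ (-(1 / 2) + κ)) (P ^ (-1 + κ)) b q Dl V₀ (Int.gcd (g * N) b)
      b.divisors.card (2 * P ^ (0.985 : ℝ) / b + 1) X l := by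
    refine ⟨hP1, by linarith, by positivity, hTU, by positivity, pmn hP1 (by linarith),
      by positivity, pmn hP1 (by linarith), hbL, hbU, hqR, hqU, by positivity, hDlU, hVL, hVU,
      by positivity, hgcd, by positivity, ?_, by positivity, ?_, by linarith, hX.le, ?_, ?_, ?_⟩
    · have h1 := hdiv b hb1n
      have h2 : (b : ℝ) ^ (0.00025 : ℝ) ≤ P ^ (0.00015 : ℝ) := by
        calc (b : ℝ) ^ (0.00025 : ℝ) ≤ (P ^ (0.5005 : ℝ)) ^ (0.00025 : ℝ) :=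
              Real.rpow_le_rpow (by positivity) hbU (by norm_num)
          _ = P ^ (0.000125125 : ℝ) := by rw [← Real.rpow_mul hP0.le]; norm_num
          _ ≤ _ := pmn hP1 (by norm_num)
      calc (b.divisors.card : ℝ) ^ 2 ≤ (C₁ * P ^ (0.00015 : ℝ)) ^ 2 := by
            apply pow_le_pow_left₀ (by positivity)
            exact h1.trans (mul_le_mul_of_nonneg_left h2 hC₁.le)
        _ = C₁ ^ 2 * P ^ (0.0003 : ℝ) := by
            rw [mul_pow, ← Real.rpow_natCast (P ^ (0.00015 : ℝ)), ← Real.rpow_mul hP0.le]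
            norm_num
        _ ≤ l * P ^ (0.0003 : ℝ) := by
            refine mul_le_mul_of_nonneg_right ?_ (by positivity)
            rw [hl]; linarith
    · have h1 : P ^ (0.985 : ℝ) / b ≤ P ^ (0.985 : ℝ) / P ^ (0.4995 : ℝ) :=
        div_le_div_of_nonneg_left (by positivity) (by positivity) hbL
      have h2 : P ^ (0.985 : ℝ) / P ^ (0.4995 : ℝ) ≤ P ^ (0.4855 : ℝ) := pdv hP1 (by norm_num)
      have h3 : (1 : ℝ) ≤ P ^ (0.4855 : ℝ) := Real.one_le_rpow hP1 (by norm_num)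
      rw [mul_div_assoc]
      linarith
    · rw [hX, Real.log_mul (by norm_num) (by positivity), Real.log_rpow hP0]
      have h1 : Real.log 3 ≤ 2 := by
        have := Real.log_le_sub_one_of_pos (show (0 : ℝ) < 3 by norm_num)
        linarith
      linarith
    · rw [Real.log_rpow hP0]
      linarith
    · have h1 : (b : ℝ) * q ≤ P := by
        calc (b : ℝ) * q ≤ P ^ (0.5005 : ℝ) * P ^ (0.0005 : ℝ) :=
              mul_le_mul hbU hqU (by positivity) (by positivity)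
          _ ≤ P ^ (1 : ℝ) := pm hP1 (by norm_num)
          _ = P := Real.rpow_one P
      have h2 : Real.log ((b : ℝ) * q) ≤ Real.log P := Real.log_le_log (by positivity) h1
      linarith
  have hXd : X ^ (1 / 5000 : ℝ) ≤ 3 * P ^ (0.0003 : ℝ) := by
    rw [hX, Real.mul_rpow (by norm_num) (by positivity), ← Real.rpow_mul hP0.le]
    refine mul_le_mul ?_ (pmn hP1 (by norm_num)) (by positivity) (by norm_num)
    calc (3 : ℝ) ^ (1 / 5000 : ℝ) ≤ 3 ^ (1 : ℝ) :=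
          Real.rpow_le_rpow_of_exponent_le (by norm_num) (by norm_num)
      _ = 3 := Real.rpow_one 3
  have hWd : W ^ (1 / 5000 : ℝ) ≤ 120 * P ^ (0.0005 : ℝ) := by
    rw [hW, Real.mul_rpow (by norm_num) (by positivity), ← Real.rpow_mul hP0.le]
    refine mul_le_mul ?_ (pmn hP1 (by norm_num)) (by positivity) (by norm_num)
    calc (120 : ℝ) ^ (1 / 5000 : ℝ) ≤ 120 ^ (1 : ℝ) :=
          Real.rpow_le_rpow_of_exponent_le (by norm_num) (by norm_num)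
      _ = 120 := Real.rpow_one 120
  have hfin := eq_le hsz (C := C) (δ := 1 / 5000) (W := W) (by linarith) (by positivity) hXd hWd
  refine hfin.trans ?_
  rw [← hK]
  calc K * P ^ (-0.0132 : ℝ) ≤ P ^ (0.0007 : ℝ) * P ^ (-0.0132 : ℝ) :=
        mul_le_mul_of_nonneg_right hKP (by positivity)
    _ ≤ P ^ (-(1 / 80) : ℝ) := pm hP1 (by norm_num)

end

end Pool.Agent.EXB
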