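import Pool.Agent.Lib_helper19.EXB.DEC
import Pool.Agent.Lib_helper15.LSPF.HAR

/-!
# EXC, part B: the main term
-/

set_option autoImplicit false

namespace Pool.Agent.EXB

open Pool.Agent.LSPD (tau gs)
open Pool.Agent.LSPO (hyp)
open Pool.Agent.LSPP (Hf ga)
open Pool.Agent.FG61 (mu)
open Finset

noncomputable section

/-- the truncated sum over the multiples -/
theorem mdn_fac {D b₁ : ℕ} (hD : 1 ≤ D) (hc : Nat.Coprime b₁ D) (K : ℕ) (G : ℕ → ℂ) :
    ∑ v ∈ (Vs D b₁ K).filter (fun v => D ∣ v), ∑ d ∈ Ks D b₁ (K / v), G (v * d) =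
      ∑ n ∈ (Icc 1 K).filter (fun n => D ∣ n ∧ Nat.Coprime n b₁), G n := by
  rw [Finset.sum_filter (s := Icc 1 K)]
  rw [dec_fac hD K (fun n => if D ∣ n ∧ Nat.Coprime n b₁ then G n else 0)]
  unfold Vs Ks
  rw [Finset.filter_filter]
  have e1 : (Icc 1 K).filter (fun v => (v.primeFactors ⊆ D.primeFactors ∧ Nat.Coprime v b₁) ∧ D ∣ v) =
      ((Icc 1 K).filter (fun v => v.primeFactors ⊆ D.primeFactors)).filter
        (fun v => Nat.Coprime v b₁ ∧ D ∣ v) := by
    rw [Finset.filter_filter]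
    apply Finset.filter_congr
    intro v _
    tauto
  rw [e1, Finset.sum_filter (s := (Icc 1 K).filter _)]
  refine Finset.sum_congr rfl fun v hv => ?_
  have hv1 := (Finset.mem_filter.1 hv).2
  by_cases h : Nat.Coprime v b₁ ∧ D ∣ v
  · rw [if_pos h]
    rw [← Finset.filter_filter, Finset.sum_filter (s := (Icc 1 (K / v)).filter _)]
    refine Finset.sum_congr rfl fun d _ => ?_
    have e2 : (D ∣ v * d ∧ Nat.Coprime (v * d) b₁) ↔ Nat.Coprime d b₁ := by
      rw [Nat.coprime_mul_iff_left]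
      constructor
      · exact fun h' => h'.2.2
      · exact fun h' => ⟨Dvd.dvd.mul_right h.2 d, h.1, h'⟩
    exact (if_congr e2 rfl rfl).symm
  · rw [if_neg h]
    symm
    refine Finset.sum_eq_zero fun d hd => ?_
    have hd1 := (Finset.mem_filter.1 hd).2
    rw [if_neg]
    rintro ⟨h1, h2⟩
    apply h
    refine ⟨Nat.Coprime.coprime_dvd_left (Dvd.intro _ rfl) h2, ?_⟩
    exact Nat.Coprime.dvd_of_dvd_mul_right hd1.symm h1

/-- Moebius for the coprimality -/
theorem mdn_mob {D b₁ : ℕ} (hD : 1 ≤ D) (hb : 1 ≤ b₁) (hc : Nat.Coprime b₁ D) (K : ℕ) (G : ℕ → ℂ) :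
    ∑ n ∈ (Icc 1 K).filter (fun n => D ∣ n ∧ Nat.Coprime n b₁), G n =
      ∑ l ∈ b₁.divisors, ((mu l : ℝ) : ℂ) * ∑ i ∈ Icc 1 (K / D / l), G (D * (l * i)) := by
  classical
  -- first the multiples of D
  have h1 : ∑ n ∈ (Icc 1 K).filter (fun n => D ∣ n ∧ Nat.Coprime n b₁), G n =
      ∑ j ∈ (Icc 1 (K / D)).filter (fun j => Nat.Coprime j b₁), G (D * j) := by
    symm
    refine Finset.sum_bij (fun j _ => D * j) ?_ ?_ ?_ ?_
    · intro j hj
      obtain ⟨hj1, hj2⟩ := Finset.mem_filter.1 hj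
      obtain ⟨hj3, hj4⟩ := Finset.mem_Icc.1 hj1
      refine Finset.mem_filter.2 ⟨Finset.mem_Icc.2 ⟨?_, ?_⟩, Dvd.intro _ rfl, ?_⟩
      · exact Nat.succ_le_of_lt (Nat.mul_pos hD hj3)
      · calc D * j ≤ D * (K / D) := Nat.mul_le_mul_left _ hj4
          _ ≤ K := Nat.mul_div_le K D
      · exact Nat.Coprime.mul_left hc.symm hj2
    · intro a _ b _ hab
      exact Nat.eq_of_mul_eq_mul_left hD hab
    · intro n hn
      obtain ⟨hn1, hn2, hn3⟩ := Finset.mem_filter.1 hn
      obtain ⟨hn4, hn5⟩ := Finset.mem_Icc.1 hn1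
      obtain ⟨j, rfl⟩ := hn2
      refine ⟨j, ?_, rfl⟩
      refine Finset.mem_filter.2 ⟨Finset.mem_Icc.2 ⟨?_, ?_⟩, ?_⟩
      · rcases Nat.eq_zero_or_pos j with h | h
        · subst h; simp at hn4
        · exact h
      · rw [Nat.le_div_iff_mul_le hD]
        linarith [mul_comm D j]
      · exact Nat.Coprime.coprime_dvd_left (Dvd.intro_left _ rfl) hn3
    · intro j _
      rfl
  rw [h1]
  -- the Moebius function
  have h2 : ∀ j ∈ Icc 1 (K / D), (if Nat.Coprime j b₁ then G (D * j) else 0) =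
      ∑ l ∈ b₁.divisors, if l ∣ j then ((mu l : ℝ) : ℂ) * G (D * j) else 0 := by
    intro j hj
    have hj1 := (Finset.mem_Icc.1 hj).1
    have h3 : ∑ l ∈ (Nat.gcd j b₁).divisors, ((mu l : ℝ) : ℂ) = if Nat.gcd j b₁ = 1 then 1 else 0 := by
      have h4 := ArithmeticFunction.coe_mul_zeta_apply (f := ArithmeticFunction.moebius)
        (x := Nat.gcd j b₁)
      rw [ArithmeticFunction.moebius_mul_coe_zeta] at h4
      have h5 : ((∑ i ∈ (Nat.gcd j b₁).divisors, ArithmeticFunction.moebius i : ℤ) : ℂ) =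
          ((if Nat.gcd j b₁ = 1 then 1 else 0 : ℤ) : ℂ) := by
        rw [← h4, ArithmeticFunction.one_apply]
      push_cast at h5
      simp only [mu]
      push_cast
      rw [h5]
    have h6 : ∑ l ∈ b₁.divisors, (if l ∣ j then ((mu l : ℝ) : ℂ) * G (D * j) else 0) =
        ∑ l ∈ (Nat.gcd j b₁).divisors, ((mu l : ℝ) : ℂ) * G (D * j) := by
      rw [← Finset.sum_filter]
      apply Finset.sum_congr _ fun _ _ => rfl
      ext l
      simp only [Finset.mem_filter, Nat.mem_divisors, Nat.dvd_gcd_iff]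
      have hg : Nat.gcd j b₁ ≠ 0 := by
        have := Nat.gcd_pos_of_pos_left b₁ hj1
        omega
      constructor
      · rintro ⟨⟨a, b⟩, c⟩; exact ⟨⟨c, a⟩, hg⟩
      · rintro ⟨⟨a, b⟩, c⟩; exact ⟨⟨b, by omega⟩, a⟩
    rw [h6, ← Finset.sum_mul, h3]
    by_cases h : Nat.Coprime j b₁
    · rw [if_pos h, if_pos h, one_mul]
    · rw [if_neg h, if_neg h, zero_mul]
  rw [Finset.sum_filter, Finset.sum_congr rfl h2, Finset.sum_comm]
  refine Finset.sum_congr rfl fun l hl => ?_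
  have hl0 : 0 < l := Nat.pos_of_mem_divisors hl
  rw [Finset.mul_sum, ← Finset.sum_filter]
  symm
  refine Finset.sum_bij (fun i _ => l * i) ?_ ?_ ?_ ?_
  · intro i hi
    obtain ⟨hi1, hi2⟩ := Finset.mem_Icc.1 hi
    refine Finset.mem_filter.2 ⟨Finset.mem_Icc.2 ⟨Nat.succ_le_of_lt (Nat.mul_pos hl0 hi1), ?_⟩,
      Dvd.intro _ rfl⟩
    calc l * i ≤ l * (K / D / l) := Nat.mul_le_mul_left _ hi2
      _ ≤ K / D := Nat.mul_div_le _ l
  · intro a _ b _ hab
    exact Nat.eq_of_mul_eq_mul_left hl0 hab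
  · intro j hj
    obtain ⟨hj1, ⟨i, rfl⟩⟩ := Finset.mem_filter.1 hj
    obtain ⟨hj2, hj3⟩ := Finset.mem_Icc.1 hj1
    refine ⟨i, Finset.mem_Icc.2 ⟨?_, ?_⟩, rfl⟩
    · rcases Nat.eq_zero_or_pos i with h | h
      · subst h; simp at hj2
      · exact h
    · rw [Nat.le_div_iff_mul_le hl0]
      linarith [mul_comm l i]
  · intro i _
    rfl

theorem mdn_icc {A B : ℕ} {f : ℕ → ℝ} (hA : ∀ i, A < i → f i = 0) (hB : ∀ i, B < i → f i = 0) :
    ∑ i ∈ Icc 1 A, f i = ∑ i ∈ Icc 1 B, f i := by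
  rcases le_total A B with h | h
  · refine Finset.sum_subset (Finset.Icc_subset_Icc_right h) ?_
    intro i hi hn
    apply hA
    simp only [Finset.mem_Icc] at hi hn
    omega
  · symm
    refine Finset.sum_subset (Finset.Icc_subset_Icc_right h) ?_
    intro i hi hn
    apply hB
    simp only [Finset.mem_Icc] at hi hn
    omega

theorem mdn_hyp {y : ℝ} (h : 1 / 2 ≤ y) : hyp y = 0 := by
  unfold hyp
  rw [max_eq_left]
  exact (min_le_right _ _).trans (by linarith)

/-- the inner sum is the truncated harmonic sum -/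
theorem mdn_hf {k D l Dl : ℕ} (hk : 1 ≤ k) (hD : 1 ≤ D) (hl : 1 ≤ l) {y : ℝ}
    (hy : Real.exp (y + 1 / 2) ≤ Dl) :
    ∑ i ∈ Icc 1 (Dl / k / D / l), 2 * hyp (Real.log ((k * (D * (l * i)) : ℕ) : ℝ) - y) /
      ((D * (l * i) : ℕ) : ℝ) =
      1 / ((D : ℝ) * l) * (2 * Hf (Real.exp y / (k * D * l))) := by
  have hk0 : (0 : ℝ) < k := by exact_mod_cast hk
  have hD0 : (0 : ℝ) < D := by exact_mod_cast hD
  have hl0 : (0 : ℝ) < l := by exact_mod_cast hl
  set x : ℝ := Real.exp y / (k * D * l) with hx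
  have hx0 : 0 < x := by positivity
  have hlx : Real.log x = y - Real.log k - Real.log D - Real.log l := by
    rw [hx, Real.log_div (Real.exp_pos _).ne' (by positivity), Real.log_exp,
      Real.log_mul (by positivity) hl0.ne', Real.log_mul hk0.ne' hD0.ne']
    ring
  unfold Hf
  have h1 : ∀ i ∈ Icc 1 (Dl / k / D / l), 2 * hyp (Real.log ((k * (D * (l * i)) : ℕ) : ℝ) - y) /
      ((D * (l * i) : ℕ) : ℝ) = 2 / ((D : ℝ) * l) *
        (if 1 ≤ i then (1 / (i : ℝ) * hyp (Real.log i - Real.log x)) else 0) := by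
    intro i hi
    have hi1 := (Finset.mem_Icc.1 hi).1
    have hi0 : (0 : ℝ) < i := by exact_mod_cast hi1
    rw [if_pos hi1]
    have e1 : Real.log ((k * (D * (l * i)) : ℕ) : ℝ) - y = Real.log i - Real.log x := by
      push_cast
      rw [Real.log_mul hk0.ne' (by positivity), Real.log_mul hD0.ne' (by positivity),
        Real.log_mul hl0.ne' hi0.ne', hlx]
      ring
    rw [e1]
    push_cast
    field_simp
  rw [Finset.sum_congr rfl h1, ← Finset.mul_sum]
  have h2 : ∑ i ∈ Icc 1 (Dl / k / D / l),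
      (if 1 ≤ i then (1 / (i : ℝ) * hyp (Real.log i - Real.log x)) else 0) =
      ∑ i ∈ Icc 1 ⌊2 * x⌋₊, (if 1 ≤ i then (1 / (i : ℝ) * hyp (Real.log i - Real.log x)) else 0) := by
    apply mdn_icc
    · intro i hi
      split_ifs with hi1
      · rw [mdn_hyp, mul_zero]
        have hi0 : (0 : ℝ) < i := by exact_mod_cast hi1
        rw [hlx]
        have h3 : Dl < k * D * l * i := by
          have h4 : Dl / k / D / l < i := hi
          rw [Nat.div_lt_iff_lt_mul hl, Nat.div_lt_iff_lt_mul hD, Nat.div_lt_iff_lt_mul hk] at h4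
          calc Dl < i * l * D * k := h4
            _ = k * D * l * i := by ring
        have h5 : (Dl : ℝ) ≤ k * D * l * i := by exact_mod_cast h3.le
        have h6 : Real.exp (y + 1 / 2) ≤ k * D * l * i := hy.trans h5
        have h7 := Real.log_le_log (Real.exp_pos _) h6
        rw [Real.log_exp, Real.log_mul (by positivity) hi0.ne', Real.log_mul (by positivity) hl0.ne',
          Real.log_mul hk0.ne' hD0.ne'] at h7
        linarith
      · rfl
    · intro i hi
      split_ifs with hi1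
      · rw [mdn_hyp, mul_zero]
        have hi0 : (0 : ℝ) < i := by exact_mod_cast hi1
        have h3 : 2 * x < i := (Nat.floor_lt (by positivity)).1 hi
        have h4 := Real.log_le_log (by positivity) h3.le
        rw [Real.log_mul (by norm_num) hx0.ne'] at h4
        have h5 := Real.log_two_gt_d9
        linarith
      · rfl
  rw [h2]
  have h8 : ∑ i ∈ Icc 1 ⌊2 * x⌋₊, (if 1 ≤ i then (1 / (i : ℝ) * hyp (Real.log i - Real.log x)) else 0) =
      ∑ i ∈ Icc 1 ⌊2 * x⌋₊, 1 / (i : ℝ) * hyp (Real.log i - Real.log x) := by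
    refine Finset.sum_congr rfl fun i hi => ?_
    rw [if_pos (Finset.mem_Icc.1 hi).1]
  rw [h8]
  ring

/-- the main term with the truncated harmonic sums -/
theorem mdn_eq {D : ℕ} [NeZero D] (χ : DirichletCharacter ℂ D) {b Dl : ℕ} (r : ℤ) {y : ℝ}
    (hy : Real.exp (y + 1 / 2) ≤ Dl) :
    Md χ b r Dl y = ∑ k ∈ b.divisors.filter (fun k : ℕ => (k : ℤ) ∣ r),
      χ ((r / k : ℤ) : ZMod D) * (starRingEnd ℂ) (χ ((b / k : ℕ) : ZMod D)) *
        ∑ l ∈ (b / k).divisors,
          ((mu l / ((D : ℝ) * l) * (2 * Hf (Real.exp y / (k * D * l))) : ℝ) : ℂ) := by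
  have hD : 1 ≤ D := Nat.one_le_iff_ne_zero.2 (NeZero.ne D)
  unfold Md
  refine Finset.sum_congr rfl fun k hk => ?_
  have hkb := (Finset.mem_filter.1 hk).1
  have hk0 : 0 < k := Nat.pos_of_mem_divisors hkb
  have hb0 : b ≠ 0 := (Nat.mem_divisors.1 hkb).2
  have hkd : k ∣ b := (Nat.mem_divisors.1 hkb).1
  have hb1 : 1 ≤ b / k := Nat.div_pos (Nat.le_of_dvd (Nat.pos_of_ne_zero hb0) hkd) hk0
  by_cases hc : Nat.Coprime (b / k) D
  · simp only [← Finset.mul_sum]
    congr 1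
    set G : ℕ → ℂ := fun n => ((2 * hyp (Real.log ((k * n : ℕ) : ℝ) - y) / ((n : ℕ) : ℝ) : ℝ) : ℂ)
      with hG
    have h1 := mdn_fac hD hc (Dl / k) G
    have h2 := mdn_mob hD hb1 hc (Dl / k) G
    rw [h2] at h1
    rw [h1]
    refine Finset.sum_congr rfl fun l hl => ?_
    have hl0 : 1 ≤ l := Nat.pos_of_mem_divisors hl
    have h3 := mdn_hf (k := k) (D := D) (l := l) (Dl := Dl) hk0 hD hl0 hy
    simp only [hG]
    rw [← Complex.ofReal_sum, h3, ← Complex.ofReal_mul]
    congr 1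
    ring
  · have h1 : χ ((b / k : ℕ) : ZMod D) = 0 := by
      apply MulChar.map_nonunit
      rw [ZMod.isUnit_iff_coprime]
      exact hc
    rw [h1, map_zero]
    simp

/-- the polynomial main term (`u = log |m|`) -/
def Mg {D : ℕ} (χ : DirichletCharacter ℂ D) (b : ℕ) (r : ℤ) (u : ℝ) : ℂ :=
  ∑ k ∈ b.divisors.filter (fun k : ℕ => (k : ℤ) ∣ r),
      χ ((r / k : ℤ) : ZMod D) * (starRingEnd ℂ) (χ ((b / k : ℕ) : ZMod D)) *
        ∑ l ∈ (b / k).divisors,
          ((mu l / ((D : ℝ) * l) * (u + 2 * ga - 2 * Real.log (k * D * l)) : ℝ) : ℂ)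

theorem mdn_as {x : ℝ} (hx : 0 < x) : |2 * Hf x - (2 * Real.log x + 2 * ga)| ≤ 14 * x ^ (-(1 / 2) : ℝ) := by
  have hga : 0 < ga := by
    have := Real.one_half_lt_eulerMascheroniConstant
    unfold ga
    linarith
  have hga2 : ga < 2 / 3 := Real.eulerMascheroniConstant_lt_two_thirds
  rcases le_total 1 x with h | h
  · have h1 := Pool.Agent.LSPP.hf_asymp_pr h
    have h2 : |2 * Hf x - (2 * Real.log x + 2 * ga)| = 2 * |Hf x - (Real.log x + ga)| := by
      rw [← abs_of_pos (show (0 : ℝ) < 2 by norm_num), ← abs_mul, abs_of_pos (show (0 : ℝ) < 2 by norm_num)]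
      ring_nf
    have h3 : 4 / x ≤ 4 * x ^ (-(1 / 2) : ℝ) := by
      rw [div_eq_mul_inv]
      refine mul_le_mul_of_nonneg_left ?_ (by norm_num)
      rw [← Real.rpow_neg_one]
      exact Real.rpow_le_rpow_of_exponent_le h (by norm_num)
    have h4 : 0 ≤ x ^ (-(1 / 2) : ℝ) := by positivity
    rw [h2]
    linarith
  · have h1 := Pool.Agent.LSPP.hf_le'_pr h
    have h0 := Pool.Agent.LSPP.hf_nonneg_pr x
    have h2 : 1 ≤ x ^ (-(1 / 2) : ℝ) := Real.one_le_rpow_of_pos_of_le_one_of_nonpos hx h (by norm_num)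
    have h3 : - Real.log x ≤ 2 * x ^ (-(1 / 2) : ℝ) := by
      have h4 := Real.log_le_rpow_div (x := x⁻¹) (by positivity) (ε := 1 / 2) (by norm_num)
      rw [Real.log_inv, Real.inv_rpow hx.le, ← Real.rpow_neg hx.le] at h4
      have h5 : x ^ (-(1 / 2) : ℝ) / (1 / 2) = 2 * x ^ (-(1 / 2) : ℝ) := by ring
      linarith
    have h6 : Real.log x ≤ 0 := Real.log_nonpos hx.le h
    rw [abs_le]
    constructor <;> linarith

/-- replacing the truncated harmonic sums -/
theorem mdn_err {D : ℕ} [NeZero D] (χ : DirichletCharacter ℂ D) {b Dl : ℕ} (hb : 1 ≤ b) (r : ℤ)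
    {y : ℝ} (hy : Real.exp (y + 1 / 2) ≤ Dl) :
    ‖Md χ b r Dl y - Mg χ b r (2 * y)‖ ≤
      14 * (b.divisors.card : ℝ) ^ 2 * (Int.gcd r b : ℝ) * Real.exp (-(y / 2)) := by
  have hD : 1 ≤ D := Nat.one_le_iff_ne_zero.2 (NeZero.ne D)
  have hDR : (1 : ℝ) ≤ D := by exact_mod_cast hD
  rw [mdn_eq χ r hy]
  unfold Mg
  rw [← Finset.sum_sub_distrib]
  have hk : ∀ k ∈ b.divisors.filter (fun k : ℕ => (k : ℤ) ∣ r),
      ‖χ ((r / k : ℤ) : ZMod D) * (starRingEnd ℂ) (χ ((b / k : ℕ) : ZMod D)) *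
        ∑ l ∈ (b / k).divisors,
          ((mu l / ((D : ℝ) * l) * (2 * Hf (Real.exp y / (k * D * l))) : ℝ) : ℂ) -
      χ ((r / k : ℤ) : ZMod D) * (starRingEnd ℂ) (χ ((b / k : ℕ) : ZMod D)) *
        ∑ l ∈ (b / k).divisors,
          ((mu l / ((D : ℝ) * l) * (2 * y + 2 * ga - 2 * Real.log (k * D * l)) : ℝ) : ℂ)‖ ≤
      (b.divisors.card : ℝ) * (14 * (Int.gcd r b : ℝ) * Real.exp (-(y / 2))) := by
    intro k hk
    obtain ⟨hk1, hk2⟩ := Finset.mem_filter.1 hk
    have hk0 : 0 < k := Nat.pos_of_mem_divisors hk1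
    have hkR : (0 : ℝ) < k := by exact_mod_cast hk0
    rw [← mul_sub, ← Finset.sum_sub_distrib, norm_mul]
    have h1 : ‖χ ((r / k : ℤ) : ZMod D) * (starRingEnd ℂ) (χ ((b / k : ℕ) : ZMod D))‖ ≤ 1 := by
      rw [norm_mul, RCLike.norm_conj]
      exact mul_le_one₀ (DirichletCharacter.norm_le_one χ _) (norm_nonneg _)
        (DirichletCharacter.norm_le_one χ _)
    refine (mul_le_of_le_one_left (norm_nonneg _) h1).trans ?_
    have hl : ∀ l ∈ (b / k).divisors,
        ‖(((mu l / ((D : ℝ) * l) * (2 * Hf (Real.exp y / (k * D * l))) : ℝ) : ℂ) -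
          ((mu l / ((D : ℝ) * l) * (2 * y + 2 * ga - 2 * Real.log (k * D * l)) : ℝ) : ℂ))‖ ≤
        14 * (Int.gcd r b : ℝ) * Real.exp (-(y / 2)) := by
      intro l hl
      have hl0 : 0 < l := Nat.pos_of_mem_divisors hl
      have hlR : (1 : ℝ) ≤ l := by exact_mod_cast hl0
      have hl0' : (0 : ℝ) < l := by linarith
      have hD0 : (0 : ℝ) < D := by linarith
      rw [← Complex.ofReal_sub, Complex.norm_real, Real.norm_eq_abs, ← mul_sub, abs_mul]
      set x : ℝ := Real.exp y / (k * D * l) with hx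
      have hx0 : 0 < x := by positivity
      have hlx : Real.log x = y - Real.log (k * D * l) := by
        rw [hx, Real.log_div (Real.exp_pos _).ne' (by positivity), Real.log_exp]
      have h2 := mdn_as hx0
      have h3 : 2 * Hf x - (2 * y + 2 * ga - 2 * Real.log (k * D * l)) =
          2 * Hf x - (2 * Real.log x + 2 * ga) := by
        rw [hlx]; ring
      rw [h3]
      have hmu : |mu l / ((D : ℝ) * l)| ≤ 1 / ((D : ℝ) * l) := by
        rw [abs_div, abs_of_pos (show (0 : ℝ) < (D : ℝ) * l by positivity)]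
        gcongr
        unfold mu
        have := ArithmeticFunction.abs_moebius_le_one (n := l)
        exact_mod_cast this
      have hxp : x ^ (-(1 / 2) : ℝ) ≤ (k * (D * l)) * Real.exp (-(y / 2)) := by
        rw [hx, Real.div_rpow (Real.exp_pos _).le (by positivity), ← Real.exp_mul]
        have e1 : y * (-(1 / 2)) = -(y / 2) := by ring
        rw [e1, Real.rpow_neg (by positivity), div_inv_eq_mul, mul_comm]
        refine mul_le_mul_of_nonneg_right ?_ (Real.exp_pos _).le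
        have h5 : (1 : ℝ) ≤ k * D * l := by
          have : 1 ≤ k * D * l := Nat.mul_pos (Nat.mul_pos hk0 hD) hl0
          exact_mod_cast this
        calc ((k : ℝ) * D * l) ^ (1 / 2 : ℝ) ≤ ((k : ℝ) * D * l) ^ (1 : ℝ) :=
              Real.rpow_le_rpow_of_exponent_le h5 (by norm_num)
          _ = k * (D * l) := by rw [Real.rpow_one]; ring
      have hkg : (k : ℝ) ≤ Int.gcd r b := by
        have h6 : k ∣ Int.gcd r b := by
          have h60 : (k : ℤ) ∣ (b : ℤ) := by exact_mod_cast (Nat.mem_divisors.1 hk1).1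
          have := Int.dvd_gcd hk2 h60
          exact_mod_cast this
        have h7 : 0 < Int.gcd r b := Int.gcd_pos_of_ne_zero_right _ (by exact_mod_cast (by omega : b ≠ 0))
        exact_mod_cast Nat.le_of_dvd h7 h6
      have hE : 0 < Real.exp (-(y / 2)) := Real.exp_pos _
      calc |mu l / ((D : ℝ) * l)| * |2 * Hf x - (2 * Real.log x + 2 * ga)| ≤
          1 / ((D : ℝ) * l) * (14 * ((k * (D * l)) * Real.exp (-(y / 2)))) := by
            refine mul_le_mul hmu (h2.trans ?_) (abs_nonneg _) (by positivity)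
            exact mul_le_mul_of_nonneg_left hxp (by norm_num)
        _ = 14 * (k : ℝ) * Real.exp (-(y / 2)) := by field_simp
        _ ≤ 14 * (Int.gcd r b : ℝ) * Real.exp (-(y / 2)) := by gcongr
    refine (norm_sum_le_of_le _ hl).trans ?_
    rw [Finset.sum_const, nsmul_eq_mul]
    refine mul_le_mul_of_nonneg_right ?_ (by positivity)
    have : (b / k).divisors.card ≤ b.divisors.card := by
      apply Finset.card_le_card
      exact Nat.divisors_subset_of_dvd (by omega) (Nat.div_dvd_of_dvd (Nat.mem_divisors.1 hk1).1)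
    exact_mod_cast this
  refine (norm_sum_le_of_le _ hk).trans ?_
  rw [Finset.sum_const, nsmul_eq_mul]
  have h1 : ((b.divisors.filter (fun k : ℕ => (k : ℤ) ∣ r)).card : ℝ) ≤ b.divisors.card := by
    exact_mod_cast Finset.card_filter_le _ _
  calc ((b.divisors.filter (fun k : ℕ => (k : ℤ) ∣ r)).card : ℝ) *
      ((b.divisors.card : ℝ) * (14 * (Int.gcd r b : ℝ) * Real.exp (-(y / 2)))) ≤
      (b.divisors.card : ℝ) * ((b.divisors.card : ℝ) * (14 * (Int.gcd r b : ℝ) * Real.exp (-(y / 2)))) := by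
        gcongr
    _ = _ := by ring

end

end Pool.Agent.EXB
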